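import Mathlib

/-!
# Basic definitions for the nonexistence theorem on perfect binary arrays

`E = ℤ[ω]`, the Eisenstein integers, `N` the norm, `red` the reduction modulo 2,
`push`, `cc` the pushforward and the (anti-periodic) character component along a map
`ℓ : H → ZMod 16`, `kap` the kernel of a finite family of such maps.
-/

namespace MP82
open Finset

/-- The Eisenstein integers `re + im * ω`, `ω ^ 2 = -1 - ω`. -/
abbrev E := QuadraticAlgebra ℤ (-1) (-1)

/-- The norm `|re + im ω|²`. -/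
def N (z : E) : ℤ := z.re ^ 2 - z.re * z.im + z.im ^ 2

/-- Reduction modulo 2, as an additive map. -/
def red (z : E) : ZMod 2 × ZMod 2 := ((z.re : ZMod 2), (z.im : ZMod 2))

@[simp] lemma red_add (z w : E) : red (z + w) = red z + red w := by
  simp [red]

@[simp] lemma red_zero : red 0 = 0 := by
  simp [red]

@[simp] lemma red_neg (z : E) : red (-z) = red z := by
  have h : ∀ a : ZMod 2, -a = a := by decide
  simp [red, h]

@[simp] lemma red_sub (z w : E) : red (z - w) = red z + red w := by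
  rw [sub_eq_add_neg, red_add, red_neg]

lemma red_sum {ι : Type*} (s : Finset ι) (f : ι → E) : red (∑ i ∈ s, f i) = ∑ i ∈ s, red (f i) := by
  classical
  induction s using Finset.induction_on with
  | empty => simp
  | insert a s ha ih => rw [sum_insert ha, sum_insert ha, red_add, ih]

lemma red_self_add (a : ZMod 2 × ZMod 2) : a + a = 0 := by
  revert a; decide

lemma red_two_mul (z : E) : red (2 * z) = 0 := by
  rw [two_mul, red_add, red_self_add]

lemma red_eq_zero_iff (z : E) : red z = 0 ↔ ∃ w, z = 2 * w := by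
  constructor
  · intro h
    simp only [red, Prod.mk_eq_zero] at h
    obtain ⟨⟨a, ha⟩, ⟨b, hb⟩⟩ :=
      And.intro ((ZMod.intCast_zmod_eq_zero_iff_dvd _ 2).1 h.1)
        ((ZMod.intCast_zmod_eq_zero_iff_dvd _ 2).1 h.2)
    refine ⟨⟨a, b⟩, ?_⟩
    rw [two_mul]
    ext
    · simp only [QuadraticAlgebra.re_add]; push_cast at ha; omega
    · simp only [QuadraticAlgebra.im_add]; push_cast at hb; omega
  · rintro ⟨w, rfl⟩
    exact red_two_mul w

lemma N_odd_iff (z : E) : Odd (N z) ↔ red z ≠ 0 := by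
  have key : ∀ a b : ZMod 2, (a ^ 2 - a * b + b ^ 2 = 1 ↔ (a, b) ≠ 0) := by decide
  have h1 : Odd (N z) ↔ ((N z : ℤ) : ZMod 2) = 1 := by
    rw [← Int.not_even_iff_odd, ← ZMod.intCast_eq_zero_iff_even]
    generalize ((N z : ℤ) : ZMod 2) = a
    revert a; decide
  rw [h1, N]
  push_cast
  rw [key]
  rfl

lemma mul_star_eq (z : E) : z * star z = ((N z : ℤ) : E) := by
  ext
  · rw [QuadraticAlgebra.re_intCast]
    simp [N]; ring
  · rw [QuadraticAlgebra.im_intCast]
    simp; ring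

lemma N_nonneg (z : E) : 0 ≤ N z := by
  unfold N; nlinarith [sq_nonneg (z.re - z.im), sq_nonneg z.re, sq_nonneg z.im]

lemma N_eq_zero_iff (z : E) : N z = 0 ↔ z = 0 := by
  constructor
  · intro h
    unfold N at h
    have h1 : z.re ^ 2 = 0 := by
      nlinarith [sq_nonneg (z.re - 2 * z.im), sq_nonneg z.re]
    have h2 : z.im ^ 2 = 0 := by
      nlinarith [sq_nonneg (2 * z.re - z.im), sq_nonneg z.im]
    ext
    · simpa using h1
    · simpa using h2
  · rintro rfl; simp [N]

lemma N_mul (z w : E) : N (z * w) = N z * N w := by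
  simp [N]; ring

lemma N_intMul (a : ℤ) (z : E) : N ((a : E) * z) = a ^ 2 * N z := by
  simp [N]; ring

section push

set_option linter.unusedSectionVars false

variable {H : Type} [AddCommGroup H] [Fintype H] [DecidableEq H]

/-- Pushforward of `u` along `ℓ`. -/
def push (ℓ : H → ZMod 16) (u : H → E) (s : ZMod 16) : E :=
  ∑ x, if ℓ x = s then u x else 0

/-- The anti-periodic component. -/
def cc (ℓ : H → ZMod 16) (u : H → E) (s : ZMod 16) : E := push ℓ u s - push ℓ u (s + 8)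

/-- The kernel of a finite family of maps `H → ZMod 16`. -/
def kap {ι : Type} [Fintype ι] (ℓ : ι → H → ZMod 16) (d : H) : ℤ :=
  ∑ i, ((if ℓ i d = 0 then 1 else 0) - (if ℓ i d = 8 then 1 else 0))

lemma cc_anti (ℓ : H → ZMod 16) (u : H → E) (s : ZMod 16) : cc ℓ u (s + 8) = - cc ℓ u s := by
  have h : s + 8 + 8 = s := by rw [add_assoc]; revert s; decide
  simp only [cc, h]; ring

lemma cc_zero (ℓ : H → ZMod 16) (s : ZMod 16) : cc ℓ (fun _ => 0) s = 0 := by
  simp [cc, push]

/-- `cc` written as a sum over the group. -/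
lemma cc_eq (ℓ : H → ZMod 16) (u : H → E) (s : ZMod 16) :
    cc ℓ u s = ∑ y, ((if ℓ y = s then 1 else 0) - (if ℓ y = s + 8 then 1 else 0) : ℤ) • u y := by
  simp only [cc, push, ← sum_sub_distrib]
  refine sum_congr rfl fun y _ => ?_
  split_ifs <;> simp

/-- Fourier inversion over a family of additive maps. -/
theorem G1 {ι : Type} [Fintype ι] (ℓ : ι → H → ZMod 16)
    (hℓ : ∀ i x y, ℓ i (x + y) = ℓ i x + ℓ i y) (u : H → E) (x : H) :
    ∑ i, cc (ℓ i) u (ℓ i x) = ∑ y, kap ℓ (y - x) • u y := by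
  simp only [cc_eq, kap]
  rw [sum_comm]
  refine sum_congr rfl fun y _ => ?_
  rw [← sum_smul]
  congr 1
  refine sum_congr rfl fun i _ => ?_
  have h1 : ℓ i y = ℓ i (y - x) + ℓ i x := by rw [← hℓ]; simp
  have h2 : (ℓ i y = ℓ i x) ↔ (ℓ i (y - x) = 0) := by
    rw [h1]; simp
  have h3 : (ℓ i y = ℓ i x + 8) ↔ (ℓ i (y - x) = 8) := by
    rw [h1, add_comm]; simp
  simp only [h2, h3]

/-- Energy identity for a single map. -/
theorem G2' (ℓ : H → ZMod 16) (u : H → E) :
    ∑ s, cc ℓ u s * star (cc ℓ u s) = 2 * ∑ x, cc ℓ u (ℓ x) * star (u x) := by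
  have h0 : ∀ s, star (cc ℓ u s) =
      ∑ x, ((if ℓ x = s then 1 else 0) - (if ℓ x = s + 8 then 1 else 0) : ℤ) • star (u x) := by
    intro s
    rw [cc_eq, star_sum]
    refine sum_congr rfl fun x _ => ?_
    rw [star_zsmul]
  calc ∑ s, cc ℓ u s * star (cc ℓ u s)
      = ∑ s, ∑ x, cc ℓ u s *
          (((if ℓ x = s then 1 else 0) - (if ℓ x = s + 8 then 1 else 0) : ℤ) • star (u x)) := by
        refine sum_congr rfl fun s _ => ?_
        rw [h0, mul_sum]
    _ = ∑ x, ∑ s, cc ℓ u s *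
          (((if ℓ x = s then 1 else 0) - (if ℓ x = s + 8 then 1 else 0) : ℤ) • star (u x)) :=
        sum_comm
    _ = ∑ x, 2 * (cc ℓ u (ℓ x) * star (u x)) := by
        refine sum_congr rfl fun x _ => ?_
        have e1 : ∀ s : ZMod 16, (ℓ x = s + 8) ↔ (ℓ x + 8 = s) := by
          intro s
          have : ∀ a b : ZMod 16, (a = b + 8) ↔ (a + 8 = b) := by decide
          exact this _ _
        have e2 : ∀ s : ZMod 16, cc ℓ u s *
            (((if ℓ x = s then 1 else 0) - (if ℓ x = s + 8 then 1 else 0) : ℤ) • star (u x))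
            = (if ℓ x = s then cc ℓ u s * star (u x) else 0)
              - (if ℓ x + 8 = s then cc ℓ u s * star (u x) else 0) := by
          intro s
          simp only [e1]
          split_ifs <;> simp
        simp only [e2, sum_sub_distrib, sum_ite_eq, mem_univ, if_true, cc_anti]
        ring
    _ = 2 * ∑ x, cc ℓ u (ℓ x) * star (u x) := by rw [mul_sum]

/-- Energy identity for a family of additive maps. -/
theorem G2 {ι : Type} [Fintype ι] (ℓ : ι → H → ZMod 16)
    (hℓ : ∀ i x y, ℓ i (x + y) = ℓ i x + ℓ i y) (u : H → E) :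
    ∑ i, ∑ s, cc (ℓ i) u s * star (cc (ℓ i) u s)
      = 2 * ∑ x, (∑ y, kap ℓ (y - x) • u y) * star (u x) := by
  simp only [G2', ← mul_sum]
  congr 1
  rw [sum_comm]
  refine sum_congr rfl fun x _ => ?_
  rw [← sum_mul, G1 ℓ hℓ]

end push

lemma star_sum_mul_eq {ι : Type} [Fintype ι] (c : ι → E) :
    ∑ s, c s * star (c s) = ((∑ s, N (c s) : ℤ) : E) := by
  simp only [mul_star_eq, Int.cast_sum]

/-- `1` if `z` is nonzero modulo 2, `0` otherwise. -/
def nz (z : E) : ℕ := if red z = 0 then 0 else 1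

/-- The conclusion of the descent theorem for a family `u r` (`r` in a finite index set `R`) along
`ℓ`: exactly one `r0` is active, the component is supported on one parity class and has a
two-valued perfect autocorrelation. -/
def Act {H : Type} [AddCommGroup H] [Fintype H] [DecidableEq H] {R : Type}
    (ℓ : H → ZMod 16) (u : R → H → E) (M : ℤ) : Prop :=
  ∃ r0 : R, (∀ r, r ≠ r0 → ∀ s, cc ℓ (u r) s = 0) ∧
    (∃ ε : ZMod 2, ∀ s : ZMod 16, (s.val : ZMod 2) ≠ ε → cc ℓ (u r0) s = 0) ∧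
    (∀ j : ZMod 16, ∑ s, cc ℓ (u r0) s * star (cc ℓ (u r0) (s + j))
      = if j = 0 then ((2 * M : ℤ) : E) else if j = 8 then ((-(2 * M) : ℤ) : E) else 0)

/-- The components of a real function on `ZMod (3^K)` (the fibre over `r < 3^(K-1)`). -/
def comp (K : ℕ) (f : ZMod (3 ^ K) → ℤ) (r : ℕ) : E :=
  ⟨f ((r : ℕ) : ZMod (3 ^ K)) - f ((r + 2 * 3 ^ (K - 1) : ℕ) : ZMod (3 ^ K)),
   f ((r + 3 ^ (K - 1) : ℕ) : ZMod (3 ^ K)) - f ((r + 2 * 3 ^ (K - 1) : ℕ) : ZMod (3 ^ K))⟩

/-- The characters of `ZMod 8 × ZMod 8`, with values in `ZMod 16`. -/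
def ell8 (p q : ZMod 8) (x : ZMod 8 × ZMod 8) : ZMod 16 := 2 * ((p * x.1 + q * x.2).val : ZMod 16)

/-- The characters of `ZMod 4 × ZMod 16`, with values in `ZMod 16`. -/
def ell416 (p : ZMod 4) (q : ZMod 16) (x : ZMod 4 × ZMod 16) : ZMod 16 :=
  4 * ((p * x.1).val : ZMod 16) + q * x.2

/-- The characters of `ZMod 2 × ZMod 8`, with values in `ZMod 16`. -/
def ell28 (p : ZMod 2) (q : ZMod 8) (x : ZMod 2 × ZMod 8) : ZMod 16 :=
  8 * ((p * x.1).val : ZMod 16) + 2 * ((q * x.2).val : ZMod 16)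

lemma ell8_add (p q : ZMod 8) (x y : ZMod 8 × ZMod 8) :
    ell8 p q (x + y) = ell8 p q x + ell8 p q y := by
  have h : ∀ a b : ZMod 8, 2 * (((a + b).val : ℕ) : ZMod 16)
      = 2 * ((a.val : ℕ) : ZMod 16) + 2 * ((b.val : ℕ) : ZMod 16) := by decide
  simp only [ell8, Prod.fst_add, Prod.snd_add]
  rw [← h]
  congr 3
  ring

lemma ell416_add (p : ZMod 4) (q : ZMod 16) (x y : ZMod 4 × ZMod 16) :
    ell416 p q (x + y) = ell416 p q x + ell416 p q y := by
  have h : ∀ a b : ZMod 4, 4 * (((a + b).val : ℕ) : ZMod 16)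
      = 4 * ((a.val : ℕ) : ZMod 16) + 4 * ((b.val : ℕ) : ZMod 16) := by decide
  simp only [ell416, Prod.fst_add, Prod.snd_add, mul_add, h]
  ring

lemma ell28_add (p : ZMod 2) (q : ZMod 8) (x y : ZMod 2 × ZMod 8) :
    ell28 p q (x + y) = ell28 p q x + ell28 p q y := by
  have h : ∀ a b : ZMod 2, 8 * (((a + b).val : ℕ) : ZMod 16)
      = 8 * ((a.val : ℕ) : ZMod 16) + 8 * ((b.val : ℕ) : ZMod 16) := by decide
  have h' : ∀ a b : ZMod 8, 2 * (((a + b).val : ℕ) : ZMod 16)
      = 2 * ((a.val : ℕ) : ZMod 16) + 2 * ((b.val : ℕ) : ZMod 16) := by decide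
  simp only [ell28, Prod.fst_add, Prod.snd_add, mul_add, h, h']
  ring

end MP82
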