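import Pool.Agent.Lib.MP_82ec8b_co.Basic

/-! M0: from a perfect binary array to an integer valued perfect function on `H × Z_{3^k}`. -/

namespace MP82
open Finset

/-- Perfect binary arrays of size `s × t` (indices modulo `s` and modulo `t`). -/
def IsPBA (s t : ℕ) [NeZero s] [NeZero t] (a : ZMod s → ZMod t → ℤ) : Prop :=
  (∀ i j, a i j = 1 ∨ a i j = -1) ∧
  ∀ u v, (u ≠ 0 ∨ v ≠ 0) → ∑ i, ∑ j, a i j * a (i + u) (j + v) = 0

theorem IsPBA.transpose {s t : ℕ} [NeZero s] [NeZero t] {a : ZMod s → ZMod t → ℤ}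
    (h : IsPBA s t a) : IsPBA t s (fun i j => a j i) := by
  refine ⟨fun i j => h.1 j i, fun u v huv => ?_⟩
  rw [sum_comm]
  exact h.2 v u huv.symm

/-- Reindexing of the correlation sum over a product decomposition of the two index groups. -/
lemma M0_reindex {s t : ℕ} [NeZero s] [NeZero t] {A C B D : Type} [Fintype A] [Fintype B]
    [Fintype C] [Fintype D] [AddCommGroup A] [AddCommGroup B] [AddCommGroup C] [AddCommGroup D]
    (e1 : ZMod s ≃+ A × C) (e2 : ZMod t ≃+ B × D) (a : ZMod s → ZMod t → ℤ)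
    (d1 : A) (d2 : B) (v : C) (w : D) :
    ∑ x1, ∑ x2, ∑ c, ∑ e, a (e1.symm (x1, c)) (e2.symm (x2, e)) *
        a (e1.symm (x1 + d1, c + v)) (e2.symm (x2 + d2, e + w))
      = ∑ i, ∑ j, a i j * a (i + e1.symm (d1, v)) (j + e2.symm (d2, w)) := by
  have h2 : ∀ i, ∑ j, a i j * a (i + e1.symm (d1, v)) (j + e2.symm (d2, w))
      = ∑ x2, ∑ e, a i (e2.symm (x2, e)) *
          a (i + e1.symm (d1, v)) (e2.symm (x2 + d2, e + w)) := by
    intro i
    rw [← Fintype.sum_prod_type', ← e2.symm.toEquiv.sum_comp]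
    refine Fintype.sum_congr _ _ fun p => ?_
    have : e2.symm (p.1 + d2, p.2 + w) = e2.symm p + e2.symm (d2, w) := by
      rw [← map_add]; rfl
    rw [this]; rfl
  simp only [h2]
  rw [← e1.symm.toEquiv.sum_comp, Fintype.sum_prod_type]
  refine Fintype.sum_congr _ _ fun x1 => ?_
  rw [sum_comm]
  refine Fintype.sum_congr _ _ fun c => ?_
  refine Fintype.sum_congr _ _ fun x2 => ?_
  refine Fintype.sum_congr _ _ fun e => ?_
  have : e1.symm (x1 + d1, c + v) = e1.symm (x1, c) + e1.symm (d1, v) := by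
    rw [← map_add]; rfl
  rw [this]; rfl

theorem M0 (i j k l : ℕ) (hij : Even (i + j)) (hkl : l < k)
    (a : ZMod (2 ^ i * 3 ^ k) → ZMod (2 ^ j * 3 ^ l) → ℤ)
    (ha : IsPBA (2 ^ i * 3 ^ k) (2 ^ j * 3 ^ l) a) :
    ∃ (b : ℕ) (F : ZMod (2 ^ i) × ZMod (2 ^ j) → ZMod (3 ^ k) → ℤ),
      k + l = 2 * b ∧ l + 1 ≤ b ∧ (∀ x c, Odd (F x c)) ∧ (∀ x c, |F x c| ≤ 3 ^ l) ∧
      ∀ d v, ∑ x, ∑ c, F x c * F (x + d) (c + v)
        = if d = 0 ∧ v = 0 then 2 ^ (i + j) * 9 ^ b else 0 := by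
  classical
  have cop1 : Nat.Coprime (2 ^ i) (3 ^ k) := Nat.Coprime.pow _ _ (by norm_num)
  have cop2 : Nat.Coprime (2 ^ j) (3 ^ l) := Nat.Coprime.pow _ _ (by norm_num)
  let e1 : ZMod (2 ^ i * 3 ^ k) ≃+ ZMod (2 ^ i) × ZMod (3 ^ k) :=
    (ZMod.chineseRemainder cop1).toAddEquiv
  let e2 : ZMod (2 ^ j * 3 ^ l) ≃+ ZMod (2 ^ j) × ZMod (3 ^ l) :=
    (ZMod.chineseRemainder cop2).toAddEquiv
  let F : ZMod (2 ^ i) × ZMod (2 ^ j) → ZMod (3 ^ k) → ℤ := fun x c =>
    ∑ e : ZMod (3 ^ l), a (e1.symm (x.1, c)) (e2.symm (x.2, e))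
  -- the correlations
  have hcorr : ∀ d v, ∑ x, ∑ c, F x c * F (x + d) (c + v)
      = if d = 0 ∧ v = 0 then (2 : ℤ) ^ (i + j) * 3 ^ (k + l) else 0 := by
    intro d v
    have h1 : ∑ x, ∑ c, F x c * F (x + d) (c + v)
        = ∑ w : ZMod (3 ^ l), ∑ x1 : ZMod (2 ^ i), ∑ x2 : ZMod (2 ^ j), ∑ c : ZMod (3 ^ k),
          ∑ e : ZMod (3 ^ l),
          a (e1.symm (x1, c)) (e2.symm (x2, e)) *
          a (e1.symm (x1 + d.1, c + v)) (e2.symm (x2 + d.2, e + w)) := by
      rw [Fintype.sum_prod_type, sum_comm (s := (univ : Finset (ZMod (3 ^ l))))]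
      refine Fintype.sum_congr _ _ fun x1 => ?_
      rw [sum_comm (s := (univ : Finset (ZMod (3 ^ l))))]
      refine Fintype.sum_congr _ _ fun x2 => ?_
      rw [sum_comm (s := (univ : Finset (ZMod (3 ^ l))))]
      refine Fintype.sum_congr _ _ fun c => ?_
      rw [sum_comm (s := (univ : Finset (ZMod (3 ^ l))))]
      show (∑ e : ZMod (3 ^ l), a (e1.symm (x1, c)) (e2.symm (x2, e))) *
        (∑ e : ZMod (3 ^ l), a (e1.symm (x1 + d.1, c + v)) (e2.symm (x2 + d.2, e))) = _
      rw [sum_mul]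
      refine Fintype.sum_congr _ _ fun e => ?_
      rw [mul_sum, ← Equiv.sum_comp (Equiv.addLeft e)]
      rfl
    rw [h1]
    have h2 : ∀ w : ZMod (3 ^ l), (∑ x1 : ZMod (2 ^ i), ∑ x2 : ZMod (2 ^ j), ∑ c : ZMod (3 ^ k),
          ∑ e : ZMod (3 ^ l),
          a (e1.symm (x1, c)) (e2.symm (x2, e)) *
          a (e1.symm (x1 + d.1, c + v)) (e2.symm (x2 + d.2, e + w)))
          = if w = 0 then (if d = 0 ∧ v = 0 then (2 : ℤ) ^ (i + j) * 3 ^ (k + l) else 0)
            else 0 := by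
      intro w
      rw [M0_reindex e1 e2 a d.1 d.2 v w]
      by_cases hz : (d.1, v) = (0 : ZMod (2 ^ i) × ZMod (3 ^ k)) ∧
          (d.2, w) = (0 : ZMod (2 ^ j) × ZMod (3 ^ l))
      · obtain ⟨hz1, hz2⟩ := hz
        have hd1 : d.1 = 0 := congrArg Prod.fst hz1
        have hv : v = 0 := congrArg Prod.snd hz1
        have hd2 : d.2 = 0 := congrArg Prod.fst hz2
        have hw : w = 0 := congrArg Prod.snd hz2
        have hd : d = 0 := Prod.ext hd1 hd2
        rw [hz1, hz2, map_zero, map_zero, if_pos hw, if_pos ⟨hd, hv⟩]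
        have h3 : ∀ p q, a p q * a (p + 0) (q + 0) = 1 := by
          intro p q
          rw [add_zero, add_zero]
          rcases ha.1 p q with h | h <;> rw [h] <;> norm_num
        simp only [h3, sum_const, card_univ, ZMod.card, mul_one, nsmul_eq_mul]
        push_cast
        ring
      · have hne : e1.symm (d.1, v) ≠ 0 ∨ e2.symm (d.2, w) ≠ 0 := by
          by_contra hcon
          push Not at hcon
          apply hz
          constructor
          · have := congrArg e1 hcon.1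
            simpa using this
          · have := congrArg e2 hcon.2
            simpa using this
        rw [ha.2 _ _ hne]
        split_ifs with hw hdv
        · exfalso
          apply hz
          obtain ⟨hd, hv⟩ := hdv
          rw [hd, hv, hw]
          exact ⟨rfl, rfl⟩
        · rfl
        · rfl
    simp only [h2, sum_ite_eq', mem_univ, if_true]
  -- the square of the total sum
  have hsq : (∑ x, ∑ c, F x c) ^ 2 = (2 : ℤ) ^ (i + j) * 3 ^ (k + l) := by
    have h1 : (∑ x, ∑ c, F x c) ^ 2 = ∑ d, ∑ v, ∑ x, ∑ c, F x c * F (x + d) (c + v) := by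
      rw [sq, sum_mul]
      have h2 : ∀ x, (∑ c, F x c) * (∑ x, ∑ c, F x c)
          = ∑ c, ∑ d, ∑ v, F x c * F (x + d) (c + v) := by
        intro x
        rw [sum_mul]
        refine Fintype.sum_congr _ _ fun c => ?_
        rw [mul_sum, ← Equiv.sum_comp (Equiv.addLeft x)]
        refine Fintype.sum_congr _ _ fun d => ?_
        rw [mul_sum, ← Equiv.sum_comp (Equiv.addLeft c)]
        rfl
      simp only [h2]
      rw [← Fintype.sum_prod_type' (f := fun x c => ∑ d, ∑ v, F x c * F (x + d) (c + v)),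
        ← Fintype.sum_prod_type' (f := fun d v => ∑ x, ∑ c, F x c * F (x + d) (c + v))]
      have h4 : ∀ p : (ZMod (2 ^ i) × ZMod (2 ^ j)) × ZMod (3 ^ k),
          ∑ d, ∑ v, F p.1 p.2 * F (p.1 + d) (p.2 + v)
          = ∑ q : (ZMod (2 ^ i) × ZMod (2 ^ j)) × ZMod (3 ^ k),
            F p.1 p.2 * F (p.1 + q.1) (p.2 + q.2) := by
        intro p
        exact (Fintype.sum_prod_type' (fun d v => F p.1 p.2 * F (p.1 + d) (p.2 + v))).symm
      have h5 : ∀ q : (ZMod (2 ^ i) × ZMod (2 ^ j)) × ZMod (3 ^ k),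
          ∑ x, ∑ c, F x c * F (x + q.1) (c + q.2)
          = ∑ p : (ZMod (2 ^ i) × ZMod (2 ^ j)) × ZMod (3 ^ k),
            F p.1 p.2 * F (p.1 + q.1) (p.2 + q.2) := by
        intro q
        exact (Fintype.sum_prod_type' (fun x c => F x c * F (x + q.1) (c + q.2))).symm
      simp only [h4, h5]
      rw [sum_comm]
    rw [h1]
    simp only [hcorr]
    rw [← Fintype.sum_prod_type'
      (f := fun (d : ZMod (2 ^ i) × ZMod (2 ^ j)) (v : ZMod (3 ^ k)) =>
        if d = 0 ∧ v = 0 then (2 : ℤ) ^ (i + j) * 3 ^ (k + l) else 0)]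
    rw [Fintype.sum_eq_single (0, 0)]
    · simp
    · rintro ⟨d, v⟩ hne
      rw [if_neg]
      rintro ⟨h1, h2⟩
      exact hne (Prod.ext h1 h2)
  -- parity of k + l
  have hpar : Even (k + l) := by
    obtain ⟨m, hm⟩ := hij
    have h1 : (∑ x, ∑ c, F x c).natAbs ^ 2 = 2 ^ (i + j) * 3 ^ (k + l) := by
      have := congrArg Int.natAbs hsq
      rw [Int.natAbs_pow] at this
      rw [this, Int.natAbs_mul, Int.natAbs_pow, Int.natAbs_pow]
      rfl
    have h2 := congrArg (fun n => n.factorization 3) h1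
    simp only [Nat.factorization_pow] at h2
    rw [Nat.factorization_mul (by positivity) (by positivity), Nat.factorization_pow,
      Nat.factorization_pow] at h2
    simp only [Finsupp.coe_smul, Finsupp.coe_add, Pi.smul_apply, Pi.add_apply, smul_eq_mul] at h2
    rw [Nat.Prime.factorization_self Nat.prime_three,
      Nat.factorization_eq_zero_of_not_dvd (by norm_num : ¬ 3 ∣ 2)] at h2
    rw [mul_zero, zero_add, mul_one] at h2
    rw [← h2]
    exact even_two_mul _
  obtain ⟨b, hb⟩ := hpar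
  refine ⟨b, F, by omega, by omega, ?_, ?_, ?_⟩
  · intro x c
    have h0 : ∀ n : ℤ, Odd n ↔ (n : ZMod 2) = 1 := by
      intro n
      rw [← Int.not_even_iff_odd, ← ZMod.intCast_eq_zero_iff_even]
      generalize (n : ZMod 2) = a
      revert a; decide
    rw [h0]
    show ((∑ e : ZMod (3 ^ l), a (e1.symm (x.1, c)) (e2.symm (x.2, e)) : ℤ) : ZMod 2) = 1
    rw [Int.cast_sum]
    have h1 : ∀ p q, ((a p q : ℤ) : ZMod 2) = 1 := by
      intro p q
      rcases ha.1 p q with h | h <;> rw [h] <;> decide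
    simp only [h1, sum_const, card_univ, ZMod.card, nsmul_eq_mul, mul_one]
    push_cast
    have : (3 : ZMod 2) = 1 := by decide
    rw [this, one_pow]
  · intro x c
    show |∑ e : ZMod (3 ^ l), a (e1.symm (x.1, c)) (e2.symm (x.2, e))| ≤ 3 ^ l
    refine (abs_sum_le_sum_abs _ _).trans ?_
    have h1 : ∀ p q, |a p q| = 1 := by
      intro p q
      rcases ha.1 p q with h | h <;> rw [h] <;> norm_num
    simp only [h1, sum_const, card_univ, ZMod.card, nsmul_eq_mul, mul_one]
    push_cast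
    exact le_rfl
  · intro d v
    rw [hcorr]
    have : (3 : ℤ) ^ (k + l) = 9 ^ b := by
      rw [hb, ← two_mul, pow_mul]; norm_num
    rw [this]

end MP82
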