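import Pool.Agent.Lib.MP_82ec8b_co.M1Main

/-! M1: the descent theorem. -/

namespace MP82
open Finset NumberField

lemma three_modEq (k x y : ℕ) : 3 * x ≡ 3 * y [MOD 3 ^ (k + 1)] ↔ x ≡ y [MOD 3 ^ k] := by
  have e : 3 ^ (k + 1) = 3 * 3 ^ k := by ring
  rw [e]
  constructor
  · intro h
    exact Nat.ModEq.mul_left_cancel' (by norm_num) h
  · intro h
    exact Nat.ModEq.mul_left' 3 h

section m1

set_option linter.unusedSectionVars false

variable {k : ℕ} {F : Type} [Field F] [NumberField F]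
  [IsCyclotomicExtension {16 * 3 ^ (k + 1)} ℚ F] {ζ : F}
  (hζ : IsPrimitiveRoot ζ (16 * 3 ^ (k + 1)))

include hζ

/-- the embedding of the Eisenstein integers -/
noncomputable def io : E →+* 𝓞 F := iota ((hζ.toInteger ^ 16) ^ 3 ^ k) (omega_rel k (hxi hζ))

lemma inversion (A : ZMod 16 → ZMod (3 ^ (k + 1)) → ℤ) (s0 : ZMod 16) (r : ℕ) :
    (16 * 3 ^ (k + 1) : 𝓞 F) * io hζ (comp (k + 1) (A s0) r - comp (k + 1) (A (s0 + 8)) r)
      = ∑ t : ZMod 16, ∑ t' : ZMod (3 ^ (k + 1)), e1 hζ (-((1 + 2 * t) * s0))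
        * e2 hζ (-((1 + 3 * t') * r)) * XX hζ A (1 + 2 * t) (1 + 3 * t') := by
  symm
  calc ∑ t : ZMod 16, ∑ t' : ZMod (3 ^ (k + 1)), e1 hζ (-((1 + 2 * t) * s0))
        * e2 hζ (-((1 + 3 * t') * r)) * XX hζ A (1 + 2 * t) (1 + 3 * t')
      = ∑ t : ZMod 16, ∑ t' : ZMod (3 ^ (k + 1)), ∑ p : ZMod 16 × ZMod (3 ^ (k + 1)),
          (A p.1 p.2 : 𝓞 F) * (e1 hζ ((1 + 2 * t) * (p.1 - s0))
            * e2 hζ ((1 + 3 * t') * (p.2 - r))) := by
        refine sum_congr rfl fun t _ => sum_congr rfl fun t' _ => ?_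
        unfold XX
        rw [mul_sum]
        refine sum_congr rfl fun p _ => ?_
        rw [chi_apply]
        have h1 : e1 hζ ((1 + 2 * t) * (p.1 - s0))
            = e1 hζ (-((1 + 2 * t) * s0)) * e1 hζ ((1 + 2 * t) * p.1) := by
          rw [← AddChar.map_add_eq_mul]; congr 1; ring
        have h2 : e2 hζ ((1 + 3 * t') * (p.2 - r))
            = e2 hζ (-((1 + 3 * t') * r)) * e2 hζ ((1 + 3 * t') * p.2) := by
          rw [← AddChar.map_add_eq_mul]; congr 1; ring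
        rw [h1, h2]; ring
    _ = ∑ p : ZMod 16 × ZMod (3 ^ (k + 1)), (A p.1 p.2 : 𝓞 F)
          * ((∑ t : ZMod 16, e1 hζ ((1 + 2 * t) * (p.1 - s0)))
            * (∑ t' : ZMod (3 ^ (k + 1)), e2 hζ ((1 + 3 * t') * (p.2 - r)))) := by
        rw [sum_congr rfl fun t _ => sum_comm, sum_comm]
        refine sum_congr rfl fun p _ => ?_
        rw [sum_mul_sum, mul_sum]
        refine sum_congr rfl fun t _ => ?_
        rw [mul_sum]
    _ = ∑ s : ZMod 16, (if s - s0 = 0 then (16 : 𝓞 F) else if s - s0 = 8 then -16 else 0)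
          * ((3 ^ (k + 1) : 𝓞 F) * io hζ (comp (k + 1) (A s) r)) := by
        rw [Fintype.sum_prod_type]
        refine sum_congr rfl fun s _ => ?_
        have h3 : io hζ (comp (k + 1) (A s) r) = ∑ c, (A s c : 𝓞 F) *
            (if 3 * (c - (r : ZMod (3 ^ (k + 1)))) = 0 then
              e2 hζ (c - (r : ZMod (3 ^ (k + 1)))) else 0) := by
          unfold io e2
          rw [sum_comp k (hxi hζ)]
        rw [h3, mul_sum, mul_sum]
        refine sum_congr rfl fun c _ => ?_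
        have h4 := sum_char_two (heta hζ) (s - s0)
        have h5 := sum_char_three (k + 1) (hxi hζ) (c - (r : ZMod (3 ^ (k + 1))))
        unfold e1
        rw [h4]
        unfold e2
        rw [h5]
        simp only
        split_ifs <;> ring
    _ = (16 * 3 ^ (k + 1) : 𝓞 F) *
          io hζ (comp (k + 1) (A s0) r - comp (k + 1) (A (s0 + 8)) r) := by
        rw [map_sub]
        have h6 : ∀ s : ZMod 16,
            (if s - s0 = 0 then (16 : 𝓞 F) else if s - s0 = 8 then -16 else 0)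
            * ((3 ^ (k + 1) : 𝓞 F) * io hζ (comp (k + 1) (A s) r))
            = (if s = s0 then 16 * ((3 ^ (k + 1) : 𝓞 F) * io hζ (comp (k + 1) (A s) r)) else 0)
              - (if s = s0 + 8 then
                  16 * ((3 ^ (k + 1) : 𝓞 F) * io hζ (comp (k + 1) (A s) r)) else 0) := by
          intro s
          have h7 : ∀ s s0 : ZMod 16, (s - s0 = 0) ↔ (s = s0) := by decide
          have h8 : ∀ s s0 : ZMod 16, (s - s0 = 8) ↔ (s = s0 + 8) := by decide
          have h9 : ∀ s0 : ZMod 16, s0 ≠ s0 + 8 := by decide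
          simp only [h7, h8]
          split_ifs with ha hb
          · exfalso; exact h9 s0 (ha.symm.trans hb)
          · ring
          · ring
          · ring
        simp only [h6, sum_sub_distrib, sum_ite_eq', mem_univ, if_true]
        ring

/-- The sum over the odd residues. -/
noncomputable def WW (A : ZMod 16 → ZMod (3 ^ (k + 1)) → ℤ) (s : ZMod 16) : 𝓞 F :=
  ∑ t : ZMod 16, e1 hζ (-((1 + 2 * t) * s)) * XX hζ A (1 + 2 * t) 1

lemma inversion2 (A : ZMod 16 → ZMod (3 ^ (k + 1)) → ℤ) (κ : ZMod (3 ^ (k + 1)))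
    (hκ : ∀ (a : ZMod 16) (t : ZMod (3 ^ (k + 1))),
      XX hζ A (1 + 2 * a) (1 + 3 * t) = e2 hζ (3 * t * κ) * XX hζ A (1 + 2 * a) 1)
    (s0 : ZMod 16) (r : ℕ) :
    (16 : 𝓞 F) * io hζ (comp (k + 1) (A s0) r - comp (k + 1) (A (s0 + 8)) r)
      = if 3 * (κ - (r : ZMod (3 ^ (k + 1)))) = 0 then
          e2 hζ (-(r : ZMod (3 ^ (k + 1)))) * WW hζ A s0 else 0 := by
  have h := inversion hζ A s0 r
  have h1 : ∑ t : ZMod 16, ∑ t' : ZMod (3 ^ (k + 1)), e1 hζ (-((1 + 2 * t) * s0))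
        * e2 hζ (-((1 + 3 * t') * r)) * XX hζ A (1 + 2 * t) (1 + 3 * t')
      = ∑ t : ZMod 16, (e1 hζ (-((1 + 2 * t) * s0)) * XX hζ A (1 + 2 * t) 1)
        * (e2 hζ (-(r : ZMod (3 ^ (k + 1)))) *
          ∑ t' : ZMod (3 ^ (k + 1)), e2 hζ (t' * (3 * (κ - (r : ZMod (3 ^ (k + 1))))))) := by
    refine sum_congr rfl fun t _ => ?_
    rw [mul_sum, mul_sum]
    refine sum_congr rfl fun t' _ => ?_
    rw [hκ]
    have h2 : e2 hζ (-((1 + 3 * t') * (r : ZMod (3 ^ (k + 1))))) * e2 hζ (3 * t' * κ)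
        = e2 hζ (-(r : ZMod (3 ^ (k + 1))))
          * e2 hζ (t' * (3 * (κ - (r : ZMod (3 ^ (k + 1)))))) := by
      rw [← AddChar.map_add_eq_mul, ← AddChar.map_add_eq_mul]; congr 1; ring
    calc e1 hζ (-((1 + 2 * t) * s0)) * e2 hζ (-((1 + 3 * t') * (r : ZMod (3 ^ (k + 1)))))
          * (e2 hζ (3 * t' * κ) * XX hζ A (1 + 2 * t) 1)
        = e1 hζ (-((1 + 2 * t) * s0)) * XX hζ A (1 + 2 * t) 1
          * (e2 hζ (-((1 + 3 * t') * (r : ZMod (3 ^ (k + 1))))) * e2 hζ (3 * t' * κ)) := by ring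
      _ = _ := by rw [h2]
  have h3 : ∑ t' : ZMod (3 ^ (k + 1)), e2 hζ (t' * (3 * (κ - (r : ZMod (3 ^ (k + 1))))))
      = if 3 * (κ - (r : ZMod (3 ^ (k + 1)))) = 0 then (3 ^ (k + 1) : 𝓞 F) else 0 := by
    unfold e2
    rw [sum_char (hxi hζ)]
    push_cast
    rfl
  rw [h1, ← sum_mul, h3] at h
  have h30 : (3 ^ (k + 1) : 𝓞 F) ≠ 0 := pow_ne_zero _ (by norm_num)
  apply mul_left_cancel₀ h30
  rw [← mul_assoc, mul_comm ((3 : 𝓞 F) ^ (k + 1)) 16, h]
  unfold WW
  split_ifs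
  · ring
  · ring

/-- Correlation of `WW`. -/
lemma WW_corr (A : ZMod 16 → ZMod (3 ^ (k + 1)) → ℤ) (M : ℤ)
    (hA : ∀ d v, ∑ s, ∑ c, A s c * A (s + d) (c + v) = if d = 0 ∧ v = 0 then M else 0)
    (j : ZMod 16) :
    ∑ s, WW hζ A s * sg hζ (16 * 3 ^ (k + 1) - 1) (WW hζ A (s + j))
      = if j = 0 then (512 * M : 𝓞 F) else if j = 8 then -(512 * M) else 0 := by
  have hconj : ∀ s, sg hζ (16 * 3 ^ (k + 1) - 1) (WW hζ A s)
      = ∑ t : ZMod 16, e1 hζ ((1 + 2 * t) * s) * XX hζ A (-(1 + 2 * t)) (-1) := by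
    intro s
    unfold WW
    rw [map_sum]
    refine sum_congr rfl fun t _ => ?_
    rw [map_mul, sg_conj_XX, sg_e1 hζ (coprime_pred hζ (one_lt_n hζ)), cast_pred_16]
    congr 2; ring
  have h1 : ∀ s, WW hζ A s * sg hζ (16 * 3 ^ (k + 1) - 1) (WW hζ A (s + j))
      = ∑ t : ZMod 16, ∑ t' : ZMod 16, e1 hζ (s * (2 * (t' - t)))
        * (e1 hζ ((1 + 2 * t') * j) * (XX hζ A (1 + 2 * t) 1 * XX hζ A (-(1 + 2 * t')) (-1))) := by
    intro s
    rw [hconj]
    unfold WW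
    rw [sum_mul_sum]
    refine sum_congr rfl fun t _ => sum_congr rfl fun t' _ => ?_
    have h2 : e1 hζ (s * (2 * (t' - t))) * e1 hζ ((1 + 2 * t') * j)
        = e1 hζ (-((1 + 2 * t) * s)) * e1 hζ ((1 + 2 * t') * (s + j)) := by
      rw [← AddChar.map_add_eq_mul, ← AddChar.map_add_eq_mul]; congr 1; ring
    calc e1 hζ (-((1 + 2 * t) * s)) * XX hζ A (1 + 2 * t) 1
          * (e1 hζ ((1 + 2 * t') * (s + j)) * XX hζ A (-(1 + 2 * t')) (-1))
        = (e1 hζ (-((1 + 2 * t) * s)) * e1 hζ ((1 + 2 * t') * (s + j)))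
          * (XX hζ A (1 + 2 * t) 1 * XX hζ A (-(1 + 2 * t')) (-1)) := by ring
      _ = _ := by rw [← h2]; ring
  have h3 : ∀ t t' : ZMod 16, ∑ s : ZMod 16, e1 hζ (s * (2 * (t' - t)))
        * (e1 hζ ((1 + 2 * t') * j) * (XX hζ A (1 + 2 * t) 1 * XX hζ A (-(1 + 2 * t')) (-1)))
      = if 2 * (t' - t) = 0 then 16 * (e1 hζ ((1 + 2 * t) * j) * (M : 𝓞 F)) else 0 := by
    intro t t'
    rw [← sum_mul]
    have h4 : ∑ s : ZMod 16, e1 hζ (s * (2 * (t' - t)))
        = if 2 * (t' - t) = 0 then (16 : 𝓞 F) else 0 := by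
      unfold e1
      rw [sum_char (heta hζ)]
      norm_num
    rw [h4]
    split_ifs with h5
    · have h6 : 1 + 2 * t' = 1 + 2 * t := by
        have : ∀ t t' : ZMod 16, 2 * (t' - t) = 0 → 1 + 2 * t' = 1 + 2 * t := by decide
        exact this t t' h5
      rw [h6, XX_mul_conj hζ A M hA]
    · ring
  have h7 : ∀ t : ZMod 16, ∑ t' : ZMod 16,
      (if 2 * (t' - t) = 0 then 16 * (e1 hζ ((1 + 2 * t) * j) * (M : 𝓞 F)) else 0)
      = 32 * (M : 𝓞 F) * e1 hζ ((1 + 2 * t) * j) := by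
    intro t
    rw [← sum_filter, sum_const]
    have h8 : ∀ t : ZMod 16, (univ.filter (fun t' : ZMod 16 => 2 * (t' - t) = 0)).card = 2 := by
      decide
    rw [h8 t, two_nsmul]
    ring
  calc ∑ s, WW hζ A s * sg hζ (16 * 3 ^ (k + 1) - 1) (WW hζ A (s + j))
      = ∑ t : ZMod 16, ∑ t' : ZMod 16, ∑ s : ZMod 16, e1 hζ (s * (2 * (t' - t)))
        * (e1 hζ ((1 + 2 * t') * j)
          * (XX hζ A (1 + 2 * t) 1 * XX hζ A (-(1 + 2 * t')) (-1))) := by
        simp only [h1]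
        rw [sum_comm]
        refine sum_congr rfl fun t _ => ?_
        rw [sum_comm]
    _ = ∑ t : ZMod 16, 32 * (M : 𝓞 F) * e1 hζ ((1 + 2 * t) * j) := by
        simp only [h3, h7]
    _ = _ := by
        rw [← mul_sum]
        have h9 := sum_char_two (heta hζ) j
        unfold e1
        rw [h9]
        split_ifs <;> ring

/-- Compatibility of `io` with complex conjugation. -/
lemma io_star (z : E) : io hζ (star z) = sg hζ (16 * 3 ^ (k + 1) - 1) (io hζ z) := by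
  have hω := omega_rel k (hxi hζ)
  set w := (hζ.toInteger ^ 16) ^ 3 ^ k with hw
  have h1 : io hζ z = (z.re : 𝓞 F) + (z.im : 𝓞 F) * w := rfl
  have h2 : io hζ (star z) = ((star z).re : 𝓞 F) + ((star z).im : 𝓞 F) * w := rfl
  rw [h1, h2, map_add, map_mul, map_intCast, map_intCast]
  have h3 : sg hζ (16 * 3 ^ (k + 1) - 1) w = -1 - w := by
    have h4 : sg hζ (16 * 3 ^ (k + 1) - 1) w * w = 1 := by
      have h5 : w = e2 hζ ((3 ^ k : ℕ) : ZMod (3 ^ (k + 1))) := by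
        unfold e2; rw [AddChar.zmodChar_apply']
      rw [h5, sg_e2 hζ (coprime_pred hζ (one_lt_n hζ)), cast_pred_3, ← AddChar.map_add_eq_mul]
      simp
    have h6 : w ^ 3 = 1 := by linear_combination (w - 1) * hω
    have h7 : sg hζ (16 * 3 ^ (k + 1) - 1) w = w ^ 2 := by
      calc sg hζ (16 * 3 ^ (k + 1) - 1) w = sg hζ (16 * 3 ^ (k + 1) - 1) w * w ^ 3 := by
            rw [h6, mul_one]
        _ = (sg hζ (16 * 3 ^ (k + 1) - 1) w * w) * w ^ 2 := by ring
        _ = w ^ 2 := by rw [h4, one_mul]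
    rw [h7]; linear_combination hω
  rw [h3]
  simp only [QuadraticAlgebra.re_star, QuadraticAlgebra.im_star]
  push_cast
  ring

theorem M1_aux (A : ZMod 16 → ZMod (3 ^ (k + 1)) → ℤ) (i j : ℕ)
    (hA : ∀ d v, ∑ s, ∑ c, A s c * A (s + d) (c + v)
      = if d = 0 ∧ v = 0 then 2 ^ i * 3 ^ j else 0) :
    ∃ r0 : Fin (3 ^ k),
      (∀ r : Fin (3 ^ k), r ≠ r0 → ∀ s,
        comp (k + 1) (A s) r - comp (k + 1) (A (s + 8)) r = 0) ∧
      (∃ ε : ZMod 2, ∀ s : ZMod 16, (s.val : ZMod 2) ≠ ε →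
        comp (k + 1) (A s) r0 - comp (k + 1) (A (s + 8)) r0 = 0) ∧
      (∀ t : ZMod 16, ∑ s, (comp (k + 1) (A s) r0 - comp (k + 1) (A (s + 8)) r0)
          * star (comp (k + 1) (A (s + t)) r0 - comp (k + 1) (A (s + t + 8)) r0)
        = if t = 0 then ((2 * (2 ^ i * 3 ^ j) : ℤ) : E)
          else if t = 8 then ((-(2 * (2 ^ i * 3 ^ j)) : ℤ) : E) else 0) := by
  obtain ⟨κ, hκ⟩ := exists_kappa' hζ A hA
  obtain ⟨δ, hδ, hδa⟩ := exists_delta hζ A hA
  have hinj : Function.Injective (io hζ) := iota_inj _ _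
  have hinv := inversion2 hζ A κ hκ
  have h16 : (16 : 𝓞 F) ≠ 0 := by norm_num
  have hpos : 0 < 3 ^ k := by positivity
  -- the active index
  set r0 : Fin (3 ^ k) := ⟨κ.val % 3 ^ k, Nat.mod_lt _ hpos⟩ with hr0
  have hact : ∀ r : Fin (3 ^ k), 3 * (κ - ((r : ℕ) : ZMod (3 ^ (k + 1)))) = 0 ↔ r = r0 := by
    intro r
    have hr : (r : ℕ) < 3 ^ k := r.2
    have h1 : 3 * (κ - ((r : ℕ) : ZMod (3 ^ (k + 1)))) = 0 ↔
        ((3 * κ.val : ℕ) : ZMod (3 ^ (k + 1))) = ((3 * (r : ℕ) : ℕ) : ZMod (3 ^ (k + 1))) := by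
      push_cast
      rw [ZMod.natCast_zmod_val, mul_sub, sub_eq_zero]
    rw [h1, ZMod.natCast_eq_natCast_iff]
    rw [three_modEq k κ.val (r : ℕ)]
    constructor
    · intro h
      apply Fin.ext
      rw [hr0]
      have h3 : κ.val % 3 ^ k = (r : ℕ) % 3 ^ k := h
      simp only
      rw [h3, Nat.mod_eq_of_lt hr]
    · intro h
      rw [h, hr0]
      exact (Nat.mod_modEq _ _).symm
  have hr0act : 3 * (κ - ((r0 : ℕ) : ZMod (3 ^ (k + 1)))) = 0 := (hact r0).2 rfl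
  have hC : ∀ s, (16 : 𝓞 F) * io hζ (comp (k + 1) (A s) r0 - comp (k + 1) (A (s + 8)) r0)
      = e2 hζ (-((r0 : ℕ) : ZMod (3 ^ (k + 1)))) * WW hζ A s := by
    intro s
    rw [hinv s r0, if_pos hr0act]
  refine ⟨r0, ?_, ?_, ?_⟩
  · intro r hr s
    have h1 := hinv s r
    rw [if_neg (fun h => hr ((hact r).1 h))] at h1
    rcases mul_eq_zero.1 h1 with h | h
    · exact absurd h h16
    · exact (map_eq_zero_iff _ hinj).1 h
  · -- parity
    have hsym : ∀ s, WW hζ A s = e1 hζ (-(8 * s)) * (δ : 𝓞 F) * WW hζ A s := by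
      intro s
      conv_lhs => unfold WW
      rw [← Equiv.sum_comp (Equiv.addRight (4 : ZMod 16))]
      unfold WW
      rw [mul_sum]
      refine sum_congr rfl fun t _ => ?_
      simp only [Equiv.coe_addRight]
      rw [hδa t]
      have h1 : e1 hζ (-((1 + 2 * (t + 4)) * s)) = e1 hζ (-(8 * s)) * e1 hζ (-((1 + 2 * t) * s)) := by
        rw [← AddChar.map_add_eq_mul]; congr 1; ring
      rw [h1]; ring
    have h8 : ∀ s : ZMod 16, (-(8 * s) = 0 ∧ (s.val : ZMod 2) = 0) ∨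
        (-(8 * s) = 8 ∧ (s.val : ZMod 2) = 1) := by decide
    have he8 : e1 hζ 8 = -1 := by
      have h1 : e1 hζ 8 * e1 hζ 8 = 1 := by
        rw [← AddChar.map_add_eq_mul]
        have : (8 : ZMod 16) + 8 = 0 := by decide
        rw [this, AddChar.map_zero_eq_one]
      have h2 : (e1 hζ 8 - 1) * (e1 hζ 8 + 1) = 0 := by linear_combination h1
      rcases mul_eq_zero.1 h2 with h | h
      · exfalso
        have h3 : e1 hζ 8 = 1 := sub_eq_zero.1 h
        unfold e1 at h3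
        rw [AddChar.zmodChar_apply] at h3
        have h4 : (8 : ZMod 16).val = 8 := rfl
        rw [h4] at h3
        exact (heta hζ).pow_ne_one_of_pos_of_lt (by norm_num) (by norm_num) h3
      · exact eq_neg_of_add_eq_zero_left h
    have hz : ∀ s, WW hζ A s = 0 → comp (k + 1) (A s) r0 - comp (k + 1) (A (s + 8)) r0 = 0 := by
      intro s hs
      have h1 := hC s
      rw [hs, mul_zero] at h1
      rcases mul_eq_zero.1 h1 with h | h
      · exact absurd h h16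
      · exact (map_eq_zero_iff _ hinj).1 h
    have h2ne : (2 : 𝓞 F) ≠ 0 := by norm_num
    rcases hδ with hδ | hδ
    · refine ⟨0, fun s hs => hz s ?_⟩
      rcases h8 s with h | h
      · exact absurd h.2 hs
      · have h1 := hsym s
        rw [h.1, he8, hδ] at h1
        have h3 : (2 : 𝓞 F) * WW hζ A s = 0 := by
          push_cast at h1; linear_combination h1
        exact (mul_eq_zero.1 h3).resolve_left h2ne
    · refine ⟨1, fun s hs => hz s ?_⟩
      rcases h8 s with h | h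
      · have h1 := hsym s
        rw [h.1, AddChar.map_zero_eq_one, hδ] at h1
        have h3 : (2 : 𝓞 F) * WW hζ A s = 0 := by
          push_cast at h1; linear_combination h1
        exact (mul_eq_zero.1 h3).resolve_left h2ne
      · exact absurd h.2 hs
  · intro t
    apply hinj
    have h256 : (256 : 𝓞 F) ≠ 0 := by norm_num
    apply mul_left_cancel₀ h256
    rw [map_sum, mul_sum]
    have h1 : ∀ s : ZMod 16, (256 : 𝓞 F) * io hζ ((comp (k + 1) (A s) r0
          - comp (k + 1) (A (s + 8)) r0)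
          * star (comp (k + 1) (A (s + t)) r0 - comp (k + 1) (A (s + t + 8)) r0))
        = WW hζ A s * sg hζ (16 * 3 ^ (k + 1) - 1) (WW hζ A (s + t)) := by
      intro s
      rw [map_mul, io_star]
      have h2 := hC s
      have h3 := congrArg (sg hζ (16 * 3 ^ (k + 1) - 1)) (hC (s + t))
      rw [map_mul, map_mul, map_ofNat, sg_e2 hζ (coprime_pred hζ (one_lt_n hζ)),
        cast_pred_3] at h3
      have h4 : e2 hζ (-((r0 : ℕ) : ZMod (3 ^ (k + 1))))
          * e2 hζ (-1 * -((r0 : ℕ) : ZMod (3 ^ (k + 1)))) = 1 := by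
        rw [← AddChar.map_add_eq_mul]; simp
      calc (256 : 𝓞 F) * (io hζ (comp (k + 1) (A s) r0 - comp (k + 1) (A (s + 8)) r0)
            * sg hζ (16 * 3 ^ (k + 1) - 1)
              (io hζ (comp (k + 1) (A (s + t)) r0 - comp (k + 1) (A (s + t + 8)) r0)))
          = (16 * io hζ (comp (k + 1) (A s) r0 - comp (k + 1) (A (s + 8)) r0))
            * (16 * sg hζ (16 * 3 ^ (k + 1) - 1)
              (io hζ (comp (k + 1) (A (s + t)) r0 - comp (k + 1) (A (s + t + 8)) r0))) := by ring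
        _ = (e2 hζ (-((r0 : ℕ) : ZMod (3 ^ (k + 1)))) * WW hζ A s)
            * (e2 hζ (-1 * -((r0 : ℕ) : ZMod (3 ^ (k + 1))))
              * sg hζ (16 * 3 ^ (k + 1) - 1) (WW hζ A (s + t))) := by rw [h2, h3]
        _ = (e2 hζ (-((r0 : ℕ) : ZMod (3 ^ (k + 1))))
              * e2 hζ (-1 * -((r0 : ℕ) : ZMod (3 ^ (k + 1)))))
            * (WW hζ A s * sg hζ (16 * 3 ^ (k + 1) - 1) (WW hζ A (s + t))) := by ring
        _ = _ := by rw [h4, one_mul]
    rw [sum_congr rfl fun s _ => h1 s, WW_corr hζ A (2 ^ i * 3 ^ j) hA t]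
    split_ifs
    · rw [map_intCast]; push_cast; ring
    · rw [map_intCast]; push_cast; ring
    · rw [map_zero]; ring

end m1

theorem M1 (K : ℕ) (hK : 1 ≤ K) (A : ZMod 16 → ZMod (3 ^ K) → ℤ) (i j : ℕ)
    (hA : ∀ d v, ∑ s, ∑ c, A s c * A (s + d) (c + v)
      = if d = 0 ∧ v = 0 then 2 ^ i * 3 ^ j else 0) :
    ∃ r0 : Fin (3 ^ (K - 1)),
      (∀ r : Fin (3 ^ (K - 1)), r ≠ r0 → ∀ s, comp K (A s) r - comp K (A (s + 8)) r = 0) ∧
      (∃ ε : ZMod 2, ∀ s : ZMod 16, (s.val : ZMod 2) ≠ ε →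
        comp K (A s) r0 - comp K (A (s + 8)) r0 = 0) ∧
      (∀ t : ZMod 16, ∑ s, (comp K (A s) r0 - comp K (A (s + 8)) r0)
          * star (comp K (A (s + t)) r0 - comp K (A (s + t + 8)) r0)
        = if t = 0 then ((2 * (2 ^ i * 3 ^ j) : ℤ) : E)
          else if t = 8 then ((-(2 * (2 ^ i * 3 ^ j)) : ℤ) : E) else 0) := by
  obtain ⟨k, rfl⟩ : ∃ k, K = k + 1 := ⟨K - 1, by omega⟩
  have hc : IsCyclotomicExtension {16 * 3 ^ (k + 1)} ℚ (CyclotomicField (16 * 3 ^ (k + 1)) ℚ) :=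
    CyclotomicField.isCyclotomicExtension _ ℚ
  have hn : NumberField (CyclotomicField (16 * 3 ^ (k + 1)) ℚ) :=
    IsCyclotomicExtension.numberField {16 * 3 ^ (k + 1)} ℚ _
  exact M1_aux (IsCyclotomicExtension.zeta_spec (16 * 3 ^ (k + 1)) ℚ
    (CyclotomicField (16 * 3 ^ (k + 1)) ℚ)) A i j hA

end MP82
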