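import Mathlib

/-! M1Arith: powers of 4 modulo powers of 3. -/

namespace MP82
open Finset

/-- `4^(3^k) = 1 + 3^(k+1) (1 + 3 w)`. -/
lemma four_pow (k : ℕ) : ∃ w : ℤ, (4 : ℤ) ^ (3 ^ k) = 1 + 3 ^ (k + 1) * (1 + 3 * w) := by
  induction k with
  | zero => exact ⟨0, by norm_num⟩
  | succ k ih =>
    obtain ⟨w, hw⟩ := ih
    refine ⟨w + 3 ^ k * (1 + 3 * w) ^ 2 + 3 ^ (2 * k) * (1 + 3 * w) ^ 3, ?_⟩
    rw [pow_succ 3 k, pow_mul, hw]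
    ring

lemma four_step (K : ℕ) (hK : 1 ≤ K) (e : ℕ) (t y : ℤ) (h : (4 : ℤ) ^ e = 1 + 3 * t + 3 ^ K * y) :
    ∃ e' : ℕ, ∃ y' : ℤ, (4 : ℤ) ^ e' = 1 + 3 * t + 3 ^ K * (y + 1 + 3 * y') := by
  obtain ⟨k, rfl⟩ : ∃ k, K = k + 1 := ⟨K - 1, by omega⟩
  obtain ⟨w, hw⟩ := four_pow k
  refine ⟨e + 3 ^ k, w + (t + 3 ^ k * y) * (1 + 3 * w), ?_⟩
  rw [pow_add, hw, h]
  ring

lemma four_gen (K : ℕ) (hK : 1 ≤ K) : ∀ t : ℤ, ∃ e : ℕ, ∃ y : ℤ,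
    (4 : ℤ) ^ e = 1 + 3 * t + 3 ^ K * y := by
  induction K, hK using Nat.le_induction with
  | base => intro t; exact ⟨0, -t, by ring⟩
  | succ K hK ih =>
    intro t
    obtain ⟨e, y, h⟩ := ih t
    have h3 : y % 3 = 0 ∨ y % 3 = 1 ∨ y % 3 = 2 := by omega
    rcases h3 with h3 | h3 | h3
    · obtain ⟨z, rfl⟩ : ∃ z, y = 3 * z := ⟨y / 3, by omega⟩
      exact ⟨e, z, by rw [h]; ring⟩
    · obtain ⟨z, rfl⟩ : ∃ z, y = 3 * z + 1 := ⟨y / 3, by omega⟩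
      obtain ⟨e', y', h'⟩ := four_step K hK e t _ h
      obtain ⟨e'', y'', h''⟩ := four_step K hK e' t _ h'
      exact ⟨e'', z + 1 + y' + y'', by rw [h'']; ring⟩
    · obtain ⟨z, rfl⟩ : ∃ z, y = 3 * z + 2 := ⟨y / 3, by omega⟩
      obtain ⟨e', y', h'⟩ := four_step K hK e t _ h
      exact ⟨e', z + 1 + y', by rw [h']; ring⟩

lemma four_gen_zmod (K : ℕ) (hK : 1 ≤ K) (t : ZMod (3 ^ K)) :
    ∃ e : ℕ, (1 + 3 * t : ZMod (3 ^ K)) = 4 ^ e := by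
  obtain ⟨e, y, h⟩ := four_gen K hK (t.cast : ℤ)
  refine ⟨e, ?_⟩
  have h1 := congrArg (fun z : ℤ => (z : ZMod (3 ^ K))) h
  push_cast at h1
  rw [h1]
  have h2 : (3 : ZMod (3 ^ K)) ^ K = 0 := by
    have := ZMod.natCast_self (3 ^ K)
    push_cast at this
    exact this
  rw [h2]
  simp

/-- The geometric sum `Σ_{i<3^(K-1)} u^i` for `u ≡ 4 mod 3^K` is not divisible by `3^K`. -/
lemma geom_not_dvd (K : ℕ) (hK : 1 ≤ K) (u : ℕ) (hu : u ≡ 4 [MOD 3 ^ K]) :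
    ¬ (3 ^ K ∣ ∑ i ∈ range (3 ^ (K - 1)), u ^ i) := by
  intro h
  obtain ⟨k, rfl⟩ : ∃ k, K = k + 1 := ⟨K - 1, by omega⟩
  simp only [Nat.add_sub_cancel] at h
  have h1 : (∑ i ∈ range (3 ^ k), u ^ i) ≡ (∑ i ∈ range (3 ^ k), 4 ^ i) [MOD 3 ^ (k + 1)] := by
    apply Nat.ModEq.sum
    intro i _
    exact hu.pow i
  have h2 : 3 ^ (k + 1) ∣ ∑ i ∈ range (3 ^ k), 4 ^ i := by
    rwa [Nat.ModEq.dvd_iff h1 dvd_rfl] at h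
  obtain ⟨q, hq⟩ := h2
  have h3 : (∑ i ∈ range (3 ^ k), (4 : ℤ) ^ i) * (4 - 1) = 4 ^ (3 ^ k) - 1 :=
    geom_sum_mul 4 (3 ^ k)
  have h4 : (∑ i ∈ range (3 ^ k), (4 : ℤ) ^ i) = 3 ^ (k + 1) * q := by exact_mod_cast hq
  obtain ⟨w, hw⟩ := four_pow k
  rw [h4, hw] at h3
  have h5 : (3 : ℤ) ^ (k + 1) * (3 * q) = 3 ^ (k + 1) * (1 + 3 * w) := by linarith
  have h6 := mul_left_cancel₀ (pow_ne_zero _ (by norm_num)) h5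
  omega

end MP82
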