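import Mathlib

/-! M1Field: the ring of integers of a cyclotomic field. -/

namespace MP82
open Finset NumberField

section field

set_option linter.unusedSectionVars false

variable {n : ℕ} [NeZero n] {F : Type} [Field F] [NumberField F] [IsCyclotomicExtension {n} ℚ F]
  {ζ : F} (hζ : IsPrimitiveRoot ζ n)

include hζ

lemma zn_hom_ext {S : Type*} [CommRing S] (f g : 𝓞 F →+* S) (h : f hζ.toInteger = g hζ.toInteger) :
    f = g := by
  have h1 : f.toIntAlgHom = g.toIntAlgHom := by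
    refine AlgHom.ext_of_adjoin_eq_top
      (IsCyclotomicExtension.Rat.adjoin_singleton_eq_top hζ) ?_
    intro x hx
    rw [Set.mem_singleton_iff] at hx
    rw [hx]
    exact h
  apply RingHom.ext
  intro x
  exact congrArg (fun φ : 𝓞 F →ₐ[ℤ] S => φ x) h1

lemma exists_sg (u : ℕ) (hu : u.Coprime n) :
    ∃ f : 𝓞 F →+* 𝓞 F, f hζ.toInteger = hζ.toInteger ^ u := by
  have hirr : Irreducible (Polynomial.cyclotomic n ℚ) :=
    Polynomial.cyclotomic.irreducible_rat (NeZero.pos n)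
  let U : (ZMod n)ˣ := ZMod.unitOfCoprime u hu
  let g : Gal(F/ℚ) := (IsCyclotomicExtension.autEquivPow F hirr).symm U
  have hz := IsCyclotomicExtension.zeta_spec n ℚ F
  have hg : g (IsCyclotomicExtension.zeta n ℚ F) = IsCyclotomicExtension.zeta n ℚ F ^ u := by
    have h1 : (IsCyclotomicExtension.autEquivPow F hirr) g = U := MulEquiv.apply_symm_apply _ _
    have h2 := hz.autToPow_spec ℚ g
    have h3 : hz.autToPow ℚ g = U := h1
    rw [h3] at h2
    rw [← h2, ZMod.coe_unitOfCoprime, ZMod.val_natCast]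
    exact (pow_eq_pow_mod u hz.pow_eq_one).symm
  have hg2 : g ζ = ζ ^ u := by
    obtain ⟨i, -, hi⟩ := hz.eq_pow_of_pow_eq_one hζ.pow_eq_one
    rw [← hi, map_pow, hg, ← pow_mul, ← pow_mul, mul_comm]
  refine ⟨RingOfIntegers.mapRingHom g, ?_⟩
  apply RingOfIntegers.ext
  rw [RingOfIntegers.mapRingHom_apply]
  exact hg2

/-- The automorphism `ζ ↦ ζ ^ u` (junk if `u` is not coprime to `n`). -/
noncomputable def sg (u : ℕ) : 𝓞 F →+* 𝓞 F :=
  open Classical in
  if h : ∃ f : 𝓞 F →+* 𝓞 F, f hζ.toInteger = hζ.toInteger ^ u then h.choose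
  else RingHom.id _

lemma sg_z {u : ℕ} (hu : u.Coprime n) : sg hζ u hζ.toInteger = hζ.toInteger ^ u := by
  have h := exists_sg hζ u hu
  unfold sg
  rw [dif_pos h]
  exact h.choose_spec

lemma toInteger_pow_mod (a : ℕ) : hζ.toInteger ^ a = hζ.toInteger ^ (a % n) :=
  pow_eq_pow_mod a hζ.toInteger_isPrimitiveRoot.pow_eq_one

lemma toInteger_pow_congr {a b : ℕ} (h : a ≡ b [MOD n]) :
    hζ.toInteger ^ a = hζ.toInteger ^ b := by
  rw [toInteger_pow_mod hζ a, toInteger_pow_mod hζ b, h]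

/-- Key lemma: at a prime above `q`, `n = n' q^a`, the map `ζ ↦ ζ ^ u` with `u ≡ q^e mod n'`
acts as the `e`-th power of the Frobenius, hence it stabilises the prime. -/
lemma stable_prime {q a n' e u : ℕ} (hq : q.Prime) (hn : n = n' * q ^ a) (hu : u.Coprime n)
    (hue : u ≡ q ^ e [MOD n']) (P : Ideal (𝓞 F)) (hP : P.IsPrime) (hqP : (q : 𝓞 F) ∈ P) :
    ∀ w ∈ P, sg hζ u w ∈ P := by
  have : Fact q.Prime := ⟨hq⟩
  have hnt : Nontrivial (𝓞 F ⧸ P) := Ideal.Quotient.nontrivial_iff.2 hP.ne_top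
  have hchar : CharP (𝓞 F ⧸ P) q := by
    rw [CharP.charP_iff_prime_eq_zero hq]
    rw [← map_natCast (Ideal.Quotient.mk P)]
    exact Ideal.Quotient.eq_zero_iff_mem.2 hqP
  have : ExpChar (𝓞 F ⧸ P) q := ExpChar.prime hq
  set y : 𝓞 F ⧸ P := Ideal.Quotient.mk P hζ.toInteger with hy
  have hyn : y ^ n' = 1 := by
    have h1 : (y ^ n') ^ q ^ a = 1 := by
      rw [← pow_mul, ← hn, hy, ← map_pow, hζ.toInteger_isPrimitiveRoot.pow_eq_one, map_one]
    have h2 : (y ^ n' - 1) ^ q ^ a = 0 := by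
      rw [sub_pow_char_pow, h1]; simp
    have hdom : IsDomain (𝓞 F ⧸ P) := (Ideal.Quotient.isDomain_iff_prime P).2 hP
    have hqa : q ^ a ≠ 0 := pow_ne_zero _ hq.ne_zero
    exact sub_eq_zero.1 ((pow_eq_zero_iff hqa).1 h2)
  have hz : y ^ u = y ^ q ^ e := by
    rw [pow_eq_pow_mod u hyn, hue, ← pow_eq_pow_mod _ hyn]
  have hcomp : (Ideal.Quotient.mk P).comp (sg hζ u)
      = (iterateFrobenius (𝓞 F ⧸ P) q e).comp (Ideal.Quotient.mk P) := by
    apply zn_hom_ext hζ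
    simp only [RingHom.comp_apply, sg_z hζ hu, map_pow, iterateFrobenius_def]
    rw [← hy]
    exact hz
  intro w hw
  have h1 := congrArg (fun f : 𝓞 F →+* (𝓞 F ⧸ P) => f w) hcomp
  simp only [RingHom.comp_apply] at h1
  rw [Ideal.Quotient.eq_zero_iff_mem.2 hw, map_zero] at h1
  exact Ideal.Quotient.eq_zero_iff_mem.1 h1

/-- Descent, divisibility part. -/
lemma dvd_sg {K e2 e3 u i j : ℕ} (hn : n = 16 * 3 ^ K) (hu : u.Coprime n)
    (h3 : u ≡ 3 ^ e3 [MOD 16]) (h2 : u ≡ 2 ^ e2 [MOD 3 ^ K]) (X Xb : 𝓞 F)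
    (hX : X * Xb = 2 ^ i * 3 ^ j) : X ∣ sg hζ u X := by
  have key : ∀ I : Ideal (𝓞 F), I ∣ Ideal.span {((2 : 𝓞 F) ^ i * 3 ^ j)} →
      ∀ w ∈ I, sg hζ u w ∈ I := by
    intro I
    induction I using UniqueFactorizationMonoid.induction_on_prime with
    | h₁ =>
      intro _ w hw
      simp only [Submodule.zero_eq_bot, Ideal.mem_bot] at hw ⊢
      rw [hw, map_zero]
    | h₂ I hI =>
      intro _ w _
      rw [Ideal.isUnit_iff] at hI
      rw [hI]; trivial
    | h₃ I P hI hP ih =>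
      intro hdvd w hw
      have hP' : P.IsPrime := (Ideal.prime_iff_isPrime hP.ne_zero).1 hP
      have hmem : ((2 : 𝓞 F) ^ i * 3 ^ j) ∈ P := by
        have := (dvd_mul_right P I).trans hdvd
        rw [Ideal.dvd_span_singleton] at this
        exact this
      have hst : ∀ w ∈ P, sg hζ u w ∈ P := by
        rcases hP'.mem_or_mem hmem with h | h
        · have h2P : ((2 : ℕ) : 𝓞 F) ∈ P := by
            exact_mod_cast hP'.mem_of_pow_mem _ h
          exact stable_prime hζ (a := 4) (n' := 3 ^ K) Nat.prime_two (by rw [hn]; ring) hu h2 P hP'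
            h2P
        · have h3P : ((3 : ℕ) : 𝓞 F) ∈ P := by
            exact_mod_cast hP'.mem_of_pow_mem _ h
          exact stable_prime hζ (a := K) (n' := 16) Nat.prime_three hn hu h3 P hP' h3P
      have hst2 := ih ((dvd_mul_left I P).trans hdvd)
      have h4 : Ideal.map (sg hζ u) (P * I) ≤ P * I := by
        rw [Ideal.map_mul]
        refine Ideal.mul_mono ?_ ?_
        · rw [Ideal.map_le_iff_le_comap]; exact hst
        · rw [Ideal.map_le_iff_le_comap]; exact hst2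
      exact h4 (Ideal.mem_map_of_mem _ hw)
  have h1 := key (Ideal.span {X}) (by
    rw [Ideal.dvd_span_singleton, ← hX]
    exact Ideal.mul_mem_right _ _ (Ideal.mem_span_singleton_self X)) X
    (Ideal.mem_span_singleton_self X)
  exact Ideal.mem_span_singleton.1 h1

lemma coprime_pred (hn : 1 < n) : (n - 1).Coprime n := by
  have h1 : (n - 1).Coprime (n - 1 + 1) := by simp
  rwa [Nat.sub_add_cancel hn.le] at h1

lemma sg_conj (hn : 1 < n) (φ : F →+* ℂ) (x : 𝓞 F) :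
    φ ((sg hζ (n - 1) x : 𝓞 F) : F) = starRingEnd ℂ (φ (x : F)) := by
  have h : (φ.comp (algebraMap (𝓞 F) F)).comp (sg hζ (n - 1))
      = (starRingEnd ℂ).comp (φ.comp (algebraMap (𝓞 F) F)) := by
    apply zn_hom_ext hζ
    simp only [RingHom.comp_apply]
    rw [sg_z hζ (coprime_pred hζ hn), map_pow, map_pow]
    have h1 : (algebraMap (𝓞 F) F) hζ.toInteger = ζ := rfl
    rw [h1]
    have h2 : φ ζ ^ n = 1 := by rw [← map_pow, hζ.pow_eq_one, map_one]
    have h3 : ‖φ ζ‖ = 1 := Complex.norm_eq_one_of_pow_eq_one h2 (NeZero.ne n)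
    rw [← Complex.inv_eq_conj h3]
    apply eq_inv_of_mul_eq_one_left
    rw [← pow_succ, Nat.sub_add_cancel hn.le, h2]
  exact congrArg (fun f : 𝓞 F →+* ℂ => f x) h

/-- Descent, unit part: an element of absolute value one is a power of `ζ`. -/
lemma eq_pow_of_conj (hn : 1 < n) (he : Even n) (ε : 𝓞 F) (hε : ε * sg hζ (n - 1) ε = 1) :
    ∃ k : ℕ, ε = hζ.toInteger ^ k := by
  have h1 : ∀ φ : F →+* ℂ, ‖φ (ε : F)‖ = 1 := by
    intro φ
    have h2 : φ (ε : F) * starRingEnd ℂ (φ (ε : F)) = 1 := by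
      rw [← sg_conj hζ hn φ ε, ← map_mul, ← map_mul, hε, map_one, map_one]
    rw [Complex.mul_conj, Complex.normSq_eq_norm_sq] at h2
    have h3 : ‖φ (ε : F)‖ ^ 2 = 1 := by exact_mod_cast h2
    nlinarith [norm_nonneg (φ (ε : F)), h3]
  obtain ⟨m, hm, hm1⟩ := NumberField.Embeddings.pow_eq_one_of_norm_eq_one F ℂ
    ε.isIntegral_coe h1
  let εu : (𝓞 F)ˣ := ⟨ε, sg hζ (n - 1) ε, hε, by rw [mul_comm]; exact hε⟩
  have hu : εu ∈ NumberField.Units.torsion F := by
    rw [NumberField.Units.torsion, CommGroup.mem_torsion, isOfFinOrder_iff_pow_eq_one]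
    refine ⟨m, hm, ?_⟩
    apply Units.ext
    apply RingOfIntegers.ext
    push_cast
    exact hm1
  rw [← NumberField.Units.rootsOfUnity_eq_torsion, mem_rootsOfUnity,
    IsCyclotomicExtension.Rat.torsionOrder_eq (n := n) (K := F), if_pos he] at hu
  have h5 : ε ^ n = 1 := by
    have := congrArg Units.val hu
    simpa [εu] using this
  obtain ⟨k, -, hk⟩ := hζ.toInteger_isPrimitiveRoot.eq_pow_of_pow_eq_one h5
  exact ⟨k, hk.symm⟩

lemma sg_comm {u v : ℕ} (hu : u.Coprime n) (hv : v.Coprime n) (x : 𝓞 F) :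
    sg hζ u (sg hζ v x) = sg hζ v (sg hζ u x) := by
  have h : (sg hζ u).comp (sg hζ v) = (sg hζ v).comp (sg hζ u) := by
    apply zn_hom_ext hζ
    simp only [RingHom.comp_apply, sg_z hζ hu, sg_z hζ hv, map_pow, ← pow_mul, mul_comm]
  exact congrArg (fun f : 𝓞 F →+* 𝓞 F => f x) h

/-- The descent: `σ X = ζ^k X`. -/
theorem descent {K e2 e3 u i j : ℕ} (hn : n = 16 * 3 ^ K) (hu : u.Coprime n)
    (h3 : u ≡ 3 ^ e3 [MOD 16]) (h2 : u ≡ 2 ^ e2 [MOD 3 ^ K]) (X : 𝓞 F)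
    (hX : X * sg hζ (n - 1) X = 2 ^ i * 3 ^ j) : ∃ k : ℕ, sg hζ u X = hζ.toInteger ^ k * X := by
  have hn1 : 1 < n := by
    rw [hn]; have := Nat.one_le_pow K 3 (by norm_num); omega
  have he : Even n := by rw [hn]; exact ⟨8 * 3 ^ K, by ring⟩
  obtain ⟨ε, hε⟩ := dvd_sg hζ hn hu h3 h2 X _ hX
  have hX0 : ((2 : 𝓞 F) ^ i * 3 ^ j) ≠ 0 :=
    mul_ne_zero (pow_ne_zero _ (by norm_num)) (pow_ne_zero _ (by norm_num))
  have h4 : (2 : 𝓞 F) ^ i * 3 ^ j = (ε * sg hζ (n - 1) ε) * (2 ^ i * 3 ^ j) := by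
    calc (2 : 𝓞 F) ^ i * 3 ^ j = sg hζ u (2 ^ i * 3 ^ j) := by
          rw [map_mul, map_pow, map_pow, map_ofNat, map_ofNat]
      _ = sg hζ u X * sg hζ (n - 1) (sg hζ u X) := by
        rw [← hX, map_mul, sg_comm hζ hu (coprime_pred hζ hn1)]
      _ = (ε * sg hζ (n - 1) ε) * (X * sg hζ (n - 1) X) := by rw [hε, map_mul]; ring
      _ = _ := by rw [hX]
  have h5 : ε * sg hζ (n - 1) ε = 1 := by
    have := mul_right_cancel₀ hX0 (h4.symm.trans (one_mul _).symm)
    exact this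
  obtain ⟨k, hk⟩ := eq_pow_of_conj hζ hn1 he ε h5
  exact ⟨k, by rw [hε, hk, mul_comm]⟩

end field
end MP82
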