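import Pool.Agent.Lib.MP_82ec8b_co.Basic
import Pool.Agent.Lib.MP_82ec8b_co.M1Field
import Pool.Agent.Lib.MP_82ec8b_co.M1Arith

/-! M1Char: character sums in the ring of integers. -/

namespace MP82
open Finset NumberField

section char

set_option linter.unusedSectionVars false

variable {R : Type} [CommRing R] [IsDomain R] [CharZero R]

/-- General orthogonality for `e (t * d)`. -/
lemma sum_char {m : ℕ} [NeZero m] {ζ : R} (hζ : IsPrimitiveRoot ζ m) (d : ZMod m) :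
    ∑ t : ZMod m, AddChar.zmodChar m hζ.pow_eq_one (t * d) = if d = 0 then (m : R) else 0 := by
  have h := AddChar.sum_mulShift (R := ZMod m) d
    (AddChar.zmodChar_primitive_of_primitive_root m hζ)
  rw [ZMod.card] at h
  push_cast at h
  exact h

variable {K : ℕ}

/-- `ι : E → R`. -/
def iota (w : R) (hw : w ^ 2 + w + 1 = 0) : E →+* R where
  toFun z := (z.re : R) + (z.im : R) * w
  map_one' := by
    rw [QuadraticAlgebra.re_one, QuadraticAlgebra.im_one]; simp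
  map_mul' x y := by
    simp only [QuadraticAlgebra.re_mul, QuadraticAlgebra.im_mul]
    push_cast
    have h2 : w ^ 2 = -1 - w := by linear_combination hw
    linear_combination (-(x.im : R) * y.im) * hw
  map_zero' := by simp
  map_add' x y := by
    simp only [QuadraticAlgebra.re_add, QuadraticAlgebra.im_add]
    push_cast
    ring

lemma iota_apply (w : R) (hw : w ^ 2 + w + 1 = 0) (z : E) :
    iota w hw z = (z.re : R) + (z.im : R) * w := rfl

lemma iota_inj (w : R) (hw : w ^ 2 + w + 1 = 0) : Function.Injective (iota w hw) := by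
  rw [injective_iff_map_eq_zero]
  intro z hz
  rw [← N_eq_zero_iff]
  rw [iota_apply] at hz
  have h1 : ((N z : ℤ) : R) = ((z.re : R) + (z.im : R) * w) * ((z.re : R) + (z.im : R) * (-1 - w)) := by
    unfold N
    push_cast
    linear_combination ((z.im : R) ^ 2) * hw
  rw [hz, zero_mul] at h1
  exact_mod_cast h1

lemma sum_char_two {ζ : R} (hζ : IsPrimitiveRoot ζ 16) (d : ZMod 16) :
    ∑ t : ZMod 16, AddChar.zmodChar 16 hζ.pow_eq_one ((1 + 2 * t) * d)
      = if d = 0 then (16 : R) else if d = 8 then -16 else 0 := by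
  have h8 : ζ ^ 8 = -1 := by
    have h1 : (ζ ^ 8) ^ 2 = 1 := by rw [← pow_mul]; exact hζ.pow_eq_one
    rcases (show ζ ^ 8 = 1 ∨ ζ ^ 8 = -1 from by
      have h2 : (ζ ^ 8 - 1) * (ζ ^ 8 + 1) = 0 := by linear_combination h1
      rcases mul_eq_zero.1 h2 with h | h
      · exact Or.inl (sub_eq_zero.1 h)
      · exact Or.inr (eq_neg_of_add_eq_zero_left h)) with h | h
    · exact absurd h (hζ.pow_ne_one_of_pos_of_lt (by norm_num) (by norm_num))
    · exact h
  have h : ∀ t : ZMod 16, AddChar.zmodChar 16 hζ.pow_eq_one ((1 + 2 * t) * d)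
      = AddChar.zmodChar 16 hζ.pow_eq_one d * AddChar.zmodChar 16 hζ.pow_eq_one (t * (2 * d)) := by
    intro t
    rw [← AddChar.map_add_eq_mul]
    congr 1; ring
  simp only [h, ← mul_sum]
  rw [sum_char hζ]
  have h2 : ∀ d : ZMod 16, 2 * d = 0 ↔ (d = 0 ∨ d = 8) := by decide
  by_cases hd0 : d = 0
  · subst hd0; simp
  · by_cases hd8 : d = 8
    · subst hd8
      rw [if_pos ((h2 8).2 (Or.inr rfl)), if_neg hd0, if_pos rfl]
      rw [AddChar.zmodChar_apply]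
      have : (8 : ZMod 16).val = 8 := rfl
      rw [this, h8]; norm_num
    · rw [if_neg, if_neg hd0, if_neg hd8, mul_zero]
      rw [h2]; tauto

lemma sum_char_three (K : ℕ) {ζ : R} (hζ : IsPrimitiveRoot ζ (3 ^ K)) (d : ZMod (3 ^ K)) :
    ∑ t : ZMod (3 ^ K), AddChar.zmodChar (3 ^ K) hζ.pow_eq_one ((1 + 3 * t) * d)
      = if 3 * d = 0 then (3 ^ K : R) * AddChar.zmodChar (3 ^ K) hζ.pow_eq_one d else 0 := by
  have h : ∀ t : ZMod (3 ^ K), AddChar.zmodChar (3 ^ K) hζ.pow_eq_one ((1 + 3 * t) * d)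
      = AddChar.zmodChar (3 ^ K) hζ.pow_eq_one d
        * AddChar.zmodChar (3 ^ K) hζ.pow_eq_one (t * (3 * d)) := by
    intro t
    rw [← AddChar.map_add_eq_mul]
    congr 1; ring
  simp only [h, ← mul_sum]
  rw [sum_char hζ]
  split_ifs
  · push_cast; ring
  · ring

lemma three_mul_eq_zero (k : ℕ) (d : ZMod (3 ^ (k + 1))) :
    3 * d = 0 ↔ (d = 0 ∨ d = ((3 ^ k : ℕ) : ZMod (3 ^ (k + 1))) ∨
      d = ((2 * 3 ^ k : ℕ) : ZMod (3 ^ (k + 1)))) := by
  have hz : ((3 ^ (k + 1) : ℕ) : ZMod (3 ^ (k + 1))) = 0 := ZMod.natCast_self _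
  constructor
  · intro h
    have h1 : ((3 * d.val : ℕ) : ZMod (3 ^ (k + 1))) = 0 := by
      push_cast; rw [ZMod.natCast_zmod_val]; exact h
    rw [ZMod.natCast_eq_zero_iff] at h1
    have h1' : 3 * 3 ^ k ∣ 3 * d.val := by
      have : 3 * 3 ^ k = 3 ^ (k + 1) := by ring
      rw [this]; exact h1
    have h2 : 3 ^ k ∣ d.val := Nat.dvd_of_mul_dvd_mul_left (by norm_num) h1'
    obtain ⟨q, hq⟩ := h2
    have h3 : d.val < 3 ^ (k + 1) := ZMod.val_lt d
    have h4 : q < 3 := by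
      rw [hq, pow_succ] at h3
      exact Nat.lt_of_mul_lt_mul_left h3
    have h5 : d = ((3 ^ k * q : ℕ) : ZMod (3 ^ (k + 1))) := by
      rw [← hq, ZMod.natCast_zmod_val]
    interval_cases q
    · left; rw [h5]; simp
    · right; left; rw [h5]; simp
    · right; right; rw [h5, mul_comm]
  · rintro (h | h | h)
    · rw [h, mul_zero]
    · rw [h]
      have : (3 : ZMod (3 ^ (k + 1))) * ((3 ^ k : ℕ) : ZMod (3 ^ (k + 1)))
          = ((3 ^ (k + 1) : ℕ) : ZMod (3 ^ (k + 1))) := by push_cast; ring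
      rw [this, hz]
    · rw [h]
      have : (3 : ZMod (3 ^ (k + 1))) * ((2 * 3 ^ k : ℕ) : ZMod (3 ^ (k + 1)))
          = 2 * ((3 ^ (k + 1) : ℕ) : ZMod (3 ^ (k + 1))) := by push_cast; ring
      rw [this, hz, mul_zero]

lemma omega_rel (k : ℕ) {ζ : R} (hζ : IsPrimitiveRoot ζ (3 ^ (k + 1))) :
    (ζ ^ 3 ^ k) ^ 2 + ζ ^ 3 ^ k + 1 = 0 := by
  have h1 : (ζ ^ 3 ^ k) ^ 3 = 1 := by rw [← pow_mul, ← pow_succ]; exact hζ.pow_eq_one
  have h2 : ζ ^ 3 ^ k ≠ 1 := hζ.pow_ne_one_of_pos_of_lt (by positivity)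
    (Nat.pow_lt_pow_right (by norm_num) (by omega))
  have h3 : (ζ ^ 3 ^ k - 1) * ((ζ ^ 3 ^ k) ^ 2 + ζ ^ 3 ^ k + 1) = 0 := by
    linear_combination h1
  rcases mul_eq_zero.1 h3 with h | h
  · exact absurd (sub_eq_zero.1 h) h2
  · exact h

lemma sum_comp (k : ℕ) {ζ : R} (hζ : IsPrimitiveRoot ζ (3 ^ (k + 1))) (f : ZMod (3 ^ (k + 1)) → ℤ)
    (r : ℕ) :
    ∑ c, (f c : R) * (if 3 * (c - (r : ZMod (3 ^ (k + 1)))) = 0 then
        AddChar.zmodChar (3 ^ (k + 1)) hζ.pow_eq_one (c - (r : ZMod (3 ^ (k + 1)))) else 0)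
      = iota (ζ ^ 3 ^ k) (omega_rel k hζ) (comp (k + 1) f r) := by
  set e2 := AddChar.zmodChar (3 ^ (k + 1)) hζ.pow_eq_one with he2
  set g : ZMod (3 ^ (k + 1)) → R := fun d =>
    (f (d + (r : ZMod (3 ^ (k + 1)))) : R) * (if 3 * d = 0 then e2 d else 0) with hg
  have h1 : ∑ c, (f c : R) * (if 3 * (c - (r : ZMod (3 ^ (k + 1)))) = 0 then
        e2 (c - (r : ZMod (3 ^ (k + 1)))) else 0) = ∑ d, g d := by
    rw [← Equiv.sum_comp (Equiv.addRight (r : ZMod (3 ^ (k + 1))))]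
    refine sum_congr rfl fun d _ => ?_
    simp only [Equiv.coe_addRight, add_sub_cancel_right, hg]
  rw [h1]
  have hlt : 3 ^ k < 3 ^ (k + 1) := Nat.pow_lt_pow_right (by norm_num) (by omega)
  have hpos : 0 < 3 ^ k := by positivity
  have hlt2 : 2 * 3 ^ k < 3 ^ (k + 1) := by rw [pow_succ]; omega
  have v1 : ((3 ^ k : ℕ) : ZMod (3 ^ (k + 1))).val = 3 ^ k := ZMod.val_cast_of_lt hlt
  have v2 : ((2 * 3 ^ k : ℕ) : ZMod (3 ^ (k + 1))).val = 2 * 3 ^ k := ZMod.val_cast_of_lt hlt2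
  have n01 : (0 : ZMod (3 ^ (k + 1))) ≠ ((3 ^ k : ℕ) : ZMod (3 ^ (k + 1))) := by
    intro h; have := congrArg ZMod.val h; rw [v1, ZMod.val_zero] at this; omega
  have n02 : (0 : ZMod (3 ^ (k + 1))) ≠ ((2 * 3 ^ k : ℕ) : ZMod (3 ^ (k + 1))) := by
    intro h; have := congrArg ZMod.val h; rw [v2, ZMod.val_zero] at this; omega
  have n12 : ((3 ^ k : ℕ) : ZMod (3 ^ (k + 1))) ≠ ((2 * 3 ^ k : ℕ) : ZMod (3 ^ (k + 1))) := by
    intro h; have := congrArg ZMod.val h; rw [v1, v2] at this; omega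
  have h2 : ∑ d, g d = ∑ d ∈ ({0, ((3 ^ k : ℕ) : ZMod (3 ^ (k + 1))),
      ((2 * 3 ^ k : ℕ) : ZMod (3 ^ (k + 1)))} : Finset (ZMod (3 ^ (k + 1)))), g d := by
    symm
    apply sum_subset (subset_univ _)
    intro d _ hd
    simp only [mem_insert, mem_singleton] at hd
    rw [← three_mul_eq_zero] at hd
    simp only [hg, if_neg hd, mul_zero]
  rw [h2, sum_insert, sum_insert, sum_singleton]
  · have e0 : g 0 = (f (r : ZMod (3 ^ (k + 1))) : R) := by simp [hg]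
    have e1 : g ((3 ^ k : ℕ) : ZMod (3 ^ (k + 1))) =
        (f ((r + 3 ^ k : ℕ) : ZMod (3 ^ (k + 1))) : R) * ζ ^ 3 ^ k := by
      have : (3 : ZMod (3 ^ (k + 1))) * ((3 ^ k : ℕ) : ZMod (3 ^ (k + 1))) = 0 :=
        (three_mul_eq_zero k _).2 (Or.inr (Or.inl rfl))
      simp only [hg]
      rw [if_pos this, he2, AddChar.zmodChar_apply, v1, add_comm]
      push_cast; rfl
    have e2' : g ((2 * 3 ^ k : ℕ) : ZMod (3 ^ (k + 1))) =
        (f ((r + 2 * 3 ^ k : ℕ) : ZMod (3 ^ (k + 1))) : R) * (ζ ^ 3 ^ k) ^ 2 := by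
      have : (3 : ZMod (3 ^ (k + 1))) * ((2 * 3 ^ k : ℕ) : ZMod (3 ^ (k + 1))) = 0 :=
        (three_mul_eq_zero k _).2 (Or.inr (Or.inr rfl))
      simp only [hg]
      rw [if_pos this, he2, AddChar.zmodChar_apply, v2, add_comm, ← pow_mul, mul_comm (3 ^ k) 2]
      push_cast; rfl
    rw [e0, e1, e2', iota_apply]
    simp only [comp, Nat.add_sub_cancel]
    push_cast
    linear_combination (f ((r : ZMod (3 ^ (k + 1))) + 2 * 3 ^ k) : R) * (omega_rel k hζ)
  · simp only [mem_singleton]; exact n12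
  · simp only [mem_insert, mem_singleton]; tauto

end char

end MP82
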