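import Pool.Agent.Lib.MP_82ec8b_co.M1Char

/-! M1Main: the descent applied to the character sums. -/

namespace MP82
open Finset NumberField

lemma corr_char {R : Type} [CommRing R] {G : Type} [AddCommGroup G] [Fintype G] [DecidableEq G]
    (χ : AddChar G R) (B : G → ℤ) (M : ℤ)
    (h : ∀ d, ∑ g, B g * B (g + d) = if d = 0 then M else 0) :
    (∑ g, (B g : R) * χ g) * (∑ g, (B g : R) * χ (-g)) = M := by
  have h1 : (∑ g, (B g : R) * χ g) * (∑ g, (B g : R) * χ (-g))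
      = ∑ g, ∑ d, ((B g * B (g + d) : ℤ) : R) * χ (-d) := by
    rw [sum_mul]
    refine sum_congr rfl fun g _ => ?_
    rw [← Equiv.sum_comp (Equiv.addLeft g), mul_sum]
    refine sum_congr rfl fun d _ => ?_
    simp only [Equiv.coe_addLeft]
    have : χ (-d) = χ g * χ (-(g + d)) := by
      rw [← AddChar.map_add_eq_mul]; congr 1; abel
    rw [this]; push_cast; ring
  rw [h1, sum_comm]
  have h2 : ∀ d, ∑ g, ((B g * B (g + d) : ℤ) : R) * χ (-d) = if d = 0 then (M : R) else 0 := by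
    intro d
    rw [← sum_mul, ← Int.cast_sum, h d]
    split_ifs with hd
    · subst hd; simp
    · simp
  simp only [h2, sum_ite_eq', mem_univ, if_true]

lemma exists_crt (K x y : ℕ) (hx : Odd x) (hy : y.Coprime 3) :
    ∃ u : ℕ, u ≡ x [MOD 16] ∧ u ≡ y [MOD 3 ^ K] ∧ u.Coprime (16 * 3 ^ K) := by
  have hc : Nat.Coprime 16 (3 ^ K) := Nat.Coprime.pow_right _ (by norm_num)
  obtain ⟨u, h1, h2⟩ := Nat.chineseRemainder hc x y
  refine ⟨u, h1, h2, ?_⟩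
  apply Nat.Coprime.mul_right
  · have h3 : Nat.Coprime x 16 := by
      have : (16 : ℕ) = 2 ^ 4 := by norm_num
      rw [this]
      exact Nat.Coprime.pow_right _ (Nat.coprime_two_right.2 hx)
    exact (Nat.ModEq.gcd_eq h1).trans h3
  · have h3 : Nat.Coprime y (3 ^ K) := Nat.Coprime.pow_right _ hy
    exact (Nat.ModEq.gcd_eq h2).trans h3

section main

set_option linter.unusedSectionVars false

variable {k : ℕ} {F : Type} [Field F] [NumberField F]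
  [IsCyclotomicExtension {16 * 3 ^ (k + 1)} ℚ F] {ζ : F}
  (hζ : IsPrimitiveRoot ζ (16 * 3 ^ (k + 1)))

include hζ

lemma heta : IsPrimitiveRoot (hζ.toInteger ^ 3 ^ (k + 1)) 16 :=
  hζ.toInteger_isPrimitiveRoot.pow (NeZero.pos _) (mul_comm _ _)

lemma hxi : IsPrimitiveRoot (hζ.toInteger ^ 16) (3 ^ (k + 1)) :=
  hζ.toInteger_isPrimitiveRoot.pow (NeZero.pos _) rfl

noncomputable def e1 : AddChar (ZMod 16) (𝓞 F) := AddChar.zmodChar 16 (heta hζ).pow_eq_one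

noncomputable def e2 : AddChar (ZMod (3 ^ (k + 1))) (𝓞 F) :=
  AddChar.zmodChar (3 ^ (k + 1)) (hxi hζ).pow_eq_one

lemma sg_e1 {u : ℕ} (hu : u.Coprime (16 * 3 ^ (k + 1))) (s : ZMod 16) :
    sg hζ u (e1 hζ s) = e1 hζ (u * s) := by
  have h1 : ((u : ZMod 16) * s) = ((u * s.val : ℕ) : ZMod 16) := by
    push_cast; rw [ZMod.natCast_zmod_val]
  rw [h1]
  unfold e1
  rw [AddChar.zmodChar_apply', AddChar.zmodChar_apply, map_pow, map_pow, sg_z hζ hu,
    ← pow_mul, ← pow_mul, ← pow_mul]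
  congr 1; ring

lemma sg_e2 {u : ℕ} (hu : u.Coprime (16 * 3 ^ (k + 1))) (s : ZMod (3 ^ (k + 1))) :
    sg hζ u (e2 hζ s) = e2 hζ (u * s) := by
  have h1 : ((u : ZMod (3 ^ (k + 1))) * s) = ((u * s.val : ℕ) : ZMod (3 ^ (k + 1))) := by
    push_cast; rw [ZMod.natCast_zmod_val]
  rw [h1]
  unfold e2
  rw [AddChar.zmodChar_apply', AddChar.zmodChar_apply, map_pow, map_pow, sg_z hζ hu,
    ← pow_mul, ← pow_mul, ← pow_mul]
  congr 1; ring

/-- The product character. -/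
noncomputable def chi (a : ZMod 16) (b : ZMod (3 ^ (k + 1))) :
    AddChar (ZMod 16 × ZMod (3 ^ (k + 1))) (𝓞 F) where
  toFun p := e1 hζ (a * p.1) * e2 hζ (b * p.2)
  map_zero_eq_one' := by simp
  map_add_eq_mul' p q := by
    simp only [Prod.fst_add, Prod.snd_add, mul_add, AddChar.map_add_eq_mul]
    ring

lemma chi_apply (a : ZMod 16) (b : ZMod (3 ^ (k + 1))) (p : ZMod 16 × ZMod (3 ^ (k + 1))) :
    chi hζ a b p = e1 hζ (a * p.1) * e2 hζ (b * p.2) := rfl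

/-- The character sums. -/
noncomputable def XX (A : ZMod 16 → ZMod (3 ^ (k + 1)) → ℤ) (a : ZMod 16)
    (b : ZMod (3 ^ (k + 1))) : 𝓞 F :=
  ∑ p : ZMod 16 × ZMod (3 ^ (k + 1)), (A p.1 p.2 : 𝓞 F) * chi hζ a b p

lemma sg_XX {u : ℕ} (hu : u.Coprime (16 * 3 ^ (k + 1))) (A : ZMod 16 → ZMod (3 ^ (k + 1)) → ℤ)
    (a : ZMod 16) (b : ZMod (3 ^ (k + 1))) :
    sg hζ u (XX hζ A a b) = XX hζ A (u * a) (u * b) := by
  unfold XX
  rw [map_sum]
  refine sum_congr rfl fun p _ => ?_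
  rw [map_mul, map_intCast, chi_apply, chi_apply, map_mul, sg_e1 hζ hu, sg_e2 hζ hu, mul_assoc,
    mul_assoc]

lemma XX_mul_conj (A : ZMod 16 → ZMod (3 ^ (k + 1)) → ℤ) (M : ℤ)
    (hA : ∀ d v, ∑ s, ∑ c, A s c * A (s + d) (c + v) = if d = 0 ∧ v = 0 then M else 0)
    (a : ZMod 16) (b : ZMod (3 ^ (k + 1))) :
    XX hζ A a b * XX hζ A (-a) (-b) = M := by
  have h := corr_char (chi hζ a b) (fun p => A p.1 p.2) M (by
    intro d
    rw [Fintype.sum_prod_type]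
    simp only [Prod.fst_add, Prod.snd_add]
    rw [hA d.1 d.2]
    simp only [Prod.ext_iff, Prod.fst_zero, Prod.snd_zero])
  rw [← h]
  congr 1
  unfold XX
  refine sum_congr rfl fun p _ => ?_
  congr 1
  simp only [chi_apply, Prod.fst_neg, Prod.snd_neg, neg_mul, mul_neg]

lemma one_lt_n : 1 < 16 * 3 ^ (k + 1) := by
  have := Nat.one_le_pow (k + 1) 3 (by norm_num); omega

omit hζ in
lemma cast_pred_16 : (((16 * 3 ^ (k + 1) - 1 : ℕ)) : ZMod 16) = -1 := by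
  have h1 : (((16 * 3 ^ (k + 1) - 1 : ℕ)) : ZMod 16) + 1 = ((16 * 3 ^ (k + 1) : ℕ) : ZMod 16) := by
    have : 16 * 3 ^ (k + 1) - 1 + 1 = 16 * 3 ^ (k + 1) := by
      have := Nat.one_le_pow (k + 1) 3 (by norm_num); omega
    rw [← this]; push_cast; simp
  have h2 : ((16 * 3 ^ (k + 1) : ℕ) : ZMod 16) = 0 := by
    rw [ZMod.natCast_eq_zero_iff]; exact dvd_mul_right _ _
  rw [h2] at h1
  exact eq_neg_of_add_eq_zero_left h1

omit hζ in
lemma cast_pred_3 : (((16 * 3 ^ (k + 1) - 1 : ℕ)) : ZMod (3 ^ (k + 1))) = -1 := by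
  have h1 : (((16 * 3 ^ (k + 1) - 1 : ℕ)) : ZMod (3 ^ (k + 1))) + 1
      = ((16 * 3 ^ (k + 1) : ℕ) : ZMod (3 ^ (k + 1))) := by
    have : 16 * 3 ^ (k + 1) - 1 + 1 = 16 * 3 ^ (k + 1) := by
      have := Nat.one_le_pow (k + 1) 3 (by norm_num); omega
    rw [← Nat.cast_one (R := ZMod (3 ^ (k + 1))), ← Nat.cast_add, this]
  have h2 : ((16 * 3 ^ (k + 1) : ℕ) : ZMod (3 ^ (k + 1))) = 0 := by
    rw [ZMod.natCast_eq_zero_iff]; exact dvd_mul_left _ _
  rw [h2] at h1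
  exact eq_neg_of_add_eq_zero_left h1

lemma sg_conj_XX (A : ZMod 16 → ZMod (3 ^ (k + 1)) → ℤ) (a : ZMod 16) (b : ZMod (3 ^ (k + 1))) :
    sg hζ (16 * 3 ^ (k + 1) - 1) (XX hζ A a b) = XX hζ A (-a) (-b) := by
  rw [sg_XX hζ (coprime_pred hζ (one_lt_n hζ)), cast_pred_16, cast_pred_3, neg_one_mul, neg_one_mul]

lemma descent_XX {u a2 a3 i j : ℕ} (A : ZMod 16 → ZMod (3 ^ (k + 1)) → ℤ)
    (hA : ∀ d v, ∑ s, ∑ c, A s c * A (s + d) (c + v)
      = if d = 0 ∧ v = 0 then 2 ^ i * 3 ^ j else 0)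
    (hu : u.Coprime (16 * 3 ^ (k + 1))) (h3 : u ≡ 3 ^ a3 [MOD 16])
    (h2 : u ≡ 2 ^ a2 [MOD 3 ^ (k + 1)]) :
    ∃ m : ℕ, XX hζ A u u = hζ.toInteger ^ m * XX hζ A 1 1 := by
  have h := descent hζ rfl hu h3 h2 (XX hζ A 1 1) (i := i) (j := j) (by
    rw [sg_conj_XX, XX_mul_conj hζ A (2 ^ i * 3 ^ j) hA]; push_cast; ring)
  rw [sg_XX hζ hu, mul_one, mul_one] at h
  exact h

lemma XX_ne_zero {i j : ℕ} (A : ZMod 16 → ZMod (3 ^ (k + 1)) → ℤ)
    (hA : ∀ d v, ∑ s, ∑ c, A s c * A (s + d) (c + v)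
      = if d = 0 ∧ v = 0 then 2 ^ i * 3 ^ j else 0) (a : ZMod 16) (b : ZMod (3 ^ (k + 1))) :
    XX hζ A a b ≠ 0 := by
  intro h0
  have h := XX_mul_conj hζ A (2 ^ i * 3 ^ j) hA a b
  rw [h0, zero_mul] at h
  have h1 : ((2 ^ i * 3 ^ j : ℤ) : 𝓞 F) ≠ 0 := by
    rw [Ne, Int.cast_eq_zero]; positivity
  exact h1 h.symm

omit hζ in
lemma cast_of_modEq {m a b : ℕ} (h : a ≡ b [MOD m]) : (a : ZMod m) = (b : ZMod m) :=
  (ZMod.natCast_eq_natCast_iff a b m).2 h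

lemma exists_kappa {i j : ℕ} (A : ZMod 16 → ZMod (3 ^ (k + 1)) → ℤ)
    (hA : ∀ d v, ∑ s, ∑ c, A s c * A (s + d) (c + v)
      = if d = 0 ∧ v = 0 then 2 ^ i * 3 ^ j else 0) :
    ∃ κ : ZMod (3 ^ (k + 1)), ∀ t : ZMod (3 ^ (k + 1)),
      XX hζ A 1 (1 + 3 * t) = e2 hζ (3 * t * κ) * XX hζ A 1 1 := by
  obtain ⟨u, hu1, hu2, hu⟩ := exists_crt (k + 1) 1 4 (by decide) (by norm_num)
  have c1 : (u : ZMod 16) = 1 := by simpa using cast_of_modEq hu1
  have c2 : (u : ZMod (3 ^ (k + 1))) = 4 := by simpa using cast_of_modEq hu2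
  obtain ⟨m, hm⟩ := descent_XX hζ A hA hu (a3 := 0) (a2 := 2) (by simpa using hu1)
    (by simpa using hu2)
  rw [c1, c2] at hm
  set X := XX hζ A 1 1 with hX
  have hX0 : X ≠ 0 := XX_ne_zero hζ A hA 1 1
  -- iterate
  have hit : ∀ e : ℕ, XX hζ A 1 (4 ^ e) = hζ.toInteger ^ (m * ∑ q ∈ range e, u ^ q) * X := by
    intro e
    induction e with
    | zero => simp [hX]
    | succ e ih =>
      have h1 : sg hζ u (XX hζ A 1 (4 ^ e)) = XX hζ A 1 (4 ^ (e + 1)) := by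
        have h4e : (4 : ZMod (3 ^ (k + 1))) * 4 ^ e = 4 ^ (e + 1) := by ring
        rw [sg_XX hζ hu, c1, c2, mul_one, h4e]
      rw [← h1, ih, map_mul, map_pow, sg_z hζ hu, hX, sg_XX hζ hu, c1, c2, mul_one, mul_one, hm,
        ← hX, geom_sum_succ, ← mul_assoc, ← pow_mul, ← pow_add]
      congr 2; ring
  have h4 : (4 : ZMod (3 ^ (k + 1))) ^ (3 ^ k) = 1 := by
    obtain ⟨w, hw⟩ := four_pow k
    have h1 := congrArg (fun z : ℤ => (z : ZMod (3 ^ (k + 1)))) hw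
    push_cast at h1
    rw [h1]
    have h2 : (3 : ZMod (3 ^ (k + 1))) ^ (k + 1) = 0 := by
      have := ZMod.natCast_self (3 ^ (k + 1))
      push_cast at this
      exact this
    rw [h2]; simp
  set S := ∑ q ∈ range (3 ^ k), u ^ q with hS
  have hdvd : 16 * 3 ^ (k + 1) ∣ m * S := by
    have h1 := hit (3 ^ k)
    rw [h4, ← hX] at h1
    have h2 : hζ.toInteger ^ (m * S) = 1 := by
      have : hζ.toInteger ^ (m * S) * X = 1 * X := by rw [one_mul]; exact h1.symm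
      exact mul_right_cancel₀ hX0 this
    exact hζ.toInteger_isPrimitiveRoot.dvd_of_pow_eq_one _ h2
  have hSodd : Odd S := by
    rw [hS, Finset.odd_sum_iff_odd_card_odd]
    have : (range (3 ^ k)).filter (fun q => Odd (u ^ q)) = range (3 ^ k) := by
      apply filter_true_of_mem
      intro q _
      have : Odd u := by
        rw [Nat.odd_iff]
        have : u % 16 = 1 % 16 := hu1
        omega
      exact this.pow
    rw [this, card_range]
    exact Odd.pow (by decide)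
  have h16 : 16 ∣ m := by
    have h1 : 16 ∣ m * S := (dvd_mul_right _ _).trans hdvd
    have h2 : Nat.Coprime 16 S := by
      have : (16 : ℕ) = 2 ^ 4 := by norm_num
      rw [this]
      exact Nat.Coprime.pow_left _ (Nat.coprime_two_left.2 hSodd)
    exact h2.dvd_of_dvd_mul_right h1
  have h3 : 3 ∣ m := by
    by_contra hcon
    have h1 : 3 ^ (k + 1) ∣ m * S := (dvd_mul_left _ _).trans hdvd
    have h2 : Nat.Coprime (3 ^ (k + 1)) m :=
      Nat.Coprime.pow_left _ ((Nat.Prime.coprime_iff_not_dvd Nat.prime_three).2 hcon)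
    have h5 := h2.dvd_of_dvd_mul_left h1
    exact geom_not_dvd (k + 1) (by omega) u hu2 (by simpa using h5)
  obtain ⟨κ', hκ'⟩ : 48 ∣ m := by
    have : Nat.Coprime 16 3 := by norm_num
    exact this.mul_dvd_of_dvd_of_dvd h16 h3
  have hm' : XX hζ A 1 4 = e2 hζ (3 * (κ' : ZMod (3 ^ (k + 1)))) * X := by
    rw [hm, hκ']
    congr 1
    have : (3 * (κ' : ZMod (3 ^ (k + 1)))) = ((3 * κ' : ℕ) : ZMod (3 ^ (k + 1))) := by push_cast; rfl
    rw [this]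
    unfold e2
    rw [AddChar.zmodChar_apply', ← pow_mul]
    congr 1; ring
  have hit2 : ∀ e : ℕ, XX hζ A 1 (4 ^ e)
      = e2 hζ ((4 ^ e - 1) * (κ' : ZMod (3 ^ (k + 1)))) * X := by
    intro e
    induction e with
    | zero => simp [hX]
    | succ e ih =>
      have h1 : sg hζ u (XX hζ A 1 (4 ^ e)) = XX hζ A 1 (4 ^ (e + 1)) := by
        have h4e : (4 : ZMod (3 ^ (k + 1))) * 4 ^ e = 4 ^ (e + 1) := by ring
        rw [sg_XX hζ hu, c1, c2, mul_one, h4e]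
      rw [← h1, ih, map_mul, sg_e2 hζ hu, hX, sg_XX hζ hu, c1, c2, mul_one, mul_one, hm', ← hX,
        ← mul_assoc, ← AddChar.map_add_eq_mul]
      congr 2; ring
  refine ⟨κ', fun t => ?_⟩
  obtain ⟨e, he⟩ := four_gen_zmod (k + 1) (by omega) t
  rw [he, hit2 e, ← he]
  congr 2; ring

lemma exists_kappa' {i j : ℕ} (A : ZMod 16 → ZMod (3 ^ (k + 1)) → ℤ)
    (hA : ∀ d v, ∑ s, ∑ c, A s c * A (s + d) (c + v)
      = if d = 0 ∧ v = 0 then 2 ^ i * 3 ^ j else 0) :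
    ∃ κ : ZMod (3 ^ (k + 1)), ∀ (a : ZMod 16) (t : ZMod (3 ^ (k + 1))),
      XX hζ A (1 + 2 * a) (1 + 3 * t) = e2 hζ (3 * t * κ) * XX hζ A (1 + 2 * a) 1 := by
  obtain ⟨κ, hκ⟩ := exists_kappa hζ A hA
  refine ⟨κ, fun a t => ?_⟩
  obtain ⟨u, hu1, hu2, hu⟩ := exists_crt (k + 1) (1 + 2 * a.val) 1 ⟨a.val, by ring⟩ (by norm_num)
  have c1 : (u : ZMod 16) = 1 + 2 * a := by
    have := cast_of_modEq hu1
    rw [this]; push_cast; rw [ZMod.natCast_zmod_val]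
  have c2 : (u : ZMod (3 ^ (k + 1))) = 1 := by simpa using cast_of_modEq hu2
  have h := congrArg (sg hζ u) (hκ t)
  rw [map_mul, sg_XX hζ hu, sg_XX hζ hu, sg_e2 hζ hu, c1, c2] at h
  simpa using h

lemma exists_delta {i j : ℕ} (A : ZMod 16 → ZMod (3 ^ (k + 1)) → ℤ)
    (hA : ∀ d v, ∑ s, ∑ c, A s c * A (s + d) (c + v)
      = if d = 0 ∧ v = 0 then 2 ^ i * 3 ^ j else 0) :
    ∃ δ : ℤ, (δ = 1 ∨ δ = -1) ∧ ∀ (a : ZMod 16),
      XX hζ A (1 + 2 * (a + 4)) 1 = δ * XX hζ A (1 + 2 * a) 1 := by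
  obtain ⟨u, hu1, hu2, hu⟩ := exists_crt (k + 1) 9 1 (by decide) (by norm_num)
  have c1 : (u : ZMod 16) = 9 := by simpa using cast_of_modEq hu1
  have c2 : (u : ZMod (3 ^ (k + 1))) = 1 := by simpa using cast_of_modEq hu2
  obtain ⟨m, hm⟩ := descent_XX hζ A hA hu (a3 := 2) (a2 := 0) (by simpa using hu1)
    (by simpa using hu2)
  rw [c1, c2] at hm
  set X := XX hζ A 1 1 with hX
  have hX0 : X ≠ 0 := XX_ne_zero hζ A hA 1 1
  have h1 := congrArg (sg hζ u) hm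
  have e81 : (9 : ZMod 16) * 9 = 1 := by decide
  rw [map_mul, map_pow, sg_z hζ hu, hX, sg_XX hζ hu, sg_XX hζ hu, c1, c2, mul_one, mul_one, e81,
    hm, ← hX, ← mul_assoc, ← pow_mul, ← pow_add] at h1
  have h2 : hζ.toInteger ^ (u * m + m) = 1 := by
    have : hζ.toInteger ^ (u * m + m) * X = 1 * X := by rw [one_mul]; exact h1.symm
    exact mul_right_cancel₀ hX0 this
  have h3 := hζ.toInteger_isPrimitiveRoot.dvd_of_pow_eq_one _ h2
  have h3' : 16 * 3 ^ (k + 1) ∣ (u + 1) * m := by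
    have : u * m + m = (u + 1) * m := by ring
    rwa [this] at h3
  have h16 : 8 ∣ m := by
    have h4 : 16 ∣ (u + 1) * m := (dvd_mul_right _ _).trans h3'
    have hu9 : u % 16 = 9 := hu1
    obtain ⟨v, hv⟩ : ∃ v, u + 1 = 2 * (2 * v + 1) := ⟨(u - 1) / 4, by omega⟩
    rw [hv, mul_assoc] at h4
    have h5 : 8 ∣ (2 * v + 1) * m :=
      Nat.dvd_of_mul_dvd_mul_left (by norm_num : 0 < 2) (by simpa [mul_comm] using h4)
    have h6 : Nat.Coprime 8 (2 * v + 1) := by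
      have : (8 : ℕ) = 2 ^ 3 := by norm_num
      rw [this]
      exact Nat.Coprime.pow_left _ (Nat.coprime_two_left.2 ⟨v, rfl⟩)
    exact h6.dvd_of_dvd_mul_left h5
  have h3K : 3 ^ (k + 1) ∣ m := by
    have h4 : 3 ^ (k + 1) ∣ (u + 1) * m := (dvd_mul_left _ _).trans h3'
    have h6 : Nat.Coprime (3 ^ (k + 1)) (u + 1) := by
      apply Nat.Coprime.pow_left
      rw [Nat.Prime.coprime_iff_not_dvd Nat.prime_three]
      intro h7
      have h8 : u ≡ 1 [MOD 3] := hu2.of_dvd (dvd_pow_self 3 (by omega))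
      have : u % 3 = 1 := h8
      omega
    exact h6.dvd_of_dvd_mul_left h4
  have hpm : hζ.toInteger ^ m = 1 ∨ hζ.toInteger ^ m = -1 := by
    have h4 : hζ.toInteger ^ (m * 2) = 1 := by
      obtain ⟨q, hq⟩ : 16 * 3 ^ (k + 1) ∣ m * 2 := by
        have h8 : Nat.Coprime 8 (3 ^ (k + 1)) := Nat.Coprime.pow_right _ (by norm_num)
        obtain ⟨q, hq⟩ := h8.mul_dvd_of_dvd_of_dvd h16 h3K
        exact ⟨q, by rw [hq]; ring⟩
      rw [hq, pow_mul, hζ.toInteger_isPrimitiveRoot.pow_eq_one, one_pow]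
    rw [pow_mul] at h4
    have h5 : (hζ.toInteger ^ m - 1) * (hζ.toInteger ^ m + 1) = 0 := by linear_combination h4
    rcases mul_eq_zero.1 h5 with h | h
    · exact Or.inl (sub_eq_zero.1 h)
    · exact Or.inr (eq_neg_of_add_eq_zero_left h)
  obtain ⟨δ, hδ, hδm⟩ : ∃ δ : ℤ, (δ = 1 ∨ δ = -1) ∧ hζ.toInteger ^ m = (δ : 𝓞 F) := by
    rcases hpm with h | h
    · exact ⟨1, Or.inl rfl, by rw [h]; simp⟩
    · exact ⟨-1, Or.inr rfl, by rw [h]; simp⟩
  refine ⟨δ, hδ, fun a => ?_⟩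
  obtain ⟨v, hv1, hv2, hv⟩ := exists_crt (k + 1) (1 + 2 * a.val) 1 ⟨a.val, by ring⟩ (by norm_num)
  have d1 : (v : ZMod 16) = 1 + 2 * a := by
    have := cast_of_modEq hv1
    rw [this]; push_cast; rw [ZMod.natCast_zmod_val]
  have d2 : (v : ZMod (3 ^ (k + 1))) = 1 := by simpa using cast_of_modEq hv2
  have h := congrArg (sg hζ v) hm
  rw [hδm, map_mul, map_intCast, hX, sg_XX hζ hv, sg_XX hζ hv, d1, d2] at h
  have e9 : ∀ a : ZMod 16, (1 + 2 * a) * 9 = 1 + 2 * (a + 4) := by decide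
  rw [e9] at h
  simpa using h

end main

end MP82
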