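import Pool.Agent.Lib.MP_82ec8b_co.Basic

/-! M2: the 2-adic analysis. -/

namespace MP82
open Finset

namespace M2

lemma sum16 {A : Type*} [AddCommMonoid A] (f : ZMod 16 → A) :
    ∑ s, f s = f 0 + (f 1 + (f 2 + (f 3 + (f 4 + (f 5 + (f 6 + (f 7 + (f 8 + (f 9 + (f 10 +
      (f 11 + (f 12 + (f 13 + (f 14 + f 15)))))))))))))) := by
  have h : (Finset.univ : Finset (ZMod 16)) =
      {0, 1, 2, 3, 4, 5, 6, 7, 8, 9, 10, 11, 12, 13, 14, 15} := by decide
  rw [h]
  repeat rw [Finset.sum_insert (by decide)]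
  rw [Finset.sum_singleton]

/-- The relations between the four essential values. -/
structure Q4 (c0 c1 c2 c3 : E) (M : ℤ) : Prop where
  s0 : N c0 + N c1 + N c2 + N c3 = M
  s1 : c0 * star c1 + c1 * star c2 + c2 * star c3 - c3 * star c0 = 0
  s2 : c0 * star c2 + c1 * star c3 - c2 * star c0 - c3 * star c1 = 0

lemma int_cast_inj {a b : ℤ} (h : (a : E) = (b : E)) : a = b := by
  have := congrArg QuadraticAlgebra.re h
  simpa using this

lemma cancel_int (n : ℤ) (hn : n ≠ 0) {z w : E} (h : (n : E) * z = (n : E) * w) : z = w := by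
  have h1 := congrArg QuadraticAlgebra.re h
  have h2 := congrArg QuadraticAlgebra.im h
  simp at h1 h2
  ext
  · rcases h1 with h1 | h1
    · exact h1
    · exact absurd h1 hn
  · rcases h2 with h2 | h2
    · exact h2
    · exact absurd h2 hn

lemma two_cancel {z : E} (h : z + z = 0) : z = 0 := by
  apply cancel_int 2 (by norm_num)
  push_cast
  rw [two_mul, h, mul_zero]

lemma Q4_of (c : ZMod 16 → E) (ε : ZMod 2) (hanti : ∀ s, c (s + 8) = - c s)
    (hsupp : ∀ s : ZMod 16, (s.val : ZMod 2) ≠ ε → c s = 0) (M : ℤ)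
    (hcorr : ∀ j : ZMod 16, ∑ s, c s * star (c (s + j))
      = if j = 0 then ((2 * M : ℤ) : E) else if j = 8 then ((-(2 * M) : ℤ) : E) else 0) :
    ∃ e : ZMod 16, (e = 0 ∨ e = 1) ∧ (e.val : ZMod 2) = ε ∧
      Q4 (c e) (c (e + 2)) (c (e + 4)) (c (e + 6)) M := by
  have h0 := hcorr 0
  have h2 := hcorr 2
  have h4 := hcorr 4
  rw [if_pos rfl] at h0
  rw [if_neg (by decide), if_neg (by decide)] at h2 h4
  rw [sum16] at h0 h2 h4
  have v8 : c 8 = - c 0 := hanti 0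
  have v9 : c 9 = - c 1 := hanti 1
  have v10 : c 10 = - c 2 := hanti 2
  have v11 : c 11 = - c 3 := hanti 3
  have v12 : c 12 = - c 4 := hanti 4
  have v13 : c 13 = - c 5 := hanti 5
  have v14 : c 14 = - c 6 := hanti 6
  have v15 : c 15 = - c 7 := hanti 7
  replace h0 : c 0 * star (c 0) + (c 1 * star (c 1) + (c 2 * star (c 2) + (c 3 * star (c 3) + (c 4 * star (c 4) + (c 5 * star (c 5) + (c 6 * star (c 6) + (c 7 * star (c 7) + (c 8 * star (c 8) + (c 9 * star (c 9) + (c 10 * star (c 10) + (c 11 * star (c 11) + (c 12 * star (c 12) + (c 13 * star (c 13) + (c 14 * star (c 14) + (c 15 * star (c 15)))))))))))))))) = ((2 * M : ℤ) : E) := h0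
  replace h2 : c 0 * star (c 2) + (c 1 * star (c 3) + (c 2 * star (c 4) + (c 3 * star (c 5) + (c 4 * star (c 6) + (c 5 * star (c 7) + (c 6 * star (c 8) + (c 7 * star (c 9) + (c 8 * star (c 10) + (c 9 * star (c 11) + (c 10 * star (c 12) + (c 11 * star (c 13) + (c 12 * star (c 14) + (c 13 * star (c 15) + (c 14 * star (c 0) + (c 15 * star (c 1)))))))))))))))) = 0 := h2
  replace h4 : c 0 * star (c 4) + (c 1 * star (c 5) + (c 2 * star (c 6) + (c 3 * star (c 7) + (c 4 * star (c 8) + (c 5 * star (c 9) + (c 6 * star (c 10) + (c 7 * star (c 11) + (c 8 * star (c 12) + (c 9 * star (c 13) + (c 10 * star (c 14) + (c 11 * star (c 15) + (c 12 * star (c 0) + (c 13 * star (c 1) + (c 14 * star (c 2) + (c 15 * star (c 3)))))))))))))))) = 0 := h4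
  rw [v8, v9, v10, v11, v12, v13, v14, v15] at h0 h2 h4
  have hε : ε = 0 ∨ ε = 1 := by
    have : ∀ e : ZMod 2, e = 0 ∨ e = 1 := by decide
    exact this ε
  rcases hε with rfl | rfl
  · have w1 : c 1 = 0 := hsupp 1 (by decide)
    have w3 : c 3 = 0 := hsupp 3 (by decide)
    have w5 : c 5 = 0 := hsupp 5 (by decide)
    have w7 : c 7 = 0 := hsupp 7 (by decide)
    simp only [w1, w3, w5, w7, neg_zero, mul_zero, star_zero, zero_add, add_zero, star_neg] at h0 h2 h4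
    refine ⟨0, Or.inl rfl, by decide, ?_⟩
    have k0 : (0:ZMod 16) + 2 = 2 := by decide
    have k1 : (0:ZMod 16) + 4 = 4 := by decide
    have k2 : (0:ZMod 16) + 6 = 6 := by decide
    rw [k0, k1, k2]
    refine ⟨?_, ?_, ?_⟩
    · have h : ((N (c 0) + N (c 2) + N (c 4) + N (c 6) : ℤ) : E) = ((M : ℤ) : E) := by
        push_cast
        rw [← mul_star_eq, ← mul_star_eq, ← mul_star_eq, ← mul_star_eq]
        apply cancel_int 2 (by norm_num)
        push_cast at h0 ⊢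
        linear_combination h0
      exact int_cast_inj h
    · apply two_cancel; linear_combination h2
    · apply two_cancel; linear_combination h4
  · have w1 : c 0 = 0 := hsupp 0 (by decide)
    have w3 : c 2 = 0 := hsupp 2 (by decide)
    have w5 : c 4 = 0 := hsupp 4 (by decide)
    have w7 : c 6 = 0 := hsupp 6 (by decide)
    simp only [w1, w3, w5, w7, neg_zero, mul_zero, star_zero, zero_add, add_zero, star_neg] at h0 h2 h4
    refine ⟨1, Or.inr rfl, by decide, ?_⟩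
    have k0 : (1:ZMod 16) + 2 = 3 := by decide
    have k1 : (1:ZMod 16) + 4 = 5 := by decide
    have k2 : (1:ZMod 16) + 6 = 7 := by decide
    rw [k0, k1, k2]
    refine ⟨?_, ?_, ?_⟩
    · have h : ((N (c 1) + N (c 3) + N (c 5) + N (c 7) : ℤ) : E) = ((M : ℤ) : E) := by
        push_cast
        rw [← mul_star_eq, ← mul_star_eq, ← mul_star_eq, ← mul_star_eq]
        apply cancel_int 2 (by norm_num)
        push_cast at h0 ⊢
        linear_combination h0
      exact int_cast_inj h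
    · apply two_cancel; linear_combination h2
    · apply two_cancel; linear_combination h4

/-- first level -/
lemma lev1 : ∀ a0 b0 a1 b1 a2 b2 a3 b3 : ZMod 2,
    (a0 ^ 2 - a0 * b0 + b0 ^ 2) + (a1 ^ 2 - a1 * b1 + b1 ^ 2) + (a2 ^ 2 - a2 * b2 + b2 ^ 2) +
      (a3 ^ 2 - a3 * b3 + b3 ^ 2) = 0 →
    (a0 * (a1 - b1) + b0 * b1) + (a1 * (a2 - b2) + b1 * b2) + (a2 * (a3 - b3) + b2 * b3) -
      (a3 * (a0 - b0) + b3 * b0) = 0 →
    (b0 * a1 - a0 * b1) + (b1 * a2 - a1 * b2) + (b2 * a3 - a2 * b3) - (b3 * a0 - a3 * b0) = 0 →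
    (b0 * a2 - a0 * b2) + (b1 * a3 - a1 * b3) = 0 →
    a2 = a0 ∧ b2 = b0 ∧ a3 = a1 ∧ b3 = b1 := by decide +kernel

/-- second level -/
lemma lev2 : ∀ a0 b0 a1 b1 p q r t : ZMod 2,
    (a0 ^ 2 - a0 * b0 + b0 ^ 2) + (a1 ^ 2 - a1 * b1 + b1 ^ 2) + (a0 * q + b0 * p) +
      (a1 * t + b1 * r) = 0 →
    (a0 * (a1 - b1) + b0 * b1) + (a1 * (p - q) + b1 * q) + (p * (a1 - b1) + q * b1) +
      (a0 * (r - t) + b0 * t) - (r * (a0 - b0) + t * b0) = 0 →
    (b0 * a1 - a0 * b1) + (b1 * p - a1 * q) + (q * a1 - p * b1) +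
      (b0 * r - a0 * t) - (t * a0 - r * b0) = 0 →
    (b0 * p - a0 * q) + (b1 * r - a1 * t) = 0 →
    a0 = 0 ∧ b0 = 0 ∧ a1 = 0 ∧ b1 = 0 := by decide +kernel

lemma Q4.coords {c0 c1 c2 c3 : E} {M : ℤ} (h : Q4 c0 c1 c2 c3 M) :
    ((c0.re ^ 2 - c0.re * c0.im + c0.im ^ 2) + (c1.re ^ 2 - c1.re * c1.im + c1.im ^ 2) +
      (c2.re ^ 2 - c2.re * c2.im + c2.im ^ 2) + (c3.re ^ 2 - c3.re * c3.im + c3.im ^ 2) = M) ∧
    ((c0.re * (c1.re - c1.im) + c0.im * c1.im) + (c1.re * (c2.re - c2.im) + c1.im * c2.im) +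
      (c2.re * (c3.re - c3.im) + c2.im * c3.im) -
      (c3.re * (c0.re - c0.im) + c3.im * c0.im) = 0) ∧
    ((c0.im * c1.re - c0.re * c1.im) + (c1.im * c2.re - c1.re * c2.im) +
      (c2.im * c3.re - c2.re * c3.im) - (c3.im * c0.re - c3.re * c0.im) = 0) ∧
    ((c0.im * c2.re - c0.re * c2.im) + (c1.im * c3.re - c1.re * c3.im) = 0) := by
  refine ⟨h.s0, ?_, ?_, ?_⟩
  · have := congrArg QuadraticAlgebra.re h.s1
    simp at this
    linear_combination this
  · have := congrArg QuadraticAlgebra.im h.s1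
    simp at this
    linear_combination this
  · have := congrArg QuadraticAlgebra.re h.s2
    simp at this
    linear_combination this

lemma red_of {z w : ℤ} (h : (z : ZMod 2) = (w : ZMod 2)) : ∃ p : ℤ, z = w + 2 * p := by
  have h1 : ((z - w : ℤ) : ZMod 2) = 0 := by push_cast; rw [h]; ring
  obtain ⟨p, hp⟩ := (ZMod.intCast_zmod_eq_zero_iff_dvd _ 2).1 h1
  refine ⟨p, ?_⟩
  push_cast at hp
  linarith

lemma Q4.even {c0 c1 c2 c3 : E} {M : ℤ} (h : Q4 c0 c1 c2 c3 M) (hM : 4 ∣ M) :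
    red c0 = 0 ∧ red c1 = 0 ∧ red c2 = 0 ∧ red c3 = 0 := by
  obtain ⟨h0, h1, h2, h3⟩ := h.coords
  obtain ⟨a0, b0⟩ := c0
  obtain ⟨a1, b1⟩ := c1
  obtain ⟨a2, b2⟩ := c2
  obtain ⟨a3, b3⟩ := c3
  simp only at h0 h1 h2 h3
  obtain ⟨M', rfl⟩ := hM
  have g := lev1 a0 b0 a1 b1 a2 b2 a3 b3 (by
      have := congrArg (Int.cast : ℤ → ZMod 2) h0
      push_cast at this
      rw [this]
      have : (4 : ZMod 2) = 0 := by decide
      rw [this, zero_mul]) (by
      have := congrArg (Int.cast : ℤ → ZMod 2) h1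
      push_cast at this
      exact this) (by
      have := congrArg (Int.cast : ℤ → ZMod 2) h2
      push_cast at this
      exact this) (by
      have := congrArg (Int.cast : ℤ → ZMod 2) h3
      push_cast at this
      exact this)
  obtain ⟨g1, g2, g3, g4⟩ := g
  obtain ⟨p, rfl⟩ := red_of g1
  obtain ⟨q, rfl⟩ := red_of g2
  obtain ⟨r, rfl⟩ := red_of g3
  obtain ⟨t, rfl⟩ := red_of g4
  have k0 : (a0 ^ 2 - a0 * b0 + b0 ^ 2) + (a1 ^ 2 - a1 * b1 + b1 ^ 2) + (a0 * q + b0 * p) +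
      (a1 * t + b1 * r) = 2 * (M' + (a0 * q + b0 * p) + (a1 * t + b1 * r) - a0 * p - b0 * q -
        a1 * r - b1 * t - (p ^ 2 - p * q + q ^ 2) - (r ^ 2 - r * t + t ^ 2)) := by
    nlinarith
  have k1 : (a0 * (a1 - b1) + b0 * b1) + (a1 * (p - q) + b1 * q) + (p * (a1 - b1) + q * b1) +
      (a0 * (r - t) + b0 * t) - (r * (a0 - b0) + t * b0) =
      2 * (-(p * (r - t) + q * t)) := by nlinarith
  have k2 : (b0 * a1 - a0 * b1) + (b1 * p - a1 * q) + (q * a1 - p * b1) +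
      (b0 * r - a0 * t) - (t * a0 - r * b0) = 2 * (-(q * r - p * t)) := by nlinarith
  have k3 : (b0 * p - a0 * q) + (b1 * r - a1 * t) = 0 := by nlinarith
  have e2 : (2 : ZMod 2) = 0 := by decide
  have g := lev2 a0 b0 a1 b1 p q r t (by
      have := congrArg (Int.cast : ℤ → ZMod 2) k0
      push_cast at this
      rw [this, e2, zero_mul]) (by
      have := congrArg (Int.cast : ℤ → ZMod 2) k1
      push_cast at this
      rw [this, e2, zero_mul]) (by
      have := congrArg (Int.cast : ℤ → ZMod 2) k2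
      push_cast at this
      rw [this, e2, zero_mul]) (by
      have := congrArg (Int.cast : ℤ → ZMod 2) k3
      push_cast at this
      exact this)
  obtain ⟨f0, f1, f2, f3⟩ := g
  simp [red, f0, f1, f2, f3, e2]

end M2

theorem M2_step (c : ZMod 16 → E) (ε : ZMod 2) (hanti : ∀ s, c (s + 8) = - c s)
    (hsupp : ∀ s : ZMod 16, (s.val : ZMod 2) ≠ ε → c s = 0) (M : ℤ) (hM : 4 ∣ M)
    (hcorr : ∀ j : ZMod 16, ∑ s, c s * star (c (s + j))
      = if j = 0 then ((2 * M : ℤ) : E) else if j = 8 then ((-(2 * M) : ℤ) : E) else 0) :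
    ∀ s, ∃ w, c s = 2 * w := by
  obtain ⟨e, he, hee, hQ⟩ := M2.Q4_of c ε hanti hsupp M hcorr
  obtain ⟨r0, r1, r2, r3⟩ := hQ.even hM
  intro s
  rw [← red_eq_zero_iff]
  by_cases hs : (s.val : ZMod 2) = ε
  · rw [← hee] at hs
    have r0' : red (c (e + 8)) = 0 := by rw [hanti, red_neg, r0]
    have r1' : red (c (e + 2 + 8)) = 0 := by rw [hanti, red_neg, r1]
    have r2' : red (c (e + 4 + 8)) = 0 := by rw [hanti, red_neg, r2]
    have r3' : red (c (e + 6 + 8)) = 0 := by rw [hanti, red_neg, r3]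
    have key : ∀ e s : ZMod 16, (s.val : ZMod 2) = (e.val : ZMod 2) → s = e ∨ s = e + 2 ∨
        s = e + 4 ∨ s = e + 6 ∨ s = e + 8 ∨ s = e + 2 + 8 ∨ s = e + 4 + 8 ∨ s = e + 6 + 8 := by
      decide
    rcases key e s hs with h | h | h | h | h | h | h | h <;> rw [h] <;> assumption
  · rw [hsupp s hs, red_zero]

namespace M2

lemma half (c : ZMod 16 → E) (ε : ZMod 2) (M : ℤ) (hanti : ∀ s, c (s + 8) = - c s)
    (hsupp : ∀ s : ZMod 16, (s.val : ZMod 2) ≠ ε → c s = 0)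
    (hcorr : ∀ j : ZMod 16, ∑ s, c s * star (c (s + j))
      = if j = 0 then ((2 * (4 * M) : ℤ) : E) else if j = 8 then ((-(2 * (4 * M)) : ℤ) : E)
        else 0) :
    ∃ d : ZMod 16 → E, (∀ s, c s = 2 * d s) ∧ (∀ s, d (s + 8) = - d s) ∧
      (∀ s : ZMod 16, (s.val : ZMod 2) ≠ ε → d s = 0) ∧
      (∀ j : ZMod 16, ∑ s, d s * star (d (s + j))
        = if j = 0 then ((2 * M : ℤ) : E) else if j = 8 then ((-(2 * M) : ℤ) : E) else 0) := by
  choose d hd using M2_step c ε hanti hsupp (4 * M) (Dvd.intro _ rfl) hcorr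
  have c2 : ∀ {z w : E}, 2 * z = 2 * w → z = w := by
    intro z w h
    apply cancel_int 2 (by norm_num)
    exact_mod_cast h
  refine ⟨d, hd, ?_, ?_, ?_⟩
  · intro s
    apply c2
    rw [← hd, hanti, hd]; ring
  · intro s hs
    apply c2
    rw [← hd, hsupp s hs, mul_zero]
  · intro j
    apply cancel_int 4 (by norm_num)
    have h := hcorr j
    simp only [hd] at h
    have e : ∀ s, 2 * d s * star (2 * d (s + j)) = ((4 : ℤ) : E) * (d s * star (d (s + j))) := by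
      intro s
      have : star (2 : E) = 2 := by
        rw [show (2 : E) = 1 + 1 by norm_num, star_add, star_one]
      rw [star_mul, this]; push_cast; ring
    simp only [e, ← mul_sum] at h
    rw [h]
    split_ifs
    · push_cast; ring
    · push_cast; ring
    · simp

/-- nonvanishing mod 2 as a function on `(ZMod 2)²` -/
def nzp (p : ZMod 2 × ZMod 2) : ℕ := if p = 0 then 0 else 1

lemma nz_eq (z : E) : nz z = nzp (red z) := rfl

lemma fin1 : ∀ a0 b0 a1 b1 a2 b2 a3 b3 : ZMod 2,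
    (a0 ^ 2 - a0 * b0 + b0 ^ 2) + (a1 ^ 2 - a1 * b1 + b1 ^ 2) + (a2 ^ 2 - a2 * b2 + b2 ^ 2) +
      (a3 ^ 2 - a3 * b3 + b3 ^ 2) = 1 →
    (a0 * (a1 - b1) + b0 * b1) + (a1 * (a2 - b2) + b1 * b2) + (a2 * (a3 - b3) + b2 * b3) -
      (a3 * (a0 - b0) + b3 * b0) = 0 →
    (b0 * a1 - a0 * b1) + (b1 * a2 - a1 * b2) + (b2 * a3 - a2 * b3) - (b3 * a0 - a3 * b0) = 0 →
    (b0 * a2 - a0 * b2) + (b1 * a3 - a1 * b3) = 0 →
    (((a0, b0) : ZMod 2 × ZMod 2) + (a1, b1) + (a2, b2) + (a3, b3) ≠ 0) ∧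
    (nzp (a0, b0) + nzp (a1, b1) + nzp (a2, b2) + nzp (a3, b3)) % 2 = 1 ∧
    nzp ((a0, b0) + (a2, b2)) + nzp ((a1, b1) + (a3, b3)) = 1 := by decide +kernel

lemma Q4.fin {c0 c1 c2 c3 : E} {M : ℤ} (h : Q4 c0 c1 c2 c3 M) (hM : (M : ZMod 2) = 1) :
    (red c0 + red c1 + red c2 + red c3 ≠ 0) ∧ Odd (nz c0 + nz c1 + nz c2 + nz c3) ∧
      nz (c0 + c2) + nz (c1 + c3) = 1 := by
  obtain ⟨h0, h1, h2, h3⟩ := h.coords
  have g := fin1 c0.re c0.im c1.re c1.im c2.re c2.im c3.re c3.im (by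
      have := congrArg (Int.cast : ℤ → ZMod 2) h0
      push_cast at this
      rw [this, hM]) (by
      have := congrArg (Int.cast : ℤ → ZMod 2) h1
      push_cast at this
      exact this) (by
      have := congrArg (Int.cast : ℤ → ZMod 2) h2
      push_cast at this
      exact this) (by
      have := congrArg (Int.cast : ℤ → ZMod 2) h3
      push_cast at this
      exact this)
  obtain ⟨g1, g2, g3⟩ := g
  refine ⟨g1, ?_, ?_⟩
  · rw [nz_eq, nz_eq, nz_eq, nz_eq, Nat.odd_iff]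
    exact g2
  · rw [nz_eq, nz_eq, red_add, red_add]
    exact g3

end M2

theorem M2_main {H : Type} [AddCommGroup H] [Fintype H] [DecidableEq H] {R : Type}
    (ℓ : H → ZMod 16) (u : R → H → E) (b : ℕ) (h : Act ℓ u (64 * 9 ^ b)) :
    ∃ (r0 : R) (ε : ZMod 16) (Y : R → ZMod 16 → E), (ε = 0 ∨ ε = 1) ∧
      (∀ r s, cc ℓ (u r) s = 8 * Y r s) ∧
      (∀ r s, Y r (s + 8) = - Y r s) ∧
      (∀ r, r ≠ r0 → ∀ s, Y r s = 0) ∧
      (∀ s : ZMod 16, (s.val : ZMod 2) ≠ (ε.val : ZMod 2) → Y r0 s = 0) ∧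
      (∑ s, N (Y r0 s) = 2 * 9 ^ b) ∧
      (red (Y r0 ε) + red (Y r0 (ε + 2)) + red (Y r0 (ε + 4)) + red (Y r0 (ε + 6)) ≠ 0) ∧
      (Odd (nz (Y r0 ε) + nz (Y r0 (ε + 2)) + nz (Y r0 (ε + 4)) + nz (Y r0 (ε + 6)))) ∧
      (nz (Y r0 ε + Y r0 (ε + 4)) + nz (Y r0 (ε + 2) + Y r0 (ε + 6)) = 1) := by
  classical
  obtain ⟨r0, hr, ⟨ε, hε⟩, hc⟩ := h
  have e64 : (64 * 9 ^ b : ℤ) = 4 * (4 * (4 * 9 ^ b)) := by ring
  rw [e64] at hc
  obtain ⟨d1, f1, a1, s1, c1⟩ := M2.half (cc ℓ (u r0)) ε _ (cc_anti ℓ (u r0)) hε hc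
  obtain ⟨d2, f2, a2, s2, c2⟩ := M2.half d1 ε _ a1 s1 c1
  obtain ⟨d3, f3, a3, s3, c3⟩ := M2.half d2 ε _ a2 s2 c2
  obtain ⟨e, he, hee, hQ⟩ := M2.Q4_of d3 ε a3 s3 (9 ^ b) c3
  have h9 : ((9 ^ b : ℤ) : ZMod 2) = 1 := by
    push_cast
    have : (9 : ZMod 2) = 1 := by decide
    rw [this, one_pow]
  obtain ⟨q1, q2, q3⟩ := hQ.fin h9
  refine ⟨r0, e, fun r => if r = r0 then d3 else fun _ => 0, he, ?_, ?_, ?_, ?_, ?_, ?_, ?_, ?_⟩
  · intro r s
    by_cases h : r = r0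
    · subst h
      simp only [if_true]
      rw [f1, f2, f3]; ring
    · simp only [if_neg h, mul_zero]
      exact hr r h s
  · intro r s
    by_cases h : r = r0
    · simp only [if_pos h]; exact a3 s
    · simp only [if_neg h, neg_zero]
  · intro r h s
    simp only [if_neg h]
  · intro s hs
    simp only [if_true]
    rw [hee] at hs
    exact s3 s hs
  · simp only [if_true]
    have h0 := c3 0
    rw [if_pos rfl] at h0
    simp only [add_zero] at h0
    rw [star_sum_mul_eq] at h0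
    exact M2.int_cast_inj h0
  · simpa only [if_true] using q1
  · simpa only [if_true] using q2
  · simpa only [if_true] using q3

end MP82
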