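import Pool.Agent.Lib.MP_82ec8b_co.Basic

/-! M3: the 3-adic analysis for characters of order dividing 4, and the direct energy argument. -/

namespace MP82
open Finset

lemma int_dvd_iff (n : ℤ) (z : E) : (∃ w : E, z = (n : E) * w) ↔ n ∣ z.re ∧ n ∣ z.im := by
  constructor
  · rintro ⟨w, rfl⟩
    constructor
    · exact ⟨w.re, by simp⟩
    · exact ⟨w.im, by simp⟩
  · rintro ⟨⟨a, ha⟩, ⟨b, hb⟩⟩
    refine ⟨⟨a, b⟩, ?_⟩
    ext
    · simp [ha]
    · simp [hb]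

lemma sq_add_sq_three {a b : ℤ} (h : (3 : ℤ) ∣ a ^ 2 + b ^ 2) : (3 : ℤ) ∣ a ∧ (3 : ℤ) ∣ b := by
  have key : ∀ x y : ZMod 3, x ^ 2 + y ^ 2 = 0 → x = 0 ∧ y = 0 := by decide
  have h' : ((a ^ 2 + b ^ 2 : ℤ) : ZMod 3) = 0 := (ZMod.intCast_zmod_eq_zero_iff_dvd _ 3).2 h
  push_cast at h'
  obtain ⟨h1, h2⟩ := key _ _ h'
  exact ⟨(ZMod.intCast_zmod_eq_zero_iff_dvd _ 3).1 h1, (ZMod.intCast_zmod_eq_zero_iff_dvd _ 3).1 h2⟩

/-- If `9 ∣ N z + N w` then `3 ∣ z` and `3 ∣ w`. -/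
lemma three_dvd_of_nine_dvd {z w : E} (h : (9 : ℤ) ∣ N z + N w) :
    (∃ z', z = 3 * z') ∧ (∃ w', w = 3 * w') := by
  have e : 4 * (N z + N w) = ((2 * z.re - z.im) ^ 2 + (2 * w.re - w.im) ^ 2)
      + 3 * (z.im ^ 2 + w.im ^ 2) := by
    unfold N; ring
  obtain ⟨k, hk⟩ := h
  have h1 : (3 : ℤ) ∣ (2 * z.re - z.im) ^ 2 + (2 * w.re - w.im) ^ 2 := by
    refine ⟨12 * k - (z.im ^ 2 + w.im ^ 2), ?_⟩
    rw [hk] at e; linarith
  obtain ⟨⟨a, ha⟩, ⟨b, hb⟩⟩ := sq_add_sq_three h1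
  have h2 : (3 : ℤ) ∣ z.im ^ 2 + w.im ^ 2 := by
    refine ⟨4 * k - (a ^ 2 + b ^ 2), ?_⟩
    rw [hk, ha, hb] at e; linarith
  obtain ⟨hc, hd⟩ := sq_add_sq_three h2
  have h3 : (3 : ℤ) ∣ z.re := by omega
  have h4 : (3 : ℤ) ∣ w.re := by omega
  have := (int_dvd_iff 3 z).2 ⟨h3, hc⟩
  have h5 := (int_dvd_iff 3 w).2 ⟨h4, hd⟩
  exact ⟨by simpa using this, by simpa using h5⟩

lemma N_three_mul (z : E) : N (3 * z) = 9 * N z := by
  have := N_intMul 3 z
  push_cast at this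
  linarith

lemma pow_dvd_of_pow_dvd (b : ℕ) : ∀ {z w : E}, ((9 : ℤ) ^ b ∣ N z + N w) →
    (∃ z', z = 3 ^ b * z') ∧ (∃ w', w = 3 ^ b * w') := by
  induction b with
  | zero => intro z w _; exact ⟨⟨z, by simp⟩, ⟨w, by simp⟩⟩
  | succ b ih =>
    intro z w h
    have h9 : (9 : ℤ) ∣ N z + N w := (Dvd.intro_left (9 ^ b) (by ring)).trans h
    obtain ⟨⟨z', hz⟩, ⟨w', hw⟩⟩ := three_dvd_of_nine_dvd h9
    subst hz; subst hw
    rw [N_three_mul, N_three_mul, ← mul_add, pow_succ, mul_comm ((9 : ℤ) ^ b) 9] at h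
    have h' : (9 : ℤ) ^ b ∣ N z' + N w' := Int.dvd_of_mul_dvd_mul_left (by norm_num) h
    obtain ⟨⟨z'', hz⟩, ⟨w'', hw⟩⟩ := ih h'
    exact ⟨⟨z'', by rw [hz]; ring⟩, ⟨w'', by rw [hw]; ring⟩⟩

section

set_option linter.unusedSectionVars false

variable {H : Type} [AddCommGroup H] [Fintype H] [DecidableEq H]

lemma cc_eq_zero_of_four (ℓ : H → ZMod 16) (hℓ4 : ∀ x, 4 * ℓ x = 0) (u : H → E) (s : ZMod 16)
    (hs : 4 * s ≠ 0) : cc ℓ u s = 0 := by
  have h1 : ∀ t : ZMod 16, 4 * t ≠ 0 → push ℓ u t = 0 := by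
    intro t ht
    unfold push
    refine sum_eq_zero fun x _ => ?_
    rw [if_neg]
    rintro rfl
    exact ht (hℓ4 x)
  have h2 : 4 * (s + 8) ≠ 0 := by
    have : ∀ s : ZMod 16, 4 * s ≠ 0 → 4 * (s + 8) ≠ 0 := by decide
    exact this s hs
  rw [cc, h1 s hs, h1 _ h2, sub_zero]

lemma four_cases : ∀ s : ZMod 16, 4 * s = 0 → s = 0 ∨ s = 4 ∨ s = 8 ∨ s = 12 := by decide

lemma four_sum (ℓ : H → ZMod 16) (hℓ4 : ∀ x, 4 * ℓ x = 0) (u : H → E) :
    ∑ s, cc ℓ u s * star (cc ℓ u s) = ((2 * (N (cc ℓ u 0) + N (cc ℓ u 4)) : ℤ) : E) := by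
  rw [star_sum_mul_eq]
  congr 1
  have h8 : N (cc ℓ u 8) = N (cc ℓ u 0) := by
    have := cc_anti ℓ u 0
    rw [zero_add] at this
    rw [this]
    simp [N]
  have h12 : N (cc ℓ u 12) = N (cc ℓ u 4) := by
    have := cc_anti ℓ u 4
    rw [show (4 + 8 : ZMod 16) = 12 by decide] at this
    rw [this]
    simp [N]
  have hsub : ∑ s : ZMod 16, N (cc ℓ u s) = ∑ s ∈ ({0, 4, 8, 12} : Finset (ZMod 16)), N (cc ℓ u s) := by
    symm
    refine sum_subset (subset_univ _) fun s _ hs => ?_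
    rw [cc_eq_zero_of_four ℓ hℓ4 u s, N_eq_zero_iff]
    intro h
    apply hs
    rcases four_cases s h with h | h | h | h <;> simp [h]
  rw [hsub, sum_insert (by decide), sum_insert (by decide), sum_insert (by decide), sum_singleton,
    h8, h12]
  ring

end

theorem M3_main {H : Type} [AddCommGroup H] [Fintype H] [DecidableEq H] {R : Type}
    (ℓ : H → ZMod 16) (hℓ4 : ∀ x, 4 * ℓ x = 0) (u : R → H → E) (h b : ℕ)
    (hact : Act ℓ u (h * 9 ^ b)) : ∀ r s, ∃ w, cc ℓ (u r) s = 3 ^ b * w := by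
  obtain ⟨r0, h1, _, h3⟩ := hact
  intro r s
  by_cases hr : r = r0
  · subst hr
    by_cases hs : 4 * s = 0
    · have h4 := h3 0
      simp only [add_zero, if_true] at h4
      rw [four_sum ℓ hℓ4] at h4
      have h5 : (2 * (N (cc ℓ (u r) 0) + N (cc ℓ (u r) 4)) : ℤ) = 2 * (h * 9 ^ b) := by
        exact_mod_cast h4
      have h6 : (9 : ℤ) ^ b ∣ N (cc ℓ (u r) 0) + N (cc ℓ (u r) 4) := by
        refine ⟨h, ?_⟩
        have : (N (cc ℓ (u r) 0) + N (cc ℓ (u r) 4)) = h * 9 ^ b := by linarith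
        rw [this]; ring
      obtain ⟨⟨z, hz⟩, ⟨w, hw⟩⟩ := pow_dvd_of_pow_dvd b h6
      have h8 := cc_anti ℓ (u r) 0
      rw [zero_add] at h8
      have h12 := cc_anti ℓ (u r) 4
      rw [show (4 + 8 : ZMod 16) = 12 by decide] at h12
      rcases four_cases s hs with rfl | rfl | rfl | rfl
      · exact ⟨z, hz⟩
      · exact ⟨w, hw⟩
      · exact ⟨-z, by rw [h8, hz]; ring⟩
      · exact ⟨-w, by rw [h12, hw]; ring⟩
    · exact ⟨0, by rw [cc_eq_zero_of_four ℓ hℓ4 _ s hs]; ring⟩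
  · exact ⟨0, by rw [h1 r hr s]; ring⟩

/-- Cauchy–Schwarz for the norm form. -/
lemma N_sum_le {ι : Type*} (s : Finset ι) (f : ι → E) :
    N (∑ i ∈ s, f i) ≤ s.card * ∑ i ∈ s, N (f i) := by
  have hre : (∑ i ∈ s, f i).re = ∑ i ∈ s, (f i).re := by
    classical
    induction s using Finset.induction_on with
    | empty => simp
    | insert a s ha ih => rw [sum_insert ha, sum_insert ha, QuadraticAlgebra.re_add, ih]
  have him : (∑ i ∈ s, f i).im = ∑ i ∈ s, (f i).im := by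
    clear hre
    classical
    induction s using Finset.induction_on with
    | empty => simp
    | insert a s ha ih => rw [sum_insert ha, sum_insert ha, QuadraticAlgebra.im_add, ih]
  have e : ∀ z : E, 4 * N z = (2 * z.re - z.im) ^ 2 + 3 * z.im ^ 2 := by
    intro z; unfold N; ring
  have c1 := sq_sum_le_card_mul_sum_sq (s := s) (f := fun i => 2 * (f i).re - (f i).im)
  have c2 := sq_sum_le_card_mul_sum_sq (s := s) (f := fun i => (f i).im)
  have e1 : 4 * N (∑ i ∈ s, f i) = (∑ i ∈ s, (2 * (f i).re - (f i).im)) ^ 2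
      + 3 * (∑ i ∈ s, (f i).im) ^ 2 := by
    rw [e, hre, him, sum_sub_distrib, mul_sum]
  have e2 : 4 * ∑ i ∈ s, N (f i) = ∑ i ∈ s, (2 * (f i).re - (f i).im) ^ 2
      + 3 * ∑ i ∈ s, (f i).im ^ 2 := by
    rw [mul_sum, sum_congr rfl (fun i _ => e (f i)), sum_add_distrib, mul_sum]
  nlinarith [c1, c2]

set_option linter.unusedVariables false in
/-- General direct argument: if the family `ℓ` consists of characters of order dividing 4, has
kernel function `m · [d ∈ K0]`, and `(#K0)² 9^L < 9^b`, then there is a contradiction. -/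
theorem M3_low {H : Type} [AddCommGroup H] [Fintype H] [DecidableEq H] {R : Type}
    {ι : Type} [Fintype ι] [Nonempty ι] (ℓ : ι → H → ZMod 16)
    (hℓ : ∀ i x y, ℓ i (x + y) = ℓ i x + ℓ i y) (hℓ4 : ∀ i x, 4 * ℓ i x = 0)
    (K0 : Finset H) (m : ℕ) (hm : Nat.Coprime m 3) (hm0 : m ≠ 0)
    (hkap : ∀ d, kap ℓ d = if d ∈ K0 then (m : ℤ) else 0)
    (u : R → H → E) (L b h : ℕ) (hh : h ≠ 0) (hLb : (K0.card : ℤ) ^ 2 * 9 ^ L < 9 ^ b)
    (h2 : ∀ r x, ∃ g, u r x = 2 * g) (hN : ∀ r x, N (u r x) ≤ 4 * 9 ^ L)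
    (hact : ∀ i, Act (ℓ i) u (h * 9 ^ b)) : False := by
  -- the local sums
  have hU : ∀ r x, ∑ y, kap ℓ (y - x) • u r y = (m : ℤ) • ∑ k ∈ K0, u r (x + k) := by
    intro r x
    have e1 : ∑ y, kap ℓ (y - x) • u r y = ∑ k, kap ℓ k • u r (x + k) := by
      rw [← Equiv.sum_comp (Equiv.addLeft x) (fun y => kap ℓ (y - x) • u r y)]
      refine sum_congr rfl fun k _ => ?_
      simp
    rw [e1, smul_sum]
    have e2 : ∀ k, kap ℓ k • u r (x + k) = if k ∈ K0 then (m : ℤ) • u r (x + k) else 0 := by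
      intro k
      rw [hkap]
      split_ifs <;> simp
    rw [sum_congr rfl (fun k _ => e2 k), sum_ite_mem, univ_inter]
  have hU0 : ∀ r x, ∑ k ∈ K0, u r (x + k) = 0 := by
    intro r x
    set U := ∑ k ∈ K0, u r (x + k) with hUdef
    -- divisibility by `3 ^ b`
    have hG := G1 ℓ hℓ (u r) x
    rw [hU r x] at hG
    choose w hw using fun i => M3_main (ℓ i) (hℓ4 i) u h b (hact i) r (ℓ i x)
    rw [sum_congr rfl (fun i _ => hw i), ← mul_sum] at hG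
    have hd : ((3 : ℤ) ^ b ∣ ((m : ℤ) • U).re) ∧ ((3 : ℤ) ^ b ∣ ((m : ℤ) • U).im) := by
      rw [← int_dvd_iff]
      exact ⟨∑ i, w i, by rw [← hG]; push_cast; rfl⟩
    have hco : IsCoprime ((3 : ℤ) ^ b) (m : ℤ) := by
      apply IsCoprime.pow_left
      have := Nat.isCoprime_iff_coprime.2 hm.symm
      exact_mod_cast this
    have hd' : (3 : ℤ) ^ b ∣ U.re ∧ (3 : ℤ) ^ b ∣ U.im := by
      constructor
      · refine hco.dvd_of_dvd_mul_left ?_
        simpa using hd.1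
      · refine hco.dvd_of_dvd_mul_left ?_
        simpa using hd.2
    -- divisibility by `2`
    have h2' : (2 : ℤ) ∣ U.re ∧ (2 : ℤ) ∣ U.im := by
      rw [← int_dvd_iff]
      choose g hg using fun k => h2 r (x + k)
      exact ⟨∑ k ∈ K0, g k, by rw [hUdef, sum_congr rfl (fun k _ => hg k), ← mul_sum]; push_cast; rfl⟩
    have hco2 : IsCoprime (2 : ℤ) ((3 : ℤ) ^ b) := by
      apply IsCoprime.pow_right
      exact (Int.isCoprime_iff_gcd_eq_one.2 (by norm_num))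
    have h6 : (2 * 3 ^ b : ℤ) ∣ U.re ∧ (2 * 3 ^ b : ℤ) ∣ U.im :=
      ⟨hco2.mul_dvd h2'.1 hd'.1, hco2.mul_dvd h2'.2 hd'.2⟩
    rw [← int_dvd_iff] at h6
    obtain ⟨v, hv⟩ := h6
    have hNU : N U = 4 * 9 ^ b * N v := by
      rw [hv, N_intMul]
      have : (9 : ℤ) ^ b = (3 ^ b) ^ 2 := by rw [← pow_mul, mul_comm, pow_mul]; norm_num
      rw [this]; ring
    have hNle : N U ≤ 4 * ((K0.card : ℤ) ^ 2 * 9 ^ L) := by
      calc N U ≤ K0.card * ∑ k ∈ K0, N (u r (x + k)) := N_sum_le K0 _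
        _ ≤ K0.card * ∑ k ∈ K0, (4 * 9 ^ L : ℤ) := by
            refine mul_le_mul_of_nonneg_left (sum_le_sum fun k _ => hN r (x + k)) (by positivity)
        _ = 4 * ((K0.card : ℤ) ^ 2 * 9 ^ L) := by
            rw [sum_const, nsmul_eq_mul]; ring
    have hv0 : N v = 0 := by
      have h9 : (0 : ℤ) < 9 ^ b := by positivity
      have hlt : 4 * 9 ^ b * N v < 4 * 9 ^ b * 1 := by
        rw [← hNU]; linarith
      have := lt_of_mul_lt_mul_left hlt (by positivity)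
      have := N_nonneg v
      omega
    rw [N_eq_zero_iff] at hv0
    rw [hv, hv0, mul_zero]
  -- energy
  obtain ⟨i0⟩ := ‹Nonempty ι›
  obtain ⟨r0, _, _, h3⟩ := hact i0
  have hE := G2 ℓ hℓ (u r0)
  have hz : ∑ x, (∑ y, kap ℓ (y - x) • u r0 y) * star (u r0 x) = 0 := by
    refine sum_eq_zero fun x _ => ?_
    rw [hU, hU0, smul_zero, zero_mul]
  rw [hz, mul_zero, sum_congr rfl (fun i _ => star_sum_mul_eq (cc (ℓ i) (u r0)))] at hE
  have hE' : ∑ i, ∑ s, N (cc (ℓ i) (u r0) s) = 0 := by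
    have : ((∑ i, ∑ s, N (cc (ℓ i) (u r0) s) : ℤ) : E) = ((0 : ℤ) : E) := by
      rw [Int.cast_sum, hE]; simp
    exact_mod_cast this
  have hE0 : ∑ s, N (cc (ℓ i0) (u r0) s) = 0 :=
    (sum_eq_zero_iff_of_nonneg (fun i _ => sum_nonneg fun s _ => N_nonneg _)).1 hE' i0 (mem_univ _)
  have h4 := h3 0
  simp only [add_zero, if_true] at h4
  rw [star_sum_mul_eq, hE0] at h4
  have h5 : (0 : ℤ) = 2 * (h * 9 ^ b) := by exact_mod_cast h4
  have h9 : (0 : ℤ) < 9 ^ b := by positivity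
  have hh' : (0 : ℤ) < h := by positivity
  have : (0 : ℤ) < h * 9 ^ b := by positivity
  linarith


/-- `x ↦ 8 * (x mod 2)`. -/
private lemma add8 : ∀ a b : ZMod 2, 8 * (((a + b).val : ℕ) : ZMod 16)
    = 8 * ((a.val : ℕ) : ZMod 16) + 8 * ((b.val : ℕ) : ZMod 16) := by decide

private lemma add4 : ∀ a b : ZMod 4, 4 * (((a + b).val : ℕ) : ZMod 16)
    = 4 * ((a.val : ℕ) : ZMod 16) + 4 * ((b.val : ℕ) : ZMod 16) := by decide

private lemma four8 : ∀ a : ZMod 2, 4 * (8 * ((a.val : ℕ) : ZMod 16)) = 0 := by decide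

private lemma four4 : ∀ a : ZMod 4, 4 * (4 * ((a.val : ℕ) : ZMod 16)) = 0 := by decide

private lemma pow_lt_of (L b : ℕ) (hLb : L + 1 ≤ b) : (4 : ℤ) * 9 ^ L < 9 ^ b := by
  have h1 : (9 : ℤ) ^ (L + 1) ≤ 9 ^ b := pow_le_pow_right₀ (by norm_num) hLb
  have h2 : (0 : ℤ) < 9 ^ L := by positivity
  rw [pow_succ] at h1
  linarith

theorem M3_22 {R : Type} (u : R → ZMod 2 × ZMod 2 → E) (L b : ℕ) (hLb : L + 1 ≤ b)
    (h2 : ∀ r x, ∃ g, u r x = 2 * g) (hN : ∀ r x, N (u r x) ≤ 4 * 9 ^ L)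
    (hact : ∀ ℓ : ZMod 2 × ZMod 2 → ZMod 16, (∀ x y, ℓ (x + y) = ℓ x + ℓ y) →
      Act ℓ u (4 * 9 ^ b)) : False := by
  let ell : ZMod 2 × ZMod 2 → ZMod 2 × ZMod 2 → ZMod 16 :=
    fun p x => 8 * (((p.1 * x.1 + p.2 * x.2).val : ℕ) : ZMod 16)
  have hell : ∀ p x y, ell p (x + y) = ell p x + ell p y := by
    intro p x y
    simp only [ell, Prod.fst_add, Prod.snd_add]
    rw [← add8]
    congr 3
    ring
  have hkap : ∀ d, kap ell d = if d ∈ ({0} : Finset (ZMod 2 × ZMod 2)) then ((4 : ℕ) : ℤ) else 0 := by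
    unfold kap
    decide
  have hlt := pow_lt_of L b hLb
  have h0 : (0 : ℤ) < 9 ^ L := by positivity
  refine M3_low ell hell (fun p x => four8 _) {0} 4 (by norm_num) (by norm_num) hkap u L b 4
    (by norm_num) ?_ h2 hN ?_
  · rw [card_singleton]; push_cast; linarith
  · intro p
    have := hact (ell p) (hell p)
    exact_mod_cast this

theorem M3_14 {R : Type} (u : R → ZMod 1 × ZMod 4 → E) (L b : ℕ) (hLb : L + 1 ≤ b)
    (h2 : ∀ r x, ∃ g, u r x = 2 * g) (hN : ∀ r x, N (u r x) ≤ 4 * 9 ^ L)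
    (hact : ∀ ℓ : ZMod 1 × ZMod 4 → ZMod 16, (∀ x y, ℓ (x + y) = ℓ x + ℓ y) →
      Act ℓ u (4 * 9 ^ b)) : False := by
  let ell : ZMod 4 → ZMod 1 × ZMod 4 → ZMod 16 :=
    fun p x => 4 * (((p * x.2).val : ℕ) : ZMod 16)
  have hell : ∀ p x y, ell p (x + y) = ell p x + ell p y := by
    intro p x y
    simp only [ell, Prod.snd_add]
    rw [← add4]
    congr 3
    ring
  have hkap : ∀ d, kap ell d = if d ∈ ({0} : Finset (ZMod 1 × ZMod 4)) then ((4 : ℕ) : ℤ) else 0 := by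
    unfold kap
    decide
  have hlt := pow_lt_of L b hLb
  have h0 : (0 : ℤ) < 9 ^ L := by positivity
  refine M3_low ell hell (fun p x => four4 _) {0} 4 (by norm_num) (by norm_num) hkap u L b 4
    (by norm_num) ?_ h2 hN ?_
  · rw [card_singleton]; push_cast; linarith
  · intro p
    have := hact (ell p) (hell p)
    exact_mod_cast this

theorem M3_44 {R : Type} (u : R → ZMod 4 × ZMod 4 → E) (L b : ℕ) (hLb : L + 1 ≤ b)
    (h2 : ∀ r x, ∃ g, u r x = 2 * g) (hN : ∀ r x, N (u r x) ≤ 4 * 9 ^ L)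
    (hact : ∀ ℓ : ZMod 4 × ZMod 4 → ZMod 16, (∀ x y, ℓ (x + y) = ℓ x + ℓ y) →
      Act ℓ u (16 * 9 ^ b)) : False := by
  let ell : ZMod 4 × ZMod 4 → ZMod 4 × ZMod 4 → ZMod 16 :=
    fun p x => 4 * (((p.1 * x.1 + p.2 * x.2).val : ℕ) : ZMod 16)
  have hell : ∀ p x y, ell p (x + y) = ell p x + ell p y := by
    intro p x y
    simp only [ell, Prod.fst_add, Prod.snd_add]
    rw [← add4]
    congr 3
    ring
  have hkap : ∀ d, kap ell d = if d ∈ ({0} : Finset (ZMod 4 × ZMod 4)) then ((16 : ℕ) : ℤ) else 0 := by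
    unfold kap
    decide
  have hlt := pow_lt_of L b hLb
  have h0 : (0 : ℤ) < 9 ^ L := by positivity
  refine M3_low ell hell (fun p x => four4 _) {0} 16 (by norm_num) (by norm_num) hkap u L b 16
    (by norm_num) ?_ h2 hN ?_
  · rw [card_singleton]; push_cast; linarith
  · intro p
    have := hact (ell p) (hell p)
    exact_mod_cast this

theorem M3_28 {R : Type} (u : R → ZMod 2 × ZMod 8 → E) (L b : ℕ) (hLb : L + 1 ≤ b)
    (h2 : ∀ r x, ∃ g, u r x = 2 * g) (hN : ∀ r x, N (u r x) ≤ 4 * 9 ^ L)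
    (hact : ∀ ℓ : ZMod 2 × ZMod 8 → ZMod 16, (∀ x y, ℓ (x + y) = ℓ x + ℓ y) →
      Act ℓ u (16 * 9 ^ b)) : False := by
  let ell : ZMod 2 × ZMod 4 → ZMod 2 × ZMod 8 → ZMod 16 :=
    fun p x => ell28 p.1 (2 * ((p.2.val : ℕ) : ZMod 8)) x
  have hell : ∀ p x y, ell p (x + y) = ell p x + ell p y := by
    intro p x y
    exact ell28_add _ _ _ _
  have h4 : ∀ (p : ZMod 4) (x : ZMod 8),
      4 * (2 * ((((2 * ((p.val : ℕ) : ZMod 8)) * x).val : ℕ) : ZMod 16)) = 0 := by decide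
  have hell4 : ∀ p x, 4 * ell p x = 0 := by
    intro p x
    simp only [ell, ell28, mul_add]
    rw [four8, h4, add_zero]
  have hkap : ∀ d, kap ell d
      = if d ∈ ({(0, 0), (0, 4)} : Finset (ZMod 2 × ZMod 8)) then ((8 : ℕ) : ℤ) else 0 := by
    unfold kap
    decide
  have hlt := pow_lt_of L b hLb
  refine M3_low ell hell hell4 {(0, 0), (0, 4)} 8 (by norm_num) (by norm_num) hkap u L b 16
    (by norm_num) ?_ h2 hN ?_
  · rw [card_pair (by decide)]; push_cast; linarith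
  · intro p
    have := hact (ell p) (hell p)
    exact_mod_cast this

end MP82
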