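import Pool.Agent.Lib.MP_82ec8b_co.M2
import Pool.Agent.Lib.MP_82ec8b_co.M3

namespace MP82
open Finset

namespace M4a

set_option linter.unusedSectionVars false

abbrev H8 := ZMod 8 × ZMod 8

def K8 : Finset H8 := {(0, 0), (0, 4), (4, 0), (4, 4)}

def L0 (i : Fin 4 × Fin 4) : H8 → ZMod 16 := ell8 (2 * (i.1.val : ZMod 8)) (2 * (i.2.val : ZMod 8))
def L1 (i : Fin 4) : H8 → ZMod 16 := ell8 1 (2 * (i.val : ZMod 8))
def L2 (i : Fin 4) : H8 → ZMod 16 := ell8 (2 * (i.val : ZMod 8)) 1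
def L3 (i : Fin 4) : H8 → ZMod 16 := ell8 1 (2 * (i.val : ZMod 8) + 1)

set_option maxRecDepth 100000 in
lemma kap0 : ∀ d : H8, kap L0 d = if d ∈ K8 then 16 else 0 := by decide +kernel
lemma kap1 : ∀ d : H8, kap L1 d = if d ∈ K8 then (if d.1 = 0 then 4 else -4) else 0 := by
  decide +kernel
lemma kap2 : ∀ d : H8, kap L2 d = if d ∈ K8 then (if d.2 = 0 then 4 else -4) else 0 := by
  decide +kernel
lemma kap3 : ∀ d : H8, kap L3 d = if d ∈ K8 then (if d.1 = d.2 then 4 else -4) else 0 := by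
  decide +kernel

lemma kaptot : ∀ d : H8, kap L0 d + 4 * kap L1 d + 4 * kap L2 d + 4 * kap L3 d
    = if d = 0 then 64 else 0 := by
  intro d
  rw [kap0, kap1, kap2, kap3]
  revert d
  decide +kernel

lemma cast_mul_re (a : ℤ) (z : E) : ((a : E) * z).re = a * z.re := by
  simp
lemma cast_mul_im (a : ℤ) (z : E) : ((a : E) * z).im = a * z.im := by
  simp

lemma ofNat_mul_re (n : ℕ) [n.AtLeastTwo] (z : E) : ((OfNat.ofNat n : E) * z).re = (OfNat.ofNat n : ℤ) * z.re := by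
  have : (OfNat.ofNat n : E) = (((OfNat.ofNat n : ℤ)) : E) := by simp
  rw [this, cast_mul_re]
lemma ofNat_mul_im (n : ℕ) [n.AtLeastTwo] (z : E) : ((OfNat.ofNat n : E) * z).im = (OfNat.ofNat n : ℤ) * z.im := by
  have : (OfNat.ofNat n : E) = (((OfNat.ofNat n : ℤ)) : E) := by simp
  rw [this, cast_mul_im]

lemma cancel8 {z w : E} (h : 8 * z = 8 * w) : z = w := by
  have h1 := congrArg QuadraticAlgebra.re h
  have h2 := congrArg QuadraticAlgebra.im h
  rw [ofNat_mul_re, ofNat_mul_re] at h1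
  rw [ofNat_mul_im, ofNat_mul_im] at h2
  ext
  · simpa using h1
  · simpa using h2

lemma intCast_inj {a b : ℤ} (h : (a : E) = (b : E)) : a = b := by
  have := congrArg QuadraticAlgebra.re h
  simpa using this

lemma ksum {ι : Type} [Fintype ι] (ℓ : ι → H8 → ZMod 16) (c : H8 → ℤ)
    (hc : ∀ d, kap ℓ d = if d ∈ K8 then c d else 0) (u : H8 → E) (x : H8) :
    ∑ y, kap ℓ (y - x) • u y = ∑ k ∈ K8, c k • u (x + k) := by
  rw [← Equiv.sum_comp (Equiv.addLeft x) (fun y => kap ℓ (y - x) • u y)]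
  simp only [Equiv.coe_addLeft, add_sub_cancel_left, hc]
  rw [← Finset.sum_filter_add_sum_filter_not univ (fun k => k ∈ K8)]
  have h1 : ∑ k ∈ univ.filter (fun k => ¬ k ∈ K8), (if k ∈ K8 then c k else 0) • u (x + k) = 0 := by
    apply Finset.sum_eq_zero
    intro k hk
    rw [Finset.mem_filter] at hk
    rw [if_neg hk.2, zero_smul]
  rw [h1, add_zero]
  have h2 : univ.filter (fun k : H8 => k ∈ K8) = K8 := by ext; simp
  rw [h2]
  refine Finset.sum_congr rfl fun k hk => ?_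
  rw [if_pos hk]

lemma K8sum (f : H8 → E) : ∑ k ∈ K8, f k = f (0, 0) + f (0, 4) + f (4, 0) + f (4, 4) := by
  unfold K8
  rw [Finset.sum_insert (by decide), Finset.sum_insert (by decide), Finset.sum_insert (by decide),
    Finset.sum_singleton]
  ring


lemma ell8_even (p q : ZMod 8) (x : H8) (s : ZMod 16) (hs : (s.val : ZMod 2) = 1) :
    ell8 p q x ≠ s := by
  intro h
  have key : ∀ (v : ZMod 8), (((2 * ((v.val : ℕ) : ZMod 16) : ZMod 16)).val : ZMod 2) = 0 := by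
    decide
  have := key (p * x.1 + q * x.2)
  rw [ell8] at h
  rw [h, hs] at this
  exact absurd this (by decide)

lemma cc_odd (p q : ZMod 8) (u : H8 → E) (s : ZMod 16) (hs : (s.val : ZMod 2) = 1) :
    cc (ell8 p q) u s = 0 := by
  have hs' : ((s + 8).val : ZMod 2) = 1 := by
    revert s; decide
  unfold cc push
  rw [Finset.sum_eq_zero, Finset.sum_eq_zero, sub_zero]
  · intro x _
    rw [if_neg (ell8_even p q x _ hs')]
  · intro x _
    rw [if_neg (ell8_even p q x _ hs)]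

/-- the data extracted from `M2_main` -/
structure Dat {R : Type} (u : R → H8 → E) (b : ℕ) (r0 : ZMod 8 → ZMod 8 → R)
    (Y : ZMod 8 → ZMod 8 → R → ZMod 16 → E) : Prop where
  cc8 : ∀ p q r s, cc (ell8 p q) (u r) s = 8 * Y p q r s
  anti : ∀ p q r s, Y p q r (s + 8) = - Y p q r s
  zero : ∀ p q r, r ≠ r0 p q → ∀ s, Y p q r s = 0
  nsum : ∀ p q, ∑ s, N (Y p q (r0 p q) s) = 2 * 9 ^ b
  rsum : ∀ p q, red (Y p q (r0 p q) 0) + red (Y p q (r0 p q) 2) + red (Y p q (r0 p q) 4)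
    + red (Y p q (r0 p q) 6) ≠ 0

lemma exists_dat {R : Type} (u : R → H8 → E) (b : ℕ)
    (hact : ∀ p q : ZMod 8, Act (ell8 p q) u (64 * 9 ^ b)) :
    ∃ r0 Y, Dat u b r0 Y := by
  choose r0 ε Y hε h8 hanti hzero hsupp hsum hred hodd hnz using
    fun p q => M2_main (ell8 p q) u b (hact p q)
  refine ⟨r0, Y, h8, hanti, hzero, hsum, ?_⟩
  intro p q
  rcases hε p q with h | h
  · have := hred p q
    rw [h] at this
    simpa using this
  · exfalso
    have hz : ∀ s : ZMod 16, (s.val : ZMod 2) = 1 → Y p q (r0 p q) s = 0 := by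
      intro s hs
      apply cancel8
      rw [← h8, cc_odd p q _ s hs, mul_zero]
    have := hred p q
    rw [h, hz 1 (by decide), hz (1 + 2) (by decide), hz (1 + 4) (by decide),
      hz (1 + 6) (by decide)] at this
    simp at this

section
variable {R : Type} [Fintype R] [DecidableEq R] {u : R → H8 → E} {b : ℕ}
  {r0 : ZMod 8 → ZMod 8 → R} {Y : ZMod 8 → ZMod 8 → R → ZMod 16 → E}

lemma N_8 (z : E) : N (8 * z) = 64 * N z := by
  have : (8 : E) * z = ((8 : ℤ) : E) * z := by simp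
  rw [this, N_intMul]; norm_num

lemma energy (D : Dat u b r0 Y) (p q : ZMod 8) (r : R) :
    ∑ s, N (cc (ell8 p q) (u r) s) = if r0 p q = r then 128 * 9 ^ b else 0 := by
  simp only [D.cc8, N_8, ← Finset.mul_sum]
  split_ifs with h
  · subst h
    rw [D.nsum]; ring
  · rw [Finset.sum_eq_zero, mul_zero]
    intro s _
    rw [D.zero p q r (fun h' => h h'.symm)]
    simp [N]

/-- number of active members of a family -/
def cnt {ι : Type} [Fintype ι] (f : ι → R) (r : R) : ℕ := (univ.filter (fun i => f i = r)).card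

lemma cnt_sum {ι : Type} [Fintype ι] (f : ι → R) : ∑ r, cnt f r = Fintype.card ι := by
  unfold cnt
  rw [← Finset.card_univ]
  exact (Finset.card_eq_sum_card_fiberwise (fun i _ => Finset.mem_univ (f i))).symm

lemma energy_fam {ι : Type} [Fintype ι] (D : Dat u b r0 Y) (P Q : ι → ZMod 8) (r : R) :
    ∑ i, ∑ s, N (cc (ell8 (P i) (Q i)) (u r) s)
      = 128 * 9 ^ b * (cnt (fun i => r0 (P i) (Q i)) r : ℤ) := by
  simp only [energy D]
  rw [Finset.sum_ite, Finset.sum_const_zero, add_zero, Finset.sum_const, cnt]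
  simp; ring


def n0 (r0 : ZMod 8 → ZMod 8 → R) (r : R) : ℕ :=
  cnt (fun i : Fin 4 × Fin 4 => r0 (2 * (i.1.val : ZMod 8)) (2 * (i.2.val : ZMod 8))) r
def n1 (r0 : ZMod 8 → ZMod 8 → R) (r : R) : ℕ :=
  cnt (fun i : Fin 4 => r0 1 (2 * (i.val : ZMod 8))) r
def n2 (r0 : ZMod 8 → ZMod 8 → R) (r : R) : ℕ :=
  cnt (fun i : Fin 4 => r0 (2 * (i.val : ZMod 8)) 1) r
def n3 (r0 : ZMod 8 → ZMod 8 → R) (r : R) : ℕ :=
  cnt (fun i : Fin 4 => r0 1 (2 * (i.val : ZMod 8) + 1)) r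

lemma L0_add (i : Fin 4 × Fin 4) (x y : H8) : L0 i (x + y) = L0 i x + L0 i y := ell8_add _ _ _ _
lemma L1_add (i : Fin 4) (x y : H8) : L1 i (x + y) = L1 i x + L1 i y := ell8_add _ _ _ _
lemma L2_add (i : Fin 4) (x y : H8) : L2 i (x + y) = L2 i x + L2 i y := ell8_add _ _ _ _
lemma L3_add (i : Fin 4) (x y : H8) : L3 i (x + y) = L3 i x + L3 i y := ell8_add _ _ _ _

lemma fam_eq {ι : Type} [Fintype ι] (ℓ : ι → H8 → ZMod 16)
    (hℓ : ∀ i x y, ℓ i (x + y) = ℓ i x + ℓ i y) (v : H8 → E) :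
    ((∑ i, ∑ s, N (cc (ℓ i) v s) : ℤ) : E)
      = 2 * ∑ x, (∑ y, kap ℓ (y - x) • v y) * star (v x) := by
  rw [← G2 ℓ hℓ v, Int.cast_sum]
  refine Finset.sum_congr rfl fun i _ => ?_
  rw [star_sum_mul_eq]

lemma energy_tot (D : Dat u b r0 Y) (r : R) :
    128 * 9 ^ b * ((n0 r0 r + 4 * (n1 r0 r + n2 r0 r + n3 r0 r) : ℕ) : ℤ)
      = 128 * ∑ x, N (u r x) := by
  have e0 := fam_eq L0 L0_add (u r)
  have e1 := fam_eq L1 L1_add (u r)
  have e2 := fam_eq L2 L2_add (u r)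
  have e3 := fam_eq L3 L3_add (u r)
  have f0 : ∑ i, ∑ s, N (cc (L0 i) (u r) s) = 128 * 9 ^ b * (n0 r0 r : ℤ) :=
    energy_fam D (fun i : Fin 4 × Fin 4 => 2 * (i.1.val : ZMod 8))
      (fun i => 2 * (i.2.val : ZMod 8)) r
  have f1 : ∑ i, ∑ s, N (cc (L1 i) (u r) s) = 128 * 9 ^ b * (n1 r0 r : ℤ) :=
    energy_fam D (fun _ : Fin 4 => 1) (fun i => 2 * (i.val : ZMod 8)) r
  have f2 : ∑ i, ∑ s, N (cc (L2 i) (u r) s) = 128 * 9 ^ b * (n2 r0 r : ℤ) :=
    energy_fam D (fun i : Fin 4 => 2 * (i.val : ZMod 8)) (fun _ => 1) r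
  have f3 : ∑ i, ∑ s, N (cc (L3 i) (u r) s) = 128 * 9 ^ b * (n3 r0 r : ℤ) :=
    energy_fam D (fun _ : Fin 4 => 1) (fun i => 2 * (i.val : ZMod 8) + 1) r
  rw [f0] at e0
  rw [f1] at e1
  rw [f2] at e2
  rw [f3] at e3
  apply intCast_inj
  have key : ∀ x, (∑ y, kap L0 (y - x) • u r y) + 4 * (∑ y, kap L1 (y - x) • u r y)
      + 4 * (∑ y, kap L2 (y - x) • u r y) + 4 * (∑ y, kap L3 (y - x) • u r y) = 64 * u r x := by
    intro x
    simp only [Finset.mul_sum, ← Finset.sum_add_distrib]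
    have h1 : ∀ y, kap L0 (y - x) • u r y + 4 * (kap L1 (y - x) • u r y)
        + 4 * (kap L2 (y - x) • u r y) + 4 * (kap L3 (y - x) • u r y)
        = (kap L0 (y - x) + 4 * kap L1 (y - x) + 4 * kap L2 (y - x) + 4 * kap L3 (y - x)) •
          u r y := by
      intro y
      simp only [zsmul_eq_mul]
      push_cast
      ring
    simp only [h1, kaptot]
    rw [Finset.sum_eq_single x]
    · simp
    · intro y _ hy
      rw [if_neg (sub_ne_zero.2 hy), zero_smul]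
    · intro h; exact absurd (Finset.mem_univ x) h
  have tot : ((128 * 9 ^ b * (n0 r0 r : ℤ) : ℤ) : E) + 4 * ((128 * 9 ^ b * (n1 r0 r : ℤ) : ℤ) : E)
      + 4 * ((128 * 9 ^ b * (n2 r0 r : ℤ) : ℤ) : E) + 4 * ((128 * 9 ^ b * (n3 r0 r : ℤ) : ℤ) : E)
      = 2 * ∑ x, (64 * u r x) * star (u r x) := by
    rw [e0, e1, e2, e3]
    simp only [← key, add_mul, Finset.sum_add_distrib, mul_assoc, ← Finset.mul_sum]
    ring
  have h2 : ∑ x, (64 * u r x) * star (u r x) = 64 * ((∑ x, N (u r x) : ℤ) : E) := by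
    rw [Int.cast_sum, Finset.mul_sum]
    refine Finset.sum_congr rfl fun x _ => ?_
    rw [mul_assoc, mul_star_eq]
  rw [h2] at tot
  push_cast at tot ⊢
  linear_combination tot

lemma energy_bound (D : Dat u b r0 Y) (L : ℕ) (hLb : L + 1 ≤ b)
    (hN : ∀ r x, N (u r x) ≤ 4 * 9 ^ L) (r : R) :
    n0 r0 r + 4 * (n1 r0 r + n2 r0 r + n3 r0 r) ≤ 28 := by
  have h := energy_tot D r
  have h1 : ∑ x, N (u r x) ≤ 64 * (4 * 9 ^ L) := by
    calc ∑ x, N (u r x) ≤ ∑ _x : H8, (4 * 9 ^ L : ℤ) := Finset.sum_le_sum fun x _ => hN r x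
      _ = 64 * (4 * 9 ^ L) := by
        rw [Finset.sum_const, Finset.card_univ]
        simp [H8]
  have h2 : (9 : ℤ) * 9 ^ L ≤ 9 ^ b := by
    rw [← pow_succ']
    exact pow_le_pow_right₀ (by norm_num) hLb
  have h3 : (0 : ℤ) < 9 ^ L := by positivity
  generalize n0 r0 r + 4 * (n1 r0 r + n2 r0 r + n3 r0 r) = n at *
  by_contra hn
  push Not at hn
  have h4 : (29 : ℤ) ≤ (n : ℤ) := by exact_mod_cast hn
  nlinarith [mul_le_mul h2 h4 (by norm_num) (by positivity)]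

/-- the K-sum -/
def GG (g : H8 → E) (x : H8) : E := g x + g (x + (0, 4)) + g (x + (4, 0)) + g (x + (4, 4))

lemma N_add4 (a b c d : E) : N (a + b + c + d) ≤ 4 * (N a + N b + N c + N d) := by
  have h : ∀ z w : E, N (z + w) + N (z - w) = 2 * N z + 2 * N w := by
    intro z w; simp [N]; ring
  have h1 := h (a + b) (c + d)
  have h2 := h a b
  have h3 := h c d
  have e : a + b + c + d = (a + b) + (c + d) := by ring
  rw [e]
  have p1 := N_nonneg ((a + b) - (c + d))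
  have p2 := N_nonneg (a - b)
  have p3 := N_nonneg (c - d)
  linarith

lemma three_dvd {z w : E} {b : ℕ} (h : 32 * z = 3 ^ b * w) : ∃ v, z = 3 ^ b * v := by
  have hc : (3 : E) ^ b = ((3 ^ b : ℤ) : E) := by push_cast; rfl
  have hcop : IsCoprime (3 ^ b : ℤ) 32 := by
    apply IsCoprime.pow_left
    exact ⟨11, -1, by norm_num⟩
  rw [hc] at h ⊢
  have h1 := congrArg QuadraticAlgebra.re h
  have h2 := congrArg QuadraticAlgebra.im h
  rw [ofNat_mul_re, cast_mul_re] at h1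
  rw [ofNat_mul_im, cast_mul_im] at h2
  have d1 : (3 ^ b : ℤ) ∣ z.re := hcop.dvd_of_dvd_mul_left ⟨w.re, h1⟩
  have d2 : (3 ^ b : ℤ) ∣ z.im := hcop.dvd_of_dvd_mul_left ⟨w.im, h2⟩
  obtain ⟨v1, hv1⟩ := d1
  obtain ⟨v2, hv2⟩ := d2
  refine ⟨⟨v1, v2⟩, ?_⟩
  ext
  · rw [cast_mul_re]; exact hv1
  · rw [cast_mul_im]; exact hv2

lemma L0_four (i : Fin 4 × Fin 4) (x : H8) : 4 * L0 i x = 0 := by
  have key : ∀ v : ZMod 8, 4 * (2 * (((2 * v).val : ℕ) : ZMod 16)) = 0 := by decide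
  have e : 2 * ((i.1.val : ℕ) : ZMod 8) * x.1 + 2 * ((i.2.val : ℕ) : ZMod 8) * x.2
      = 2 * (((i.1.val : ℕ) : ZMod 8) * x.1 + ((i.2.val : ℕ) : ZMod 8) * x.2) := by ring
  unfold L0 ell8
  rw [e, key]

lemma G0_dvd (b : ℕ) (u : R → H8 → E) (hact : ∀ p q : ZMod 8, Act (ell8 p q) u (64 * 9 ^ b))
    (r : R) (g : H8 → E) (hg : ∀ x, u r x = 2 * g x) (x : H8) : ∃ v, GG g x = 3 ^ b * v := by
  have h := G1 L0 L0_add (u r) x
  rw [ksum L0 (fun _ => 16) kap0, K8sum] at h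
  have h3 : ∀ i, ∃ w, cc (L0 i) (u r) (L0 i x) = 3 ^ b * w := fun i =>
    M3_main (L0 i) (L0_four i) u 64 b (by exact_mod_cast hact _ _) r _
  choose w hw using h3
  simp only [hw, ← Finset.mul_sum] at h
  refine three_dvd (w := ∑ i, w i) ?_
  rw [h]
  simp only [hg, GG, zsmul_eq_mul]
  have e0 : x + ((0, 0) : H8) = x := by
    ext <;> simp
  rw [e0]
  push_cast
  ring

lemma G0_norm (b L : ℕ) (hLb : L + 1 ≤ b) (u : R → H8 → E)
    (hact : ∀ p q : ZMod 8, Act (ell8 p q) u (64 * 9 ^ b))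
    (hN : ∀ r x, N (u r x) ≤ 4 * 9 ^ L)
    (r : R) (g : H8 → E) (hg : ∀ x, u r x = 2 * g x) (x : H8)
    (hred : red (GG g x) = 0) : GG g x = 0 := by
  obtain ⟨v, hv⟩ := G0_dvd b u hact r g hg x
  obtain ⟨w, hw⟩ := (red_eq_zero_iff _).1 hred
  have hNg : ∀ y, N (g y) ≤ 9 ^ L := by
    intro y
    have h1 := hN r y
    rw [hg y] at h1
    have : (2 : E) * g y = ((2 : ℤ) : E) * g y := by simp
    rw [this, N_intMul] at h1
    linarith
  have hb : N (GG g x) ≤ 16 * 9 ^ L := by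
    have := N_add4 (g x) (g (x + (0, 4))) (g (x + (4, 0))) (g (x + (4, 4)))
    have h1 := hNg x
    have h2 := hNg (x + (0, 4))
    have h3 := hNg (x + (4, 0))
    have h4 := hNg (x + (4, 4))
    unfold GG
    linarith
  have hv' : N (GG g x) = 9 ^ b * N v := by
    have : (3 : E) ^ b = ((3 ^ b : ℤ) : E) := by push_cast; rfl
    rw [hv, this, N_intMul, ← pow_mul, mul_comm b 2, pow_mul]
    norm_num
  have hw' : N (GG g x) = 4 * N w := by
    have : (2 : E) * w = ((2 : ℤ) : E) * w := by simp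
    rw [hw, this, N_intMul]; norm_num
  have h2 : (9 : ℤ) * 9 ^ L ≤ 9 ^ b := by
    rw [← pow_succ']
    exact pow_le_pow_right₀ (by norm_num) hLb
  have h3 : (0 : ℤ) < 9 ^ L := by positivity
  have hvn := N_nonneg v
  have hv2 : N v < 2 := by
    by_contra hh
    push Not at hh
    have : (9 : ℤ) ^ b * 2 ≤ 9 ^ b * N v := by
      apply mul_le_mul_of_nonneg_left hh (by positivity)
    linarith
  have hodd : Odd ((9 : ℤ) ^ b) := by
    apply Odd.pow; decide
  have hv0 : N v = 0 := by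
    rcases (by omega : N v = 0 ∨ N v = 1) with h | h
    · exact h
    · exfalso
      rw [h, mul_one] at hv'
      rw [hw'] at hv'
      rw [← hv'] at hodd
      rw [Int.odd_iff] at hodd
      omega
  rw [hv0, mul_zero] at hv'
  exact (N_eq_zero_iff _).1 hv'

/-- if `n0 r > 0` then `GG` is nonzero modulo 2 somewhere. -/
lemma GG_ne (D : Dat u b r0 Y) (L : ℕ) (hLb : L + 1 ≤ b)
    (hact : ∀ p q : ZMod 8, Act (ell8 p q) u (64 * 9 ^ b))
    (hN : ∀ r x, N (u r x) ≤ 4 * 9 ^ L)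
    (r : R) (g : H8 → E) (hg : ∀ x, u r x = 2 * g x) (hr : 0 < n0 r0 r) :
    ∃ x, red (GG g x) ≠ 0 := by
  by_contra hcon
  push Not at hcon
  have hG : ∀ x, GG g x = 0 := fun x => G0_norm b L hLb u hact hN r g hg x (hcon x)
  have e0 := fam_eq L0 L0_add (u r)
  have f0 : ∑ i, ∑ s, N (cc (L0 i) (u r) s) = 128 * 9 ^ b * (n0 r0 r : ℤ) :=
    energy_fam D (fun i : Fin 4 × Fin 4 => 2 * (i.1.val : ZMod 8))
      (fun i => 2 * (i.2.val : ZMod 8)) r
  rw [f0] at e0
  have hz : ∀ x, ∑ y, kap L0 (y - x) • u r y = 0 := by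
    intro x
    rw [ksum L0 (fun _ => 16) kap0, K8sum]
    have e1 : x + ((0, 0) : H8) = x := by ext <;> simp
    have := hG x
    rw [GG] at this
    simp only [hg, zsmul_eq_mul, e1]
    push_cast
    linear_combination 32 * this
  simp only [hz, zero_mul, Finset.sum_const_zero, mul_zero] at e0
  have e2 : ((128 * 9 ^ b * (n0 r0 r : ℤ) : ℤ) : E) = ((0 : ℤ) : E) := by
    rw [e0]; simp
  have e3 := intCast_inj e2
  have h9 : (0 : ℤ) < 9 ^ b := by positivity
  have hr' : (0 : ℤ) < n0 r0 r := by exact_mod_cast hr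
  have : (0 : ℤ) < 128 * 9 ^ b * (n0 r0 r : ℤ) := by positivity
  omega

lemma red_pm (a c : E) (h : a = c ∨ a = -c) : red a = red c := by
  rcases h with h | h <;> simp [h]

/-- The family identity modulo 2. -/
lemma fam_red (L : Fin 4 → H8 → ZMod 16) (P Q : Fin 4 → ZMod 8)
    (hL : ∀ i, L i = ell8 (P i) (Q i))
    (c : H8 → ℤ) (hc4 : ∀ d, c d = 4 ∨ c d = -4)
    (hc : ∀ d, kap L d = if d ∈ K8 then c d else 0)
    (D : Dat u b r0 Y) (r : R) (g : H8 → E) (hg : ∀ x, u r x = 2 * g x) (x : H8) :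
    red (GG g x) = ∑ i, red (Y (P i) (Q i) r (L i x)) := by
  have hadd : ∀ i x y, L i (x + y) = L i x + L i y := by
    intro i x y
    rw [hL]; exact ell8_add _ _ _ _
  have h := G1 L hadd (u r) x
  rw [ksum L c hc, K8sum] at h
  have e1 : ∀ i, cc (L i) (u r) (L i x) = 8 * Y (P i) (Q i) r (L i x) := by
    intro i
    rw [← D.cc8, hL]
  simp only [e1, ← Finset.mul_sum] at h
  have hσ : ∀ d, ∃ σ : ℤ, c d = 4 * σ ∧ (σ = 1 ∨ σ = -1) := by
    intro d
    rcases hc4 d with h | h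
    · exact ⟨1, by rw [h]; norm_num, Or.inl rfl⟩
    · exact ⟨-1, by rw [h]; norm_num, Or.inr rfl⟩
  choose σ hσ1 hσ2 using hσ
  have e0 : x + ((0, 0) : H8) = x := by ext <;> simp
  have h8 : ∑ i, Y (P i) (Q i) r (L i x) = (σ (0, 0) : E) * g x + (σ (0, 4) : E) * g (x + (0, 4))
      + (σ (4, 0) : E) * g (x + (4, 0)) + (σ (4, 4) : E) * g (x + (4, 4)) := by
    apply cancel8
    rw [h]
    simp only [hσ1, hg, zsmul_eq_mul, e0]
    push_cast
    ring
  have hs : ∀ d (z : E), red ((σ d : E) * z) = red z := by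
    intro d z
    rcases hσ2 d with h | h <;> simp [h]
  rw [← red_sum, h8]
  simp only [GG, red_add, hs]

lemma fam1 (D : Dat u b r0 Y) (r : R) (g : H8 → E) (hg : ∀ x, u r x = 2 * g x) (x : H8) :
    red (GG g x) = ∑ i : Fin 4, red (Y 1 (2 * (i.val : ZMod 8)) r (L1 i x)) :=
  fam_red L1 (fun _ => 1) (fun i => 2 * (i.val : ZMod 8)) (fun _ => rfl)
    (fun d => if d.1 = 0 then 4 else -4) (fun d => by split_ifs <;> simp) kap1 D r g hg x

lemma fam2 (D : Dat u b r0 Y) (r : R) (g : H8 → E) (hg : ∀ x, u r x = 2 * g x) (x : H8) :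
    red (GG g x) = ∑ i : Fin 4, red (Y (2 * (i.val : ZMod 8)) 1 r (L2 i x)) :=
  fam_red L2 (fun i => 2 * (i.val : ZMod 8)) (fun _ => 1) (fun _ => rfl)
    (fun d => if d.2 = 0 then 4 else -4) (fun d => by split_ifs <;> simp) kap2 D r g hg x

lemma fam3 (D : Dat u b r0 Y) (r : R) (g : H8 → E) (hg : ∀ x, u r x = 2 * g x) (x : H8) :
    red (GG g x) = ∑ i : Fin 4, red (Y 1 (2 * (i.val : ZMod 8) + 1) r (L3 i x)) :=
  fam_red L3 (fun _ => 1) (fun i => 2 * (i.val : ZMod 8) + 1) (fun _ => rfl)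
    (fun d => if d.1 = d.2 then 4 else -4) (fun d => by split_ifs <;> simp) kap3 D r g hg x

lemma redY_anti (D : Dat u b r0 Y) (p q : ZMod 8) (r : R) (s t : ZMod 16) (h : t = s ∨ t = s + 8) :
    red (Y p q r t) = red (Y p q r s) := by
  rcases h with h | h
  · rw [h]
  · rw [h, D.anti, red_neg]

lemma inv2 (D : Dat u b r0 Y) (r : R) (g : H8 → E) (hg : ∀ x, u r x = 2 * g x) (x : H8) :
    red (GG g (x + (0, 2))) = red (GG g x) := by
  rw [fam1 D r g hg, fam1 D r g hg]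
  refine Finset.sum_congr rfl fun i _ => ?_
  apply redY_anti D
  rw [L1_add]
  have : ∀ i : Fin 4, L1 i (0, 2) = 0 ∨ L1 i (0, 2) = 8 := by decide
  rcases this i with h | h
  · left; rw [h, add_zero]
  · right; rw [h]

lemma inv1 (D : Dat u b r0 Y) (r : R) (g : H8 → E) (hg : ∀ x, u r x = 2 * g x) (x : H8) :
    red (GG g (x + (2, 0))) = red (GG g x) := by
  rw [fam2 D r g hg, fam2 D r g hg]
  refine Finset.sum_congr rfl fun i _ => ?_
  apply redY_anti D
  rw [L2_add]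
  have : ∀ i : Fin 4, L2 i (2, 0) = 0 ∨ L2 i (2, 0) = 8 := by decide
  rcases this i with h | h
  · left; rw [h, add_zero]
  · right; rw [h]

/-- the key count: every family has at least two active members at `r`. -/
lemma two_le (L : Fin 4 → H8 → ZMod 16) (P Q : Fin 4 → ZMod 8)
    (D : Dat u b r0 Y) (r : R) (g : H8 → E)
    (hfam : ∀ x, red (GG g x) = ∑ i, red (Y (P i) (Q i) r (L i x)))
    (x0 x1 x2 x3 : H8) (he : ∀ i, L i x0 = 0 ∧ L i x1 = 2 ∧ L i x2 = 4 ∧ L i x3 = 6)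
    (h02 : red (GG g x2) = red (GG g x0)) (h13 : red (GG g x3) = red (GG g x1))
    (hne : ∃ x, red (GG g x) ≠ 0) : 2 ≤ cnt (fun i => r0 (P i) (Q i)) r := by
  by_contra hlt
  push Not at hlt
  have hlt' : cnt (fun i => r0 (P i) (Q i)) r = 0 ∨ cnt (fun i => r0 (P i) (Q i)) r = 1 := by omega
  rcases hlt' with h | h
  · rw [cnt, Finset.card_eq_zero, Finset.filter_eq_empty_iff] at h
    obtain ⟨x, hx⟩ := hne
    apply hx
    rw [hfam, Finset.sum_eq_zero]
    intro i _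
    rw [D.zero _ _ r (fun h' => h (Finset.mem_univ i) h'.symm), red_zero]
  · rw [cnt, Finset.card_eq_one] at h
    obtain ⟨i0, hi0⟩ := h
    have hact0 : r0 (P i0) (Q i0) = r := by
      have : i0 ∈ univ.filter (fun i => r0 (P i) (Q i) = r) := by rw [hi0]; simp
      exact (Finset.mem_filter.1 this).2
    have hx : ∀ x, red (GG g x) = red (Y (P i0) (Q i0) r (L i0 x)) := by
      intro x
      rw [hfam, Finset.sum_eq_single i0]
      · intro i _ hi
        have : r ≠ r0 (P i) (Q i) := by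
          intro h'
          have hm : i ∈ univ.filter (fun i => r0 (P i) (Q i) = r) :=
            Finset.mem_filter.2 ⟨Finset.mem_univ i, h'.symm⟩
          rw [hi0] at hm
          exact hi (Finset.mem_singleton.1 hm)
        rw [D.zero _ _ r this, red_zero]
      · intro h'; exact absurd (Finset.mem_univ i0) h'
    have hsum := D.rsum (P i0) (Q i0)
    rw [hact0] at hsum
    obtain ⟨a0, a1, a2, a3⟩ := he i0
    rw [hx, hx, a2, a0] at h02
    rw [hx, hx, a3, a1] at h13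
    apply hsum
    rw [h02, h13]
    generalize red (Y (P i0) (Q i0) r 0) = A
    generalize red (Y (P i0) (Q i0) r 2) = B
    revert A B
    decide

end

end M4a

open M4a in
theorem M4a {R : Type} [Fintype R] [DecidableEq R] (u : R → ZMod 8 × ZMod 8 → E) (L b : ℕ)
    (hLb : L + 1 ≤ b)
    (h2 : ∀ r x, ∃ g, u r x = 2 * g) (hN : ∀ r x, N (u r x) ≤ 4 * 9 ^ L)
    (hact : ∀ p q : ZMod 8, Act (ell8 p q) u (64 * 9 ^ b)) : False := by
  obtain ⟨r0, Y, D⟩ := exists_dat u b hact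
  choose g hg using h2
  have key : ∀ r, n0 r0 r ≤ 2 * n1 r0 r := by
    intro r
    by_cases hr : n0 r0 r = 0
    · omega
    have hne := GG_ne D L hLb hact hN r (g r) (hg r) (Nat.pos_of_ne_zero hr)
    have i1 : ∀ x y, y = x + (2, 0) → red (GG (g r) y) = red (GG (g r) x) :=
      fun x y h => h ▸ inv1 D r (g r) (hg r) x
    have i2 : ∀ x y, y = x + (0, 2) → red (GG (g r) y) = red (GG (g r) x) :=
      fun x y h => h ▸ inv2 D r (g r) (hg r) x
    have a1 := i1 (0, 0) (2, 0) (by decide)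
    have a2 := i1 (1, 0) (3, 0) (by decide)
    have a3 := i2 (0, 0) (0, 2) (by decide)
    have a4 := i2 (0, 1) (0, 3) (by decide)
    have c1 : 2 ≤ n1 r0 r := by
      refine two_le L1 (fun _ => 1) (fun i => 2 * (i.val : ZMod 8)) D r (g r)
        (fam1 D r (g r) (hg r)) (0, 0) (1, 0) (2, 0) (3, 0) ?_ a1 a2 hne
      decide
    have c2 : 2 ≤ n2 r0 r := by
      refine two_le L2 (fun i => 2 * (i.val : ZMod 8)) (fun _ => 1) D r (g r)
        (fam2 D r (g r) (hg r)) (0, 0) (0, 1) (0, 2) (0, 3) ?_ a3 a4 hne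
      decide
    have c3 : 2 ≤ n3 r0 r := by
      refine two_le L3 (fun _ => 1) (fun i => 2 * (i.val : ZMod 8) + 1) D r (g r)
        (fam3 D r (g r) (hg r)) (0, 0) (1, 0) (2, 0) (3, 0) ?_ a1 a2 hne
      decide
    have hb := energy_bound D L hLb hN r
    omega
  have s0 : ∑ r, n0 r0 r = 16 := by
    unfold n0
    rw [cnt_sum]; simp
  have s1 : ∑ r, n1 r0 r = 4 := by
    unfold n1
    rw [cnt_sum]; simp
  have : ∑ r, n0 r0 r ≤ ∑ r, 2 * n1 r0 r := Finset.sum_le_sum fun r _ => key r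
  rw [← Finset.mul_sum, s0, s1] at this
  omega

end MP82
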