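import Pool.Agent.Lib.MP_82ec8b_co.M2
import Pool.Agent.Lib.MP_82ec8b_co.M3

/-! M4b: the group `Z_4 × Z_16`. -/

namespace MP82
open Finset

namespace M4b

abbrev G := ZMod 4 × ZMod 16

/-- low family -/
def lo (i : ZMod 4 × ZMod 4) : G → ZMod 16 := ell416 i.1 (4 * ((i.2).val : ZMod 16))
/-- middle family -/
def mi (p : ZMod 4) : G → ZMod 16 := ell416 p 2
/-- top family -/
def tp (p : ZMod 4) : G → ZMod 16 := ell416 p 1

lemma kap_lo : ∀ d : G, kap lo d = (if d = (0, 0) then 16 else 0) + (if d = (0, 4) then 16 else 0)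
    + (if d = (0, 8) then 16 else 0) + (if d = (0, 12) then 16 else 0) := by
  decide +kernel

lemma kap_mi : ∀ d : G, kap mi d = (if d = (0, 0) then 4 else 0) + (if d = (0, 4) then -4 else 0)
    + (if d = (0, 8) then 4 else 0) + (if d = (0, 12) then -4 else 0) := by
  decide +kernel

lemma kap_tp : ∀ d : G, kap tp d = (if d = (0, 0) then 4 else 0) + (if d = (0, 4) then 0 else 0)
    + (if d = (0, 8) then -4 else 0) + (if d = (0, 12) then 0 else 0) := by
  decide +kernel

lemma sum_kap {f : G → ℤ} {a0 a4 a8 a12 : ℤ}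
    (hf : ∀ d : G, f d = (if d = (0, 0) then a0 else 0) + (if d = (0, 4) then a4 else 0)
      + (if d = (0, 8) then a8 else 0) + (if d = (0, 12) then a12 else 0)) (v : G → E) (x : G) :
    ∑ y, f (y - x) • v y
      = a0 • v x + a4 • v (x + (0, 4)) + a8 • v (x + (0, 8)) + a12 • v (x + (0, 12)) := by
  have h1 : ∑ y, f (y - x) • v y = ∑ d, f d • v (x + d) := by
    refine (Fintype.sum_equiv (Equiv.addLeft x) _ _ fun d => ?_).symm
    simp
  rw [h1]
  simp only [hf, add_smul, ite_smul, zero_smul, sum_add_distrib, sum_ite_eq', mem_univ, if_true]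
  congr 4
  have : ((0, 0) : G) = 0 := rfl
  rw [this, add_zero]

lemma cast_inj {a b : ℤ} (h : ((a : ℤ) : E) = ((b : ℤ) : E)) : a = b := by
  have := congrArg QuadraticAlgebra.re h
  rwa [QuadraticAlgebra.re_intCast, QuadraticAlgebra.re_intCast] at this

lemma int_mul_re (n : ℤ) (w : E) : ((n : E) * w).re = n * w.re := by simp
lemma int_mul_im (n : ℤ) (w : E) : ((n : E) * w).im = n * w.im := by simp

lemma cancel_int {n : ℤ} (hn : n ≠ 0) {z w : E} (h : (n : E) * z = (n : E) * w) : z = w := by
  ext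
  · have := congrArg QuadraticAlgebra.re h
    rw [int_mul_re, int_mul_re] at this
    exact mul_left_cancel₀ hn this
  · have := congrArg QuadraticAlgebra.im h
    rw [int_mul_im, int_mul_im] at this
    exact mul_left_cancel₀ hn this

lemma N_two (g : E) : N (2 * g) = 4 * N g := by
  have : (2 : E) = ((2 : ℤ) : E) := by norm_num
  rw [this, N_intMul]; norm_num

lemma N_four (a b c d : E) : N (a + b + c + d) ≤ 4 * (N a + N b + N c + N d) := by
  have h : ∀ x y : E, N (x + y) ≤ 2 * (N x + N y) := by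
    intro x y
    have := N_nonneg (x - y)
    simp only [N, QuadraticAlgebra.re_add, QuadraticAlgebra.im_add, QuadraticAlgebra.re_sub,
      QuadraticAlgebra.im_sub] at *
    nlinarith
  have h1 := h a b
  have h2 := h c d
  have h3 := h (a + b) (c + d)
  have h4 : a + b + c + d = (a + b) + (c + d) := by ring
  rw [h4]
  linarith

lemma div_three (b : ℕ) {z w : E} (h : 32 * z = 3 ^ b * w) : ∃ v, z = 3 ^ b * v := by
  have e3 : (3 : E) ^ b = (((3 : ℤ) ^ b : ℤ) : E) := by push_cast; rfl
  have e32 : (32 : E) = ((32 : ℤ) : E) := by norm_num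
  rw [e3, e32] at h
  have hre := congrArg QuadraticAlgebra.re h
  have him := congrArg QuadraticAlgebra.im h
  rw [int_mul_re, int_mul_re] at hre
  rw [int_mul_im, int_mul_im] at him
  have hc : IsCoprime ((3 : ℤ) ^ b) 32 := by
    apply IsCoprime.pow_left
    norm_num
  obtain ⟨x, hx⟩ := hc.dvd_of_dvd_mul_left (Dvd.intro _ hre.symm : (3 : ℤ) ^ b ∣ 32 * z.re)
  obtain ⟨y, hy⟩ := hc.dvd_of_dvd_mul_left (Dvd.intro _ him.symm : (3 : ℤ) ^ b ∣ 32 * z.im)
  refine ⟨⟨x, y⟩, ?_⟩
  rw [e3]
  ext
  · rw [int_mul_re]; exact hx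
  · rw [int_mul_im]; exact hy

/-- sum over a coset of `K = {0} × 4 Z_16` -/
def GG (g : G → E) (x : G) : E := g x + g (x + (0, 4)) + g (x + (0, 8)) + g (x + (0, 12))

lemma GG_per (g : G → E) (x : G) : GG g (x + (0, 4)) = GG g x := by
  have h1 : x + (0, 4) + (0, 4) = x + (0, 8) := by rw [add_assoc]; congr 1
  have h2 : x + (0, 4) + (0, 8) = x + (0, 12) := by rw [add_assoc]; congr 1
  have h3 : x + (0, 4) + (0, 12) = x := by
    rw [add_assoc]
    have : ((0, 4) : G) + (0, 12) = 0 := by decide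
    rw [this, add_zero]
  simp only [GG, h1, h2, h3]
  ring

lemma lo_add (i : ZMod 4 × ZMod 4) (x y : G) : lo i (x + y) = lo i x + lo i y :=
  ell416_add _ _ _ _
lemma mi_add (p : ZMod 4) (x y : G) : mi p (x + y) = mi p x + mi p y := ell416_add _ _ _ _
lemma tp_add (p : ZMod 4) (x y : G) : tp p (x + y) = tp p x + tp p y := ell416_add _ _ _ _

lemma lo_sum (g : G → E) (x : G) : ∑ i, cc (lo i) (fun x => 2 * g x) (lo i x) = 32 * GG g x := by
  rw [G1 lo lo_add, sum_kap kap_lo]
  simp only [GG, zsmul_eq_mul]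
  push_cast
  ring

lemma mi_sum (g : G → E) (x : G) : ∑ i, cc (mi i) (fun x => 2 * g x) (mi i x)
    = 8 * (g x - g (x + (0, 4)) + g (x + (0, 8)) - g (x + (0, 12))) := by
  rw [G1 mi mi_add, sum_kap kap_mi]
  simp only [zsmul_eq_mul]
  push_cast
  ring

lemma tp_sum (g : G → E) (x : G) : ∑ i, cc (tp i) (fun x => 2 * g x) (tp i x)
    = 8 * (g x - g (x + (0, 8))) := by
  rw [G1 tp tp_add, sum_kap kap_tp]
  simp only [zsmul_eq_mul]
  push_cast
  ring

lemma G2N {ι : Type} [Fintype ι] (ℓ : ι → G → ZMod 16)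
    (hℓ : ∀ i x y, ℓ i (x + y) = ℓ i x + ℓ i y) (u : G → E) :
    ((∑ i, ∑ s, N (cc (ℓ i) u s) : ℤ) : E)
      = 2 * ∑ x, (∑ y, kap ℓ (y - x) • u y) * star (u x) := by
  rw [← G2 ℓ hℓ]
  push_cast
  refine sum_congr rfl fun i _ => ?_
  rw [star_sum_mul_eq]
  push_cast
  rfl

/-- the full energy identity -/
lemma energy (u : G → E) : ∑ i, ∑ s, N (cc (lo i) u s) + 4 * ∑ i, ∑ s, N (cc (mi i) u s)
    + 8 * ∑ i, ∑ s, N (cc (tp i) u s) = 128 * ∑ x, N (u x) := by
  apply cast_inj
  push_cast
  have h0 := G2N lo lo_add u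
  have h1 := G2N mi mi_add u
  have h2 := G2N tp tp_add u
  push_cast at h0 h1 h2
  rw [h0, h1, h2]
  have hx : ∀ x : G, (((N (u x) : ℤ)) : E) = u x * star (u x) := fun x => (mul_star_eq _).symm
  simp only [hx, sum_kap kap_lo, sum_kap kap_mi, sum_kap kap_tp, mul_sum, ← sum_add_distrib]
  refine sum_congr rfl fun x _ => ?_
  simp only [zsmul_eq_mul]
  push_cast
  ring

/-- the low energy identity -/
lemma low_energy (g : G → E) : ∑ i, ∑ s, N (cc (lo i) (fun x => 2 * g x) s)
    = 32 * ∑ x, N (GG g x) := by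
  apply cast_inj
  rw [G2N lo lo_add]
  have h1 : ∀ x, ∑ y, kap lo (y - x) • (2 * g y) = 32 * GG g x := by
    intro x
    rw [sum_kap kap_lo]
    simp only [GG, zsmul_eq_mul]
    push_cast
    ring
  simp only [h1]
  have h2 : ∀ k : G, (∀ x, GG g (x + k) = GG g x) →
      ∑ x, GG g x * star (g (x + k)) = ∑ x, GG g x * star (g x) := by
    intro k hk
    have := Equiv.sum_comp (Equiv.addRight k) (fun x => GG g x * star (g x))
    rw [← this]
    refine sum_congr rfl fun x _ => ?_
    simp [hk]
  have p4 := GG_per g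
  have p8 : ∀ x, GG g (x + (0, 8)) = GG g x := by
    intro x
    have : x + (0, 8) = x + (0, 4) + (0, 4) := by rw [add_assoc]; congr 1
    rw [this, p4, p4]
  have p12 : ∀ x, GG g (x + (0, 12)) = GG g x := by
    intro x
    have : x + (0, 12) = x + (0, 8) + (0, 4) := by rw [add_assoc]; congr 1
    rw [this, p4, p8]
  have h3 : ∑ x, GG g x * star (GG g x) = 4 * ∑ x, GG g x * star (g x) := by
    have : ∀ x, GG g x * star (GG g x) = GG g x * star (g x) + GG g x * star (g (x + (0, 4)))
        + GG g x * star (g (x + (0, 8))) + GG g x * star (g (x + (0, 12))) := by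
      intro x
      conv_lhs => rw [show star (GG g x) = star (g x) + star (g (x + (0, 4)))
        + star (g (x + (0, 8))) + star (g (x + (0, 12))) by simp [GG]]
      ring
    simp only [this, sum_add_distrib, h2 _ p4, h2 _ p8, h2 _ p12]
    ring
  push_cast
  simp only [← mul_star_eq]
  rw [h3, mul_sum, mul_sum, mul_sum]
  refine sum_congr rfl fun x _ => ?_
  simp only [star_mul']
  have : star (2 : E) = 2 := by
    ext <;> simp
  rw [this]
  ring

lemma GG_vals (g : G → E) (L b : ℕ) (hLb : L + 1 ≤ b) (hN : ∀ x, N (g x) ≤ 9 ^ L)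
    (x : G) (hd : ∃ v, GG g x = 3 ^ b * v) :
    (N (GG g x) = if red (GG g x) = 0 then 0 else 9 ^ b) ∧ (red (GG g x) = 0 → GG g x = 0) := by
  obtain ⟨v, hv⟩ := hd
  have e3 : (3 : E) ^ b = (((3 : ℤ) ^ b : ℤ) : E) := by push_cast; rfl
  have h1 : N (GG g x) = 9 ^ b * N v := by
    rw [hv, e3, N_intMul, ← pow_mul, mul_comm b 2, pow_mul]; norm_num
  have h2 : N (GG g x) ≤ 16 * 9 ^ L := by
    have := N_four (g x) (g (x + (0, 4))) (g (x + (0, 8))) (g (x + (0, 12)))
    have a0 := hN x
    have a1 := hN (x + (0, 4))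
    have a2 := hN (x + (0, 8))
    have a3 := hN (x + (0, 12))
    unfold GG
    linarith
  have h3 : (9 : ℤ) * 9 ^ L ≤ 9 ^ b := by
    rw [← pow_succ']
    exact pow_le_pow_right₀ (by norm_num) hLb
  have h4 : (0 : ℤ) < 9 ^ b := by positivity
  have h5 : N v < 2 := by
    by_contra hcon
    push Not at hcon
    have : 9 ^ b * 2 ≤ 9 ^ b * N v := mul_le_mul_of_nonneg_left hcon h4.le
    have h6 : (0 : ℤ) < 9 ^ L := by positivity
    linarith
  have h6 := N_nonneg v
  have hzero : red (GG g x) = 0 → N v = 0 := by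
    intro hr
    obtain ⟨w, hw⟩ := (red_eq_zero_iff _).1 hr
    have h7 : N (GG g x) = 4 * N w := by rw [hw, N_two]
    have h8 : Odd ((9 : ℤ) ^ b) := Odd.pow (by decide)
    rcases (by omega : N v = 0 ∨ N v = 1) with h | h
    · exact h
    · exfalso
      rw [h1, h] at h7
      obtain ⟨k, hk⟩ := h8
      omega
  constructor
  · split_ifs with hr
    · rw [h1, hzero hr, mul_zero]
    · have : N v ≠ 0 := by
        intro h0
        apply hr
        have := (N_eq_zero_iff v).1 h0
        rw [hv, this, mul_zero, red_zero]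
      have h9 : N v = 1 := by omega
      rw [h1, h9, mul_one]
  · intro hr
    have := (N_eq_zero_iff v).1 (hzero hr)
    rw [hv, this, mul_zero]

lemma sum4 {A : Type} [AddCommMonoid A] (f : ZMod 4 → A) : ∑ p, f p = f 0 + f 1 + f 2 + f 3 :=
  Fin.sum_univ_four f

/-- indicator of nonzero -/
def ind (z : ZMod 2 × ZMod 2) : ℕ := if z = 0 then 0 else 1

lemma ind_zero : ind 0 = 0 := by simp [ind]

lemma ind_add (z w : ZMod 2 × ZMod 2) : ind (z + w) ≤ ind z + ind w := by
  revert z w; decide

lemma ind_sum (f : ZMod 4 → ZMod 2 × ZMod 2) : ind (∑ p, f p) ≤ ∑ p, ind (f p) := by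
  rw [sum4, sum4]
  have h1 := ind_add (f 0 + f 1 + f 2) (f 3)
  have h2 := ind_add (f 0 + f 1) (f 2)
  have h3 := ind_add (f 0) (f 1)
  omega

lemma sum16 (f : ZMod 16 → ℕ) (hf : ∀ t, f (t + 4) = f t) :
    ∑ t, f t = 4 * (f 0 + f 1 + f 2 + f 3) := by
  have h : ∑ t, f t = f 0 + f 1 + f 2 + f 3 + f 4 + f 5 + f 6 + f 7 + f 8 + f 9 + f 10 + f 11
      + f 12 + f 13 + f 14 + f 15 := by
    have : (univ : Finset (ZMod 16)) = {0, 1, 2, 3, 4, 5, 6, 7, 8, 9, 10, 11, 12, 13, 14, 15} := by
      decide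
    rw [this]
    repeat rw [sum_insert (by decide)]
    rw [sum_singleton]
    ring
  have a4 : f 4 = f 0 := hf 0
  have a5 : f 5 = f 1 := hf 1
  have a6 : f 6 = f 2 := hf 2
  have a7 : f 7 = f 3 := hf 3
  have a8 : f 8 = f 4 := hf 4
  have a9 : f 9 = f 5 := hf 5
  have a10 : f 10 = f 6 := hf 6
  have a11 : f 11 = f 7 := hf 7
  have a12 : f 12 = f 8 := hf 8
  have a13 : f 13 = f 9 := hf 9
  have a14 : f 14 = f 10 := hf 10
  have a15 : f 15 = f 11 := hf 11
  rw [h]
  omega

lemma mi_even : ∀ (p : ZMod 4) (x : G), ((mi p x).val : ZMod 2) = 0 := by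
  decide +kernel

lemma mi_one : ∀ t : ZMod 16, mi 1 (1, t) = 2 * t + 4 := by decide
lemma mi_two : ∀ t : ZMod 16, mi 2 (1, t) = 2 * t + 8 := by decide
lemma mi_three : ∀ t : ZMod 16, mi 3 (1, t) = (2 * t + 4) + 8 := by decide

lemma cc_mi_odd (p : ZMod 4) (u : G → E) (s : ZMod 16) (hs : (s.val : ZMod 2) ≠ 0) :
    cc (mi p) u s = 0 := by
  have h8 : ∀ s : ZMod 16, (s.val : ZMod 2) ≠ 0 → ((s + 8).val : ZMod 2) ≠ 0 := by decide
  have h : ∀ t : ZMod 16, (t.val : ZMod 2) ≠ 0 → push (mi p) u t = 0 := by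
    intro t ht
    unfold push
    refine sum_eq_zero fun x _ => if_neg ?_
    rintro rfl
    exact ht (mi_even p x)
  rw [cc, h s hs, h _ (h8 s hs), sub_zero]

end M4b

open M4b in
theorem M4b {R : Type} [Fintype R] [DecidableEq R] (u : R → ZMod 4 × ZMod 16 → E) (L b : ℕ)
    (hLb : L + 1 ≤ b)
    (h2 : ∀ r x, ∃ g, u r x = 2 * g) (hN : ∀ r x, N (u r x) ≤ 4 * 9 ^ L)
    (hact : ∀ (p : ZMod 4) (q : ZMod 16), Act (ell416 p q) u (64 * 9 ^ b)) : False := by
  classical
  choose g hg using h2
  have hu : ∀ r, u r = fun x => 2 * g r x := fun r => funext (hg r)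
  have hNg : ∀ r x, N (g r x) ≤ 9 ^ L := by
    intro r x
    have := hN r x
    rw [hg, N_two] at this
    linarith
  have h9b : (0 : ℤ) < 9 ^ b := by positivity
  -- low characters
  have hlo : ∀ i, Act (lo i) u (64 * 9 ^ b) := fun i => hact _ _
  have hdiv0 : ∀ i r s, ∃ w, cc (lo i) (u r) s = 3 ^ b * w := by
    intro i
    refine M3_main (lo i) (fun x => ?_) u 64 b (by exact_mod_cast hlo i)
    have : ∀ (i : ZMod 4 × ZMod 4) (x : G), 4 * lo i x = 0 := by decide +kernel
    exact this i x
  choose w0 hw0 using hdiv0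
  have hGdiv : ∀ r x, ∃ v, GG (g r) x = 3 ^ b * v := by
    intro r x
    refine div_three b (w := ∑ i, w0 i r (lo i x)) ?_
    rw [← lo_sum, mul_sum]
    refine sum_congr rfl fun i _ => ?_
    rw [← hu r, hw0]
  have hlo' : ∀ i, ∃ r0 : R, ∀ r, ∑ s, N (cc (lo i) (u r) s) = if r0 = r then 128 * 9 ^ b else 0 := by
    intro i
    obtain ⟨r0, hz, -, hcorr⟩ := hlo i
    refine ⟨r0, fun r => ?_⟩
    split_ifs with hr
    · subst hr
      have h := hcorr 0
      simp only [add_zero, if_true] at h
      rw [star_sum_mul_eq] at h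
      rw [cast_inj h]; ring
    · refine sum_eq_zero fun s _ => ?_
      rw [hz r (fun h => hr h.symm) s]; simp [N]
  choose r0 hr0 using hlo'
  -- middle characters
  choose r1 e1 Y1 he1 hY1 hYa1 hYz1 hYp1 hYN1 hYr1 hYo1 hYn1 using
    fun p : ZMod 4 => M2_main (mi p) u b (hact p 2)
  choose r2 e2 Y2 he2 hY2 hYa2 hYz2 hYp2 hYN2 hYr2 hYo2 hYn2 using
    fun p : ZMod 4 => M2_main (tp p) u b (hact p 1)
  have hen1 : ∀ p r, ∑ s, N (cc (mi p) (u r) s) = if r1 p = r then 128 * 9 ^ b else 0 := by
    intro p r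
    have e8 : ∀ z : E, N (8 * z) = 64 * N z := by
      intro z
      have : (8 : E) = ((8 : ℤ) : E) := by norm_num
      rw [this, N_intMul]; norm_num
    simp only [hY1, e8, ← mul_sum]
    split_ifs with hr
    · subst hr
      rw [hYN1]; ring
    · have : ∀ s, Y1 p r s = 0 := hYz1 p r (fun h => hr h.symm)
      simp [this, N]
  have hen2 : ∀ p r, ∑ s, N (cc (tp p) (u r) s) = if r2 p = r then 128 * 9 ^ b else 0 := by
    intro p r
    have e8 : ∀ z : E, N (8 * z) = 64 * N z := by
      intro z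
      have : (8 : E) = ((8 : ℤ) : E) := by norm_num
      rw [this, N_intMul]; norm_num
    simp only [hY2, e8, ← mul_sum]
    split_ifs with hr
    · subst hr
      rw [hYN2]; ring
    · have : ∀ s, Y2 p r s = 0 := hYz2 p r (fun h => hr h.symm)
      simp [this, N]
  -- counting functions
  set a : R → ℕ := fun r => ∑ i, if r0 i = r then 1 else 0 with ha
  set m : R → ℕ := fun r => ∑ p, if r1 p = r then 1 else 0 with hm
  set n : R → ℕ := fun r => ∑ p, if r2 p = r then 1 else 0 with hn
  have ha' : ∀ r, ∑ i, ∑ s, N (cc (lo i) (u r) s) = 128 * 9 ^ b * (a r : ℤ) := by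
    intro r
    simp only [hr0, ha]
    push_cast
    rw [mul_sum]
    refine sum_congr rfl fun i _ => ?_
    split_ifs <;> simp
  have hm' : ∀ r, ∑ i, ∑ s, N (cc (mi i) (u r) s) = 128 * 9 ^ b * (m r : ℤ) := by
    intro r
    simp only [hen1, hm]
    push_cast
    rw [mul_sum]
    refine sum_congr rfl fun i _ => ?_
    split_ifs <;> simp
  have hn' : ∀ r, ∑ i, ∑ s, N (cc (tp i) (u r) s) = 128 * 9 ^ b * (n r : ℤ) := by
    intro r
    simp only [hen2, hn]
    push_cast
    rw [mul_sum]
    refine sum_congr rfl fun i _ => ?_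
    split_ifs <;> simp
  have hE : ∀ r, a r + 4 * m r + 8 * n r ≤ 28 := by
    intro r
    have h1 := energy (u r)
    rw [ha', hm', hn'] at h1
    have h3 : ∑ x, N (u r x) ≤ 64 * (4 * 9 ^ L) := by
      have : ∑ x, N (u r x) ≤ ∑ x : G, (4 * 9 ^ L : ℤ) := sum_le_sum fun x _ => hN r x
      refine this.trans (le_of_eq ?_)
      simp [G, ZMod.card]
    have h4 : (9 : ℤ) * 9 ^ L ≤ 9 ^ b := by
      rw [← pow_succ']
      exact pow_le_pow_right₀ (by norm_num) hLb
    have h5 : 9 ^ b * ((a r : ℤ) + 4 * m r + 8 * n r) ≤ 256 * 9 ^ L := by linarith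
    by_contra hcon
    push Not at hcon
    have h6 : (29 : ℤ) ≤ (a r : ℤ) + 4 * m r + 8 * n r := by exact_mod_cast hcon
    have h7 : 9 ^ b * (29 : ℤ) ≤ 9 ^ b * ((a r : ℤ) + 4 * m r + 8 * n r) :=
      mul_le_mul_of_nonneg_left h6 h9b.le
    have h8 : (0 : ℤ) < 9 ^ L := by positivity
    linarith
  -- top characters: the function E
  have htop1 : ∀ r x, ∑ p, Y2 p r (tp p x) = g r x - g r (x + (0, 8)) := by
    intro r x
    have h := tp_sum (g r) x
    rw [← hu r] at h
    simp only [hY2, ← mul_sum] at h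
    have e8 : (8 : E) = ((8 : ℤ) : E) := by norm_num
    rw [e8] at h
    exact cancel_int (by norm_num) h
  have htp4 : ∀ (p : ZMod 4) (x : G), tp p (x + (0, 4)) = tp p x + 4 := by
    intro p x
    rw [tp_add]
    congr 1
  have htop2 : ∀ r x, red (GG (g r) x) = ∑ p, red (Y2 p r (tp p x) + Y2 p r (tp p x + 4)) := by
    intro r x
    have h1 := htop1 r x
    have h3 := htop1 r (x + (0, 4))
    have e1 : x + (0, 4) + (0, 8) = x + (0, 12) := by rw [add_assoc]; congr 1
    simp only [htp4, e1] at h3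
    have h4 : red (GG (g r) x) = red (g r x - g r (x + (0, 8)))
        + red (g r (x + (0, 4)) - g r (x + (0, 12))) := by
      simp only [GG, red_add, red_sub]
      abel
    rw [h4, ← h1, ← h3, red_sum, red_sum, ← sum_add_distrib]
    refine sum_congr rfl fun p _ => ?_
    rw [red_add]
  set W : ZMod 4 → R → ZMod 16 → ZMod 2 × ZMod 2 := fun p r t => red (Y2 p r t + Y2 p r (t + 4))
    with hW
  have hW4 : ∀ p r t, W p r (t + 4) = W p r t := by
    intro p r t
    simp only [hW]
    have : t + 4 + 4 = t + 8 := by rw [add_assoc]; congr 1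
    rw [this, hYa2, red_add, red_add, red_neg, add_comm]
  have hWk : ∀ p r t (k : ℕ), W p r (4 * (k : ZMod 16) + t) = W p r t := by
    intro p r t k
    induction k with
    | zero => simp
    | succ k ih =>
      have : (4 * ((k + 1 : ℕ) : ZMod 16) + t) = (4 * (k : ZMod 16) + t) + 4 := by push_cast; ring
      rw [this, hW4, ih]
  set Ef : R → ZMod 16 → ZMod 2 × ZMod 2 := fun r t => ∑ p, W p r t with hEf
  have hred : ∀ r x, red (GG (g r) x) = Ef r x.2 := by
    intro r x
    rw [htop2]
    refine sum_congr rfl fun p _ => ?_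
    have h1 : tp p x = 4 * (((p * x.1).val : ℕ) : ZMod 16) + x.2 := by
      simp [tp, ell416]
    have h3 := hWk p r x.2 (p * x.1).val
    rw [← h1] at h3
    exact h3
  have hEf4 : ∀ r t, Ef r (t + 4) = Ef r t := by
    intro r t
    simp only [hEf, hW4]
  set c : R → ℕ := fun r => ind (Ef r 0) + ind (Ef r 1) + ind (Ef r 2) + ind (Ef r 3) with hc
  have hcn : ∀ r, c r ≤ n r := by
    intro r
    have h1 : c r ≤ ∑ p, (ind (W p r 0) + ind (W p r 1) + ind (W p r 2) + ind (W p r 3)) := by
      simp only [sum_add_distrib, hc, hEf]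
      have := ind_sum (fun p => W p r 0)
      have := ind_sum (fun p => W p r 1)
      have := ind_sum (fun p => W p r 2)
      have := ind_sum (fun p => W p r 3)
      omega
    refine h1.trans ?_
    simp only [hn]
    refine sum_le_sum fun p _ => ?_
    by_cases hr : r2 p = r
    · subst hr
      rw [if_pos rfl]
      have h3 := hYn2 p
      have h4 := hYp2 p
      have hnz : ∀ z : E, nz z = ind (red z) := fun z => rfl
      rw [hnz, hnz] at h3
      rcases he2 p with h | h
      · rw [h] at h3 h4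
        have q1 : Y2 p (r2 p) 1 = 0 := h4 1 (by decide)
        have q5 : Y2 p (r2 p) 5 = 0 := h4 5 (by decide)
        have q3 : Y2 p (r2 p) 3 = 0 := h4 3 (by decide)
        have q7 : Y2 p (r2 p) 7 = 0 := h4 7 (by decide)
        have w1 : W p (r2 p) 1 = 0 := by
          have : (1 : ZMod 16) + 4 = 5 := by decide
          simp only [hW, this, q1, q5, add_zero, red_zero]
        have w3 : W p (r2 p) 3 = 0 := by
          have : (3 : ZMod 16) + 4 = 7 := by decide
          simp only [hW, this, q3, q7, add_zero, red_zero]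
        have s1 : (0 : ZMod 16) + 2 = 2 := by decide
        have s3 : (0 : ZMod 16) + 6 = 2 + 4 := by decide
        rw [s1, s3] at h3
        have w0' : W p (r2 p) 0 = red (Y2 p (r2 p) 0 + Y2 p (r2 p) (0 + 4)) := rfl
        have w2' : W p (r2 p) 2 = red (Y2 p (r2 p) 2 + Y2 p (r2 p) (2 + 4)) := rfl
        rw [w1, w3, ind_zero, w0', w2']
        omega
      · rw [h] at h3 h4
        have q0 : Y2 p (r2 p) 0 = 0 := h4 0 (by decide)
        have q4 : Y2 p (r2 p) 4 = 0 := h4 4 (by decide)
        have q2 : Y2 p (r2 p) 2 = 0 := h4 2 (by decide)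
        have q6 : Y2 p (r2 p) 6 = 0 := h4 6 (by decide)
        have w0' : W p (r2 p) 0 = 0 := by
          have : (0 : ZMod 16) + 4 = 4 := by decide
          simp only [hW, this, q0, q4, add_zero, red_zero]
        have w2' : W p (r2 p) 2 = 0 := by
          have : (2 : ZMod 16) + 4 = 6 := by decide
          simp only [hW, this, q2, q6, add_zero, red_zero]
        have s1 : (1 : ZMod 16) + 2 = 3 := by decide
        have s3 : (1 : ZMod 16) + 6 = 3 + 4 := by decide
        rw [s1, s3] at h3
        have w1 : W p (r2 p) 1 = red (Y2 p (r2 p) 1 + Y2 p (r2 p) (1 + 4)) := rfl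
        have w3 : W p (r2 p) 3 = red (Y2 p (r2 p) 3 + Y2 p (r2 p) (3 + 4)) := rfl
        rw [w0', w2', ind_zero, w1, w3]
        omega
    · rw [if_neg hr]
      have hz := hYz2 p r (fun h => hr h.symm)
      have : ∀ t, W p r t = 0 := by
        intro t
        simp only [hW, hz, add_zero, red_zero]
      simp [this, ind_zero]
  -- low energy
  have hac : ∀ r, a r = 4 * c r := by
    intro r
    have h1 := low_energy (g r)
    rw [← hu r, ha'] at h1
    have hv : ∀ x, N (GG (g r) x) = 9 ^ b * (ind (Ef r x.2) : ℤ) := by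
      intro x
      rw [(GG_vals (g r) L b hLb (hNg r) x (hGdiv r x)).1, hred, ind]
      split_ifs <;> simp
    simp only [hv, ← mul_sum] at h1
    have h3 : ∑ x : G, (ind (Ef r x.2) : ℤ) = 16 * (c r : ℤ) := by
      have h4 : ∑ x : G, ind (Ef r x.2) = 16 * c r := by
        rw [Fintype.sum_prod_type]
        simp only [sum_const, card_univ, ZMod.card, smul_eq_mul]
        rw [sum16 (fun t => ind (Ef r t)) (fun t => by simp only [hEf4])]
        simp only [hc]
        ring
      exact_mod_cast h4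
    rw [h3] at h1
    have h5 : (9 : ℤ) ^ b * (a r : ℤ) = 9 ^ b * (4 * (c r : ℤ)) := by linarith
    have h6 := mul_left_cancel₀ h9b.ne' h5
    exact_mod_cast h6
  have hsa : ∑ r, a r = 16 := by
    simp only [ha]
    rw [sum_comm]
    simp [ZMod.card]
  have hsn : ∑ r, n r = 4 := by
    simp only [hn]
    rw [sum_comm]
    simp [ZMod.card]
  have hsc : ∑ r, c r = 4 := by
    have : ∑ r, a r = 4 * ∑ r, c r := by rw [mul_sum]; exact sum_congr rfl fun r _ => hac r
    omega
  have hceq : ∀ r, c r = n r := by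
    have := (sum_eq_sum_iff_of_le (s := univ) (fun r _ => hcn r)).1 (hsc.trans hsn.symm)
    exact fun r => this r (mem_univ r)
  -- middle characters
  have hmid : ∀ r x, ∑ p, red (Y1 p r (mi p x)) = Ef r x.2 := by
    intro r x
    have h := mi_sum (g r) x
    rw [← hu r] at h
    simp only [hY1, ← mul_sum] at h
    have e8 : (8 : E) = ((8 : ℤ) : E) := by norm_num
    rw [e8] at h
    have h3 := cancel_int (by norm_num) h
    rw [← red_sum, h3, ← hred]
    simp only [GG, red_add, red_sub]
  have hy8 : ∀ p r s, red (Y1 p r (s + 8)) = red (Y1 p r s) := by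
    intro p r s
    rw [hYa1, red_neg]
  have hmid0 : ∀ r t, red (Y1 0 r (2 * t)) + red (Y1 1 r (2 * t)) + red (Y1 2 r (2 * t))
      + red (Y1 3 r (2 * t)) = Ef r t := by
    intro r t
    have h := hmid r (0, t)
    rw [sum4] at h
    have q : ∀ p : ZMod 4, mi p (0, t) = 2 * t := by intro p; simp [mi, ell416]
    simp only [q] at h
    exact h
  have hmid1 : ∀ r t, red (Y1 0 r (2 * t)) + red (Y1 1 r (2 * t + 4)) + red (Y1 2 r (2 * t))
      + red (Y1 3 r (2 * t + 4)) = Ef r t := by
    intro r t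
    have h := hmid r (1, t)
    rw [sum4] at h
    have q0 : mi 0 (1, t) = 2 * t := by simp [mi, ell416]
    have q1 : mi 1 (1, t) = 2 * t + 4 := mi_one t
    have q2 : mi 2 (1, t) = 2 * t + 8 := mi_two t
    have q3 : mi 3 (1, t) = (2 * t + 4) + 8 := mi_three t
    simp only [q0, q1, q2, q3, hy8] at h
    exact h
  have hε1 : ∀ p, e1 p = 0 := by
    intro p
    rcases he1 p with h | h
    · exact h
    · exfalso
      have hp := hYp1 p
      rw [h] at hp
      have hall : ∀ s, Y1 p (r1 p) s = 0 := by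
        intro s
        by_cases hs : (s.val : ZMod 2) = 0
        · refine hp s ?_
          rw [hs]; decide
        · have h1 := hY1 p (r1 p) s
          rw [cc_mi_odd p _ s hs] at h1
          have e8 : (8 : E) = ((8 : ℤ) : E) := by norm_num
          have h3 : ((8 : ℤ) : E) * Y1 p (r1 p) s = ((8 : ℤ) : E) * 0 := by
            rw [← e8, ← h1, mul_zero]
          exact cancel_int (by norm_num) h3
      have h4 := hYN1 p
      simp only [hall] at h4
      have : N 0 = 0 := by simp [N]
      rw [this] at h4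
      simp only [sum_const_zero] at h4
      linarith
  have hodd : ∀ p, Odd (ind (red (Y1 p (r1 p) 0)) + ind (red (Y1 p (r1 p) 2))
      + ind (red (Y1 p (r1 p) 4)) + ind (red (Y1 p (r1 p) 6))) := by
    intro p
    have h := hYo1 p
    rw [hε1] at h
    simp only [zero_add] at h
    exact h
  have hcross : ∀ r t, red (Y1 1 r (2 * t)) + red (Y1 3 r (2 * t))
      = red (Y1 1 r (2 * t + 4)) + red (Y1 3 r (2 * t + 4)) := by
    intro r t
    have h := (hmid0 r t).trans (hmid1 r t).symm
    have key : ∀ a b c d e f : ZMod 2 × ZMod 2, a + b + c + d = a + e + c + f → b + d = e + f := by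
      intro a b c d e f h
      have h1 : a + c + (b + d) = a + c + (e + f) := by
        calc a + c + (b + d) = a + b + c + d := by abel
          _ = a + e + c + f := h
          _ = a + c + (e + f) := by abel
      exact add_left_cancel h1
    exact key _ _ _ _ _ _ h
  have h13 : r1 1 = r1 3 := by
    by_contra hne
    have hz := hYz1 3 (r1 1) hne
    have h0 := hcross (r1 1) 0
    have h1 := hcross (r1 1) 1
    simp only [hz, red_zero, add_zero] at h0 h1
    have t0 : (2 : ZMod 16) * 0 = 0 := by decide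
    have t1 : (2 : ZMod 16) * 1 = 2 := by decide
    have t2 : (0 : ZMod 16) + 4 = 4 := by decide
    have t3 : (2 : ZMod 16) + 4 = 6 := by decide
    rw [t0, t2] at h0
    rw [t1, t3] at h1
    have h := hodd 1
    rw [h0, h1] at h
    rw [← Nat.not_even_iff_odd] at h
    exact h ⟨ind (red (Y1 1 (r1 1) 4)) + ind (red (Y1 1 (r1 1) 6)), by ring⟩
  have hmpos : ∀ r, 1 ≤ c r → 1 ≤ m r := by
    intro r hcr
    by_contra hcon
    have hm0 : m r = 0 := by omega
    have hne : ∀ p, r1 p ≠ r := by
      intro p hp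
      simp only [hm] at hm0
      have := (sum_eq_zero_iff.1 hm0) p (mem_univ p)
      rw [if_pos hp] at this
      omega
    have hz : ∀ p s, Y1 p r s = 0 := fun p => hYz1 p r (fun h => hne p h.symm)
    have hz2 : ∀ t, Ef r t = 0 := by
      intro t
      rw [← hmid0]
      simp [hz]
    have : c r = 0 := by simp only [hc, hz2, ind_zero]
    omega
  have hc1 : ∀ r, c r ≤ 1 := by
    intro r
    by_contra hcon
    have h1 := hE r
    have h3 := hac r
    have h4 := hceq r
    have h5 := hmpos r (by omega)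
    have h6 : c r = 2 := by omega
    have h7 : m r = 1 := by omega
    -- the unique active middle character
    have h8 : m r = (if r1 0 = r then 1 else 0) + (if r1 1 = r then 1 else 0)
        + (if r1 2 = r then 1 else 0) + (if r1 3 = r then 1 else 0) := by
      simp only [hm]; rw [sum4]
    have h9 : r1 1 ≠ r := by
      intro h
      rw [if_pos h, if_pos (h13.symm.trans h)] at h8
      omega
    have h10 : r1 3 ≠ r := by rw [← h13]; exact h9
    rw [if_neg h9, if_neg h10] at h8
    have hEv : ∀ t, Ef r t = red (Y1 0 r (2 * t)) + red (Y1 2 r (2 * t)) := by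
      intro t
      rw [← hmid0, hYz1 1 r (fun h => h9 h.symm), hYz1 3 r (fun h => h10 h.symm)]
      simp
    have t0 : (2 : ZMod 16) * 0 = 0 := by decide
    have t1 : (2 : ZMod 16) * 1 = 2 := by decide
    have t2 : (2 : ZMod 16) * 2 = 4 := by decide
    have t3 : (2 : ZMod 16) * 3 = 6 := by decide
    by_cases ha0 : r1 0 = r
    · rw [if_pos ha0] at h8
      have ha2 : r1 2 ≠ r := by
        intro h; rw [if_pos h] at h8; omega
      have hz := hYz1 2 r (fun h => ha2 h.symm)
      have ho := hodd 0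
      rw [ha0] at ho
      have : c r = ind (red (Y1 0 r 0)) + ind (red (Y1 0 r 2)) + ind (red (Y1 0 r 4))
          + ind (red (Y1 0 r 6)) := by
        simp only [hc, hEv, hz, red_zero, add_zero, t0, t1, t2, t3]
      rw [← this, h6] at ho
      exact absurd ho (by decide)
    · rw [if_neg ha0] at h8
      have ha2 : r1 2 = r := by
        by_contra h; rw [if_neg h] at h8; omega
      have hz := hYz1 0 r (fun h => ha0 h.symm)
      have ho := hodd 2
      rw [ha2] at ho
      have : c r = ind (red (Y1 2 r 0)) + ind (red (Y1 2 r 2)) + ind (red (Y1 2 r 4))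
          + ind (red (Y1 2 r 6)) := by
        simp only [hc, hEv, hz, red_zero, zero_add, t0, t1, t2, t3]
      rw [← this, h6] at ho
      exact absurd ho (by decide)
  -- final counting
  have hfin : ∑ r, c r ≤ 3 := by
    have h1 : ∀ r, c r ≤ if r ∈ ({r1 0, r1 1, r1 2} : Finset R) then 1 else 0 := by
      intro r
      split_ifs with h
      · exact hc1 r
      · simp only [mem_insert, mem_singleton, not_or] at h
        by_contra hcon
        have h5 := hmpos r (by omega)
        have h8 : m r = (if r1 0 = r then 1 else 0) + (if r1 1 = r then 1 else 0)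
            + (if r1 2 = r then 1 else 0) + (if r1 3 = r then 1 else 0) := by
          simp only [hm]; rw [sum4]
        rw [if_neg (fun h' => h.1 h'.symm), if_neg (fun h' => h.2.1 h'.symm),
          if_neg (fun h' => h.2.2 h'.symm), if_neg (fun h' => h.2.1 (h13.trans h').symm)] at h8
        omega
    refine (sum_le_sum fun r _ => h1 r).trans ?_
    rw [sum_ite_mem, univ_inter, sum_const, smul_eq_mul, mul_one]
    exact card_le_three
  omega

end MP82
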