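import Pool.Agent.Lib.MP_82ec8b_co.M0
import Pool.Agent.Lib.MP_82ec8b_co.M1
import Pool.Agent.Lib.MP_82ec8b_co.M4a
import Pool.Agent.Lib.MP_82ec8b_co.M4b

/-! M5: glue. -/

namespace MP82
open Finset

lemma comp_two (K : ℕ) (f : ZMod (3 ^ K) → ℤ) (hf : ∀ c, Odd (f c)) (r : ℕ) :
    ∃ g, comp K f r = 2 * g := by
  obtain ⟨x, hx⟩ := (hf ((r : ℕ) : ZMod (3 ^ K))).sub_odd
    (hf ((r + 2 * 3 ^ (K - 1) : ℕ) : ZMod (3 ^ K)))
  obtain ⟨y, hy⟩ := (hf ((r + 3 ^ (K - 1) : ℕ) : ZMod (3 ^ K))).sub_odd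
    (hf ((r + 2 * 3 ^ (K - 1) : ℕ) : ZMod (3 ^ K)))
  refine ⟨⟨x, y⟩, ?_⟩
  rw [two_mul]
  ext
  · exact hx
  · exact hy

lemma norm_bound_aux (a b c B : ℤ) (hB : 0 < B) (ha : |a| ≤ B) (hb : |b| ≤ B) (hc : |c| ≤ B) :
    (a - c) ^ 2 - (a - c) * (b - c) + (b - c) ^ 2 ≤ 4 * B ^ 2 := by
  obtain ⟨ha1, ha2⟩ := abs_le.mp ha
  obtain ⟨hb1, hb2⟩ := abs_le.mp hb
  obtain ⟨hc1, hc2⟩ := abs_le.mp hc
  have h1 : 0 ≤ (B + a) * (B + b) * (B + c) :=
    mul_nonneg (mul_nonneg (by linarith) (by linarith)) (by linarith)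
  have h2 : 0 ≤ (B - a) * (B - b) * (B - c) :=
    mul_nonneg (mul_nonneg (by linarith) (by linarith)) (by linarith)
  have h3 : 0 ≤ (2 * B) * (B ^ 2 + (a * b + b * c + c * a)) := by
    have e : (2 * B) * (B ^ 2 + (a * b + b * c + c * a)) =
      (B + a) * (B + b) * (B + c) + (B - a) * (B - b) * (B - c) := by ring
    rw [e]; linarith
  have h4 : 0 ≤ B ^ 2 + (a * b + b * c + c * a) := by
    by_contra hcon
    push Not at hcon
    have := mul_neg_of_pos_of_neg (show 0 < 2 * B by linarith) hcon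
    linarith
  have h5 : a ^ 2 ≤ B ^ 2 := sq_le_sq' ha1 ha2
  have h6 : b ^ 2 ≤ B ^ 2 := sq_le_sq' hb1 hb2
  have h7 : c ^ 2 ≤ B ^ 2 := sq_le_sq' hc1 hc2
  nlinarith

lemma comp_N (K L : ℕ) (f : ZMod (3 ^ K) → ℤ) (hf : ∀ c, |f c| ≤ 3 ^ L) (r : ℕ) :
    N (comp K f r) ≤ 4 * 9 ^ L := by
  have h9 : (9 : ℤ) ^ L = (3 ^ L) ^ 2 := by
    rw [← pow_mul, mul_comm, pow_mul]; norm_num
  rw [h9]
  exact norm_bound_aux _ _ _ _ (by positivity) (hf _) (hf _) (hf _)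

/-- `comp` as an additive map. -/
def compHom (K : ℕ) (r : ℕ) : (ZMod (3 ^ K) → ℤ) →+ E where
  toFun f := comp K f r
  map_zero' := by
    ext <;> simp [comp]
  map_add' f g := by
    ext
    · simp only [comp, Pi.add_apply, QuadraticAlgebra.re_add]; ring
    · simp only [comp, Pi.add_apply, QuadraticAlgebra.im_add]; ring

lemma push_comp {H : Type} [AddCommGroup H] [Fintype H] [DecidableEq H] (K : ℕ)
    (F : H → ZMod (3 ^ K) → ℤ) (ℓ : H → ZMod 16) (r : ℕ) (s : ZMod 16) :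
    push ℓ (fun x => comp K (F x) r) s = comp K (∑ x, if ℓ x = s then F x else 0) r := by
  have h : comp K (∑ x, if ℓ x = s then F x else 0) r =
      compHom K r (∑ x, if ℓ x = s then F x else 0) := rfl
  rw [h, map_sum]
  unfold push
  refine sum_congr rfl fun x _ => ?_
  split_ifs
  · rfl
  · rw [map_zero]

lemma corr_push {H : Type} [AddCommGroup H] [Fintype H] [DecidableEq H] (K : ℕ)
    (F : H → ZMod (3 ^ K) → ℤ) (M : ℤ)
    (hF : ∀ d v, ∑ x, ∑ c, F x c * F (x + d) (c + v)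
      = if d = 0 ∧ v = 0 then M else 0)
    (ℓ : H → ZMod 16) (hℓ : ∀ x y, ℓ (x + y) = ℓ x + ℓ y) (d : ZMod 16) (v : ZMod (3 ^ K)) :
    ∑ s, ∑ c, (∑ x, if ℓ x = s then F x c else 0) * (∑ x, if ℓ x = s + d then F x (c + v) else 0)
      = if d = 0 ∧ v = 0 then M else 0 := by
  have h0 : ℓ 0 = 0 := by
    have := hℓ 0 0
    rw [add_zero] at this
    exact left_eq_add.mp this
  calc ∑ s, ∑ c, (∑ x, if ℓ x = s then F x c else 0) *
        (∑ x, if ℓ x = s + d then F x (c + v) else 0)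
      = ∑ s, ∑ c, ∑ x, ∑ w, (if ℓ x = s then (if ℓ w = d then F x c * F (x + w) (c + v) else 0)
          else 0) := by
        refine sum_congr rfl fun s _ => sum_congr rfl fun c _ => ?_
        rw [sum_mul]
        refine sum_congr rfl fun x _ => ?_
        by_cases hx : ℓ x = s
        · simp only [hx, if_true]
          rw [mul_sum, ← Equiv.sum_comp (Equiv.addLeft x)]
          refine sum_congr rfl fun w _ => ?_
          simp only [Equiv.coe_addLeft, hℓ, hx, add_right_inj]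
          split_ifs <;> simp
        · simp [hx]
    _ = ∑ w, ∑ x, ∑ c, (if ℓ w = d then F x c * F (x + w) (c + v) else 0) := by
        have e1 : ∀ s : ZMod 16, ∑ c, ∑ x, ∑ w,
            (if ℓ x = s then (if ℓ w = d then F x c * F (x + w) (c + v) else 0) else 0) =
            ∑ x, (if ℓ x = s then ∑ c, ∑ w, (if ℓ w = d then F x c * F (x + w) (c + v) else 0)
              else 0) := by
          intro s
          rw [sum_comm]
          refine sum_congr rfl fun x _ => ?_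
          by_cases hx : ℓ x = s
          · simp [hx]
          · simp [hx]
        simp only [e1]
        rw [sum_comm]
        simp only [sum_ite_eq, mem_univ, if_true]
        rw [sum_comm (s := univ) (t := univ)
          (f := fun w x => ∑ c, (if ℓ w = d then F x c * F (x + w) (c + v) else 0))]
        exact sum_congr rfl fun x _ => sum_comm
    _ = ∑ w, (if ℓ w = d then (if w = 0 ∧ v = 0 then M else 0) else 0) := by
        refine sum_congr rfl fun w _ => ?_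
        by_cases hw : ℓ w = d
        · simp only [hw, if_true]
          exact hF w v
        · simp [hw]
    _ = if d = 0 ∧ v = 0 then M else 0 := by
        rw [sum_eq_single 0]
        · rw [h0]
          by_cases hd : d = 0
          · simp [hd]
          · simp [hd, Ne.symm hd]
        · intro w _ hw
          simp [hw]
        · simp


/-- Pushing a perfect function forward along a character and applying the descent theorem. -/
theorem M5_act {H : Type} [AddCommGroup H] [Fintype H] [DecidableEq H] (K : ℕ) (hK : 1 ≤ K)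
    (F : H → ZMod (3 ^ K) → ℤ) (i j : ℕ)
    (hF : ∀ d v, ∑ x, ∑ c, F x c * F (x + d) (c + v)
      = if d = 0 ∧ v = 0 then 2 ^ i * 3 ^ j else 0)
    (ℓ : H → ZMod 16) (hℓ : ∀ x y, ℓ (x + y) = ℓ x + ℓ y) :
    Act ℓ (fun (r : Fin (3 ^ (K - 1))) x => comp K (F x) r) (2 ^ i * 3 ^ j) := by
  obtain ⟨A, hAdef⟩ : ∃ A : ZMod 16 → ZMod (3 ^ K) → ℤ,
      A = fun s => ∑ x, if ℓ x = s then F x else 0 := ⟨_, rfl⟩
  have hAs : ∀ s c, A s c = ∑ x, if ℓ x = s then F x c else 0 := by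
    intro s c
    rw [hAdef]
    simp only [Finset.sum_apply]
    refine sum_congr rfl fun x _ => ?_
    split_ifs <;> rfl
  have hA : ∀ d v, ∑ s, ∑ c, A s c * A (s + d) (c + v)
      = if d = 0 ∧ v = 0 then 2 ^ i * 3 ^ j else 0 := by
    intro d v
    simp only [hAs]
    exact corr_push K F _ hF ℓ hℓ d v
  obtain ⟨r0, h1, ⟨ε, h2⟩, h3⟩ := M1 K hK A i j hA
  have hcc : ∀ (r : Fin (3 ^ (K - 1))) s, cc ℓ (fun x => comp K (F x) r) s =
      comp K (A s) r - comp K (A (s + 8)) r := by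
    intro r s
    unfold cc
    rw [push_comp, push_comp, hAdef]
  refine ⟨r0, fun r hr s => ?_, ⟨ε, fun s hs => ?_⟩, fun t => ?_⟩
  · rw [hcc]; exact h1 r hr s
  · rw [hcc]; exact h2 s hs
  · simp only [hcc]
    exact h3 t

/-- The data produced by `M0`. -/
def Bad (m n : ℕ) [NeZero m] [NeZero n] (e : ℕ) : Prop :=
  ∃ (k l b : ℕ) (F : ZMod m × ZMod n → ZMod (3 ^ k) → ℤ), 1 ≤ k ∧ l + 1 ≤ b ∧
    (∀ x c, Odd (F x c)) ∧ (∀ x c, |F x c| ≤ 3 ^ l) ∧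
    ∀ d v, ∑ x, ∑ c, F x c * F (x + d) (c + v) = if d = 0 ∧ v = 0 then 2 ^ e * 9 ^ b else 0

lemma Bad.swap {m n : ℕ} [NeZero m] [NeZero n] {e : ℕ} (h : Bad m n e) : Bad n m e := by
  obtain ⟨k, l, b, F, hk, hb, ho, hB, hF⟩ := h
  refine ⟨k, l, b, fun x c => F (x.2, x.1) c, hk, hb, fun x c => ho _ _, fun x c => hB _ _,
    fun d v => ?_⟩
  have h1 := hF (d.2, d.1) v
  have h2 : ∑ x : ZMod n × ZMod m, ∑ c, F (x.2, x.1) c * F ((x + d).2, (x + d).1) (c + v) =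
      ∑ x : ZMod m × ZMod n, ∑ c, F x c * F (x + (d.2, d.1)) (c + v) := by
    rw [← Equiv.sum_comp (Equiv.prodComm (ZMod m) (ZMod n))]
    rfl
  rw [h2, h1]
  have h3 : ((d.2, d.1) = (0 : ZMod m × ZMod n)) ↔ d = 0 := by
    obtain ⟨d1, d2⟩ := d
    simp only [Prod.mk_eq_zero]
    tauto
  simp only [h3]

lemma bad_of_pba (i j k l m n : ℕ) [NeZero m] [NeZero n] (hm : 2 ^ i = m) (hn : 2 ^ j = n)
    (hij : Even (i + j)) (hkl : l < k)
    (a : ZMod (2 ^ i * 3 ^ k) → ZMod (2 ^ j * 3 ^ l) → ℤ)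
    (ha : IsPBA (2 ^ i * 3 ^ k) (2 ^ j * 3 ^ l) a) : Bad m n (i + j) := by
  subst hm hn
  obtain ⟨b, F, _, hb, ho, hB, hF⟩ := M0 i j k l hij hkl a ha
  exact ⟨k, l, b, F, by omega, hb, ho, hB, hF⟩

/-- `Bad` gives a family with `Act` for all characters. -/
lemma act_of_bad {m n : ℕ} [NeZero m] [NeZero n] {e : ℕ} (h : Bad m n e) :
    ∃ (R : ℕ) (u : Fin R → ZMod m × ZMod n → E) (l b : ℕ), l + 1 ≤ b ∧
      (∀ r x, ∃ g, u r x = 2 * g) ∧ (∀ r x, N (u r x) ≤ 4 * 9 ^ l) ∧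
      (∀ ℓ : ZMod m × ZMod n → ZMod 16, (∀ x y, ℓ (x + y) = ℓ x + ℓ y) →
        Act ℓ u (2 ^ e * 9 ^ b)) := by
  obtain ⟨k, l, b, F, hk, hb, ho, hB, hF⟩ := h
  have h9 : (9 : ℤ) ^ b = 3 ^ (2 * b) := by rw [pow_mul]; norm_num
  refine ⟨3 ^ (k - 1), fun r x => comp k (F x) r, l, b, hb, fun r x => comp_two _ _ (ho x) _,
    fun r x => comp_N _ _ _ (hB x) _, fun ℓ hℓ => ?_⟩
  rw [h9] at hF ⊢
  exact M5_act k hk F e (2 * b) hF ℓ hℓ

lemma not_bad_22 : ¬ Bad 2 2 2 := by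
  intro h
  obtain ⟨R, u, l, b, hb, h2, hN, hact⟩ := act_of_bad h
  exact M3_22 u l b hb h2 hN (fun ℓ hℓ => by simpa using hact ℓ hℓ)

lemma not_bad_14 : ¬ Bad 1 4 2 := by
  intro h
  obtain ⟨R, u, l, b, hb, h2, hN, hact⟩ := act_of_bad h
  have e : (2 : ℤ) ^ 2 = 4 := by norm_num
  exact M3_14 u l b hb h2 hN (fun ℓ hℓ => by have := hact ℓ hℓ; rwa [e] at this)

lemma not_bad_44 : ¬ Bad 4 4 4 := by
  intro h
  obtain ⟨R, u, l, b, hb, h2, hN, hact⟩ := act_of_bad h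
  have e : (2 : ℤ) ^ 4 = 16 := by norm_num
  exact M3_44 u l b hb h2 hN (fun ℓ hℓ => by have := hact ℓ hℓ; rwa [e] at this)

lemma not_bad_28 : ¬ Bad 2 8 4 := by
  intro h
  obtain ⟨R, u, l, b, hb, h2, hN, hact⟩ := act_of_bad h
  have e : (2 : ℤ) ^ 4 = 16 := by norm_num
  exact M3_28 u l b hb h2 hN (fun ℓ hℓ => by have := hact ℓ hℓ; rwa [e] at this)

lemma not_bad_88 : ¬ Bad 8 8 6 := by
  intro h
  obtain ⟨R, u, l, b, hb, h2, hN, hact⟩ := act_of_bad h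
  have e : (2 : ℤ) ^ 6 = 64 := by norm_num
  exact M4a u l b hb h2 hN (fun p q => by
    have := hact (ell8 p q) (ell8_add p q); rwa [e] at this)

lemma not_bad_416 : ¬ Bad 4 16 6 := by
  intro h
  obtain ⟨R, u, l, b, hb, h2, hN, hact⟩ := act_of_bad h
  have e : (2 : ℤ) ^ 6 = 64 := by norm_num
  exact M4b u l b hb h2 hN (fun p q => by
    have := hact (ell416 p q) (ell416_add p q); rwa [e] at this)

lemma main_lt (i j k l : ℕ) (hij : i + j = 2 ∨ i + j = 4 ∨ i + j = 6)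
    (h1 : i ≤ j + 2) (h2 : j ≤ i + 2) (hkl : l < k)
    (a : ZMod (2 ^ i * 3 ^ k) → ZMod (2 ^ j * 3 ^ l) → ℤ)
    (ha : IsPBA (2 ^ i * 3 ^ k) (2 ^ j * 3 ^ l) a) : False := by
  have hcases : (i = 1 ∧ j = 1) ∨ (i = 0 ∧ j = 2) ∨ (i = 2 ∧ j = 0) ∨ (i = 2 ∧ j = 2) ∨
      (i = 1 ∧ j = 3) ∨ (i = 3 ∧ j = 1) ∨ (i = 3 ∧ j = 3) ∨ (i = 2 ∧ j = 4) ∨
      (i = 4 ∧ j = 2) := by omega
  rcases hcases with ⟨rfl, rfl⟩ | ⟨rfl, rfl⟩ | ⟨rfl, rfl⟩ | ⟨rfl, rfl⟩ | ⟨rfl, rfl⟩ | ⟨rfl, rfl⟩ |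
    ⟨rfl, rfl⟩ | ⟨rfl, rfl⟩ | ⟨rfl, rfl⟩
  · exact not_bad_22 (bad_of_pba 1 1 k l 2 2 rfl rfl (by decide) hkl a ha)
  · exact not_bad_14 (bad_of_pba 0 2 k l 1 4 rfl rfl (by decide) hkl a ha)
  · exact not_bad_14 (bad_of_pba 2 0 k l 4 1 rfl rfl (by decide) hkl a ha).swap
  · exact not_bad_44 (bad_of_pba 2 2 k l 4 4 rfl rfl (by decide) hkl a ha)
  · exact not_bad_28 (bad_of_pba 1 3 k l 2 8 rfl rfl (by decide) hkl a ha)
  · exact not_bad_28 (bad_of_pba 3 1 k l 8 2 rfl rfl (by decide) hkl a ha).swap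
  · exact not_bad_88 (bad_of_pba 3 3 k l 8 8 rfl rfl (by decide) hkl a ha)
  · exact not_bad_416 (bad_of_pba 2 4 k l 4 16 rfl rfl (by decide) hkl a ha)
  · exact not_bad_416 (bad_of_pba 4 2 k l 16 4 rfl rfl (by decide) hkl a ha).swap

/-- The main theorem. -/
theorem main (i j k l : ℕ) (hij : i + j = 2 ∨ i + j = 4 ∨ i + j = 6)
    (h1 : i ≤ j + 2) (h2 : j ≤ i + 2)
    (a : ZMod (2 ^ i * 3 ^ k) → ZMod (2 ^ j * 3 ^ l) → ℤ)
    (ha : IsPBA (2 ^ i * 3 ^ k) (2 ^ j * 3 ^ l) a) : k = l := by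
  rcases lt_trichotomy k l with h | h | h
  · exact (main_lt j i l k (by omega) h2 h1 h (fun x y => a y x) ha.transpose).elim
  · exact h
  · exact (main_lt i j k l hij h1 h2 h a ha).elim

end MP82
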